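import Pool.Agent.Lib.LT.Kit

/-! Duality for the cover from the matrices. -/

namespace Pool.Agent.Lib.LT

open Matrix Pool.Agent.Lib.MP_77749b_gt Pool.Agent.PD3

namespace ALG1

section gen

variable {G : Type} [Group G] {C : CD G} [∀ n, Fintype (C.L n)] [∀ n, DecidableEq (C.L n)]
  {T : ∀ n, (G × C.L n →₀ ℤ) ≃+ (C.L n → Lam G)}

theorem yv_zero {A : Type} : yv (0 : G × A → Lam G) = 0 := by
  funext s
  exact MonoidAlgebra.mapDomain_zero _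

theorem coch_zero {A : Type} : KCoch (0 : G × A → Lam G) := fun _ _ => (mul_zero _).symm

variable (h1 : ∀ n (c : G × C.L (n + 1) →₀ ℤ), T n (kbd C.f c) = T (n + 1) c ᵥ* C.B n)
  (h2 : ∀ n (ψ : G × C.L n → Lam G), KCoch ψ →
    KCoch (C.kcobd ψ) ∧ yv (C.kcobd ψ) = yv ψ ᵥ* adj (C.B n))
  (h3 : ∀ n (y : C.L n → Lam G), ∃ ψ : G × C.L n → Lam G, KCoch ψ ∧ yv ψ = y)
  (h4 : ∀ n (ψ ψ' : G × C.L n → Lam G), KCoch ψ → KCoch ψ' → yv ψ = yv ψ' → ψ = ψ')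

include h1 in
theorem cyc_iff {n : ℕ} (c : G × C.L (n + 1) →₀ ℤ) : C.KCyc c ↔ T (n + 1) c ᵥ* C.B n = 0 := by
  rw [← h1, map_eq_zero_iff _ (T n).injective]
  rfl

include h1 in
theorem bd_iff {n : ℕ} (c : G × C.L n →₀ ℤ) : C.KBd c ↔ ∃ u, u ᵥ* C.B n = T n c := by
  refine ⟨fun ⟨c', e⟩ => ⟨_, by rw [← h1, e]⟩, fun ⟨u, e⟩ => ⟨(T (n + 1)).symm u, ?_⟩⟩
  apply (T n).injective
  rw [h1, AddEquiv.apply_symm_apply, e]

include h2 h4 in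
theorem cocyc_iff {n : ℕ} {ψ : G × C.L n → Lam G} (hψ : KCoch ψ) :
    C.KCocyc ψ ↔ yv ψ ᵥ* adj (C.B n) = 0 := by
  rw [← (h2 n ψ hψ).2]
  exact ⟨fun h => by rw [h.2, yv_zero],
    fun h => ⟨hψ, h4 _ _ _ (h2 n ψ hψ).1 coch_zero (h.trans yv_zero.symm)⟩⟩

include h2 h3 h4 in
theorem cobd_iff {n : ℕ} (ψ : G × C.L (n + 1) → Lam G) (hψ : KCoch ψ) :
    C.KCobd ψ ↔ ∃ v, v ᵥ* adj (C.B n) = yv ψ := by
  refine ⟨fun ⟨χ, hχ, e⟩ => ⟨yv χ, by rw [← (h2 n χ hχ).2, e]⟩, fun ⟨v, e⟩ => ?_⟩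
  obtain ⟨χ, hχ, rfl⟩ := h3 n v
  exact ⟨χ, hχ, h4 _ _ _ (h2 n χ hχ).1 hψ ((h2 n χ hχ).2.trans e)⟩

omit [∀ n, Fintype (C.L n)] [∀ n, DecidableEq (C.L n)] in
include h4 in
theorem cobd_zero (ψ : G × C.L 0 → Lam G) (hψ : KCoch ψ) : C.KCobd ψ ↔ yv ψ = 0 :=
  ⟨fun h => by rw [show ψ = 0 from h, yv_zero],
    fun h => h4 _ _ _ hψ coch_zero (h.trans yv_zero.symm)⟩

include h1 h2 h3 h4 in
theorem kpd {k l : ℕ} {F : G × C.L 3 → G × C.L k} {Bk : G × C.L 3 → G × C.L l}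
    {z : G × C.L 3 →₀ ℤ} (M : Matrix (C.L k) (C.L l) (Lam G)) {P : (C.L k → Lam G) → Prop}
    {Q : (C.L l → Lam G) → Prop} (hP : ∀ ψ, KCoch ψ → (C.KCobd ψ ↔ P (yv ψ)))
    (hQ : ∀ c, C.KCyc c ↔ Q (T l c)) (hM : ∀ ψ, T l (kcap F Bk z ψ) = yv ψ ᵥ* M)
    (a : ∀ x, x ᵥ* adj (C.B k) = 0 → Q (x ᵥ* M) ∧ ((∃ u, u ᵥ* C.B l = x ᵥ* M) ↔ P x))
    (b : ∀ c, Q c → ∃ x, x ᵥ* adj (C.B k) = 0 ∧ ∃ u, u ᵥ* C.B l = x ᵥ* M - c) :
    C.KPD F Bk z := by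
  refine ⟨fun ψ hψ => ?_, fun c hc => ?_⟩
  · rw [hQ, bd_iff h1, hP ψ hψ.1, hM]
    exact a _ ((cocyc_iff h2 h4 hψ.1).1 hψ)
  · obtain ⟨x, hx, hu⟩ := b _ ((hQ c).1 hc)
    obtain ⟨ψ, hψ, rfl⟩ := h3 k x
    refine ⟨ψ, (cocyc_iff h2 h4 hψ).2 hx, ?_⟩
    rwa [bd_iff h1, map_sub, hM]

end gen

theorem ex_neg {R a b : Type} [Ring R] [Fintype a] (A : Matrix a b R) (x : b → R) :
    (∃ v, v ᵥ* (-A) = x) ↔ ∃ v, v ᵥ* A = x :=
  ⟨fun ⟨v, e⟩ => ⟨-v, by rw [← e, neg_vecMul, vecMul_neg]⟩,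
    fun ⟨v, e⟩ => ⟨-v, by rw [← e, neg_vecMul_neg]⟩⟩

theorem neg_zero' {R a b : Type} [Ring R] [Fintype a] (A : Matrix a b R) (x : a → R) :
    x ᵥ* (-A) = 0 ↔ x ᵥ* A = 0 := by rw [vecMul_neg, neg_eq_zero]

variable (X : DeltaCx)

/-- finiteness of the cells -/
abbrev fi : ∀ n, Fintype ((cdOf X).L n)
  | 0 => (inferInstance : Fintype Unit)
  | 1 => (inferInstance : Fintype (Fin X.n1))
  | 2 => (inferInstance : Fintype (Fin X.n2))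
  | 3 => (inferInstance : Fintype (Fin X.n3))
  | _ + 4 => (inferInstance : Fintype Empty)

/-- decidable equality of the cells -/
abbrev de : ∀ n, DecidableEq ((cdOf X).L n)
  | 0 => (inferInstance : DecidableEq Unit)
  | 1 => (inferInstance : DecidableEq (Fin X.n1))
  | 2 => (inferInstance : DecidableEq (Fin X.n2))
  | 3 => (inferInstance : DecidableEq (Fin X.n3))
  | _ + 4 => (inferInstance : DecidableEq Empty)

theorem B0 : @CD.B _ _ (cdOf X) 0 (de X 0) = X.bd1 := by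
  funext (s : Fin X.n1) (t : Unit)
  show ∑ i : Fin 2, (-1 : ℤ) ^ (i : ℕ) • (if () = t then MonoidAlgebra.single
    (if i = 0 then X.gen s else 1) 1 else 0 : X.Lam) = X.el s 1 - 1
  simp [Fin.sum_univ_two, DeltaCx.el, sub_eq_add_neg, MonoidAlgebra.one_def]

theorem B1 : @CD.B _ _ (cdOf X) 1 (de X 1) = X.bd2 := by
  funext (s : Fin X.n2) (t : Fin X.n1)
  show ∑ i : Fin 3, (-1 : ℤ) ^ (i : ℕ) • (if X.d2 s i = t then MonoidAlgebra.single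
    (if i = 0 then X.gen (X.d2 s 2) else 1) 1 else 0 : X.Lam) = X.bd2 s t
  simp [Fin.sum_univ_three, DeltaCx.el, DeltaCx.bd2, Matrix.sum_apply, Matrix.single_apply,
    sub_eq_add_neg, MonoidAlgebra.one_def, Finset.sum_add_distrib, ite_and, neg_ite]

theorem B2 : @CD.B _ _ (cdOf X) 2 (de X 2) = X.bd3 := by
  funext (s : Fin X.n3) (t : Fin X.n2)
  show ∑ i : Fin 4, (-1 : ℤ) ^ (i : ℕ) • (if X.d3 s i = t then MonoidAlgebra.single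
    (if i = 0 then X.gen (X.d2 (X.d3 s 3) 2) else 1) 1 else 0 : X.Lam) = X.bd3 s t
  simp [Fin.sum_univ_four, DeltaCx.el, DeltaCx.bd3, Matrix.sum_apply, Matrix.single_apply,
    sub_eq_add_neg, MonoidAlgebra.one_def, Finset.sum_add_distrib, ite_and, neg_ite]

theorem cycle {c : Fin X.n3 → ℤ} (hc : X.IsCycle c) :
    (kbd (A := X.pi1 × Fin X.n3) (n := 2) (cdOf X).f
      (∑ s, Finsupp.single (1, s) (c s))).mapDomain Prod.snd = 0 := by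
  rw [kbd_eq, map_sum, Finsupp.mapDomain_finsetSum]
  simp only [kbdL_single, Finsupp.mapDomain_finsetSum, Finsupp.mapDomain_smul,
    Finsupp.mapDomain_single]
  refine Finsupp.ext fun (t : Fin X.n2) => ?_
  have := congrFun hc t
  show (∑ s : Fin X.n3, ∑ i : Fin 4, (-1 : ℤ) ^ (i : ℕ) • Finsupp.single (X.d3 s i) (c s)) t = 0
  rw [Finset.sum_apply] at this
  rw [Finsupp.finsetSum_apply]
  refine (Finset.sum_congr rfl fun s _ => ?_).trans this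
  simp only [Fin.sum_univ_four, Finsupp.add_apply, Finsupp.smul_apply, Finsupp.single_eq_pi_single,
    Pi.add_apply, Pi.sub_apply]
  simp [sub_eq_add_neg]

end ALG1

open ALG1

theorem st_ALG1 (hMAT : St_MAT) (hDICT : St_DICT) : St_ALG1 := by
  rintro X ⟨c, hc, hE⟩
  let _ := fi X
  let _ := de X
  obtain ⟨T, h1, h2, h3, h4, h5⟩ := hDICT X.pi1 (cdOf X)
  obtain ⟨m0, m1, m2, m3⟩ := hMAT _ _ _ _ _ _ _ _ _ _ _ _ _ _ _ _ _ _ _ hE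
  simp only [ex_neg, neg_zero'] at m0 m1 m2 m3
  rw [← B0, ← B1, ← B2] at *
  have e3 : ∀ y, (∃ u, u ᵥ* (cdOf X).B 3 = y) ↔ y = 0 := fun y => by
    have e : ∀ u, u ᵥ* (cdOf X).B 3 = 0 := fun u => by
      rw [show u = 0 from funext fun s => Empty.elim s, zero_vecMul]
    exact ⟨fun ⟨u, hu⟩ => hu.symm.trans (e u), fun h => ⟨0, (e 0).trans h.symm⟩⟩
  have g1 : ∀ s, X.gen (X.d2 (X.d3 s 3) 2) * X.gen (X.d2 (X.d3 s 0) 2) =
      X.gen (X.d2 (X.d3 s 3) 1) := fun s => by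
    rw [← gen_rel X (X.d3 s 3)]
    exact congrArg (fun e => _ * X.gen e) (X.dd s 0 2 (by decide)).symm
  have g2 : ∀ s, X.gen (X.d2 (X.d3 s 3) 1) * X.gen (X.d2 (X.d3 s 0) 0) =
      X.gen (X.d2 (X.d3 s 1) 1) := fun s => by
    rw [← gen_rel X (X.d3 s 1)]
    exact congrArg₂ (fun e e' => X.gen e * X.gen e') (X.dd s 1 2 (by decide))
      (X.dd s 0 0 le_rfl).symm
  refine ⟨fun n hn => ?_, _, cycle X hc, ?_, ?_, ?_, ?_⟩
  · obtain ⟨m, rfl⟩ := Nat.exists_eq_add_of_le' (show 4 ≤ n from hn)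
    exact inferInstanceAs (IsEmpty Empty)
  · refine kpd h1 h2 h3 h4 (X.cap0 c) (P := fun x => x = 0)
      (Q := fun y => y ᵥ* (cdOf X).B 2 = 0) (cobd_zero h4) (cyc_iff h1) (fun ψ => ?_)
      (fun x hx => ?_) fun y hy => ?_
    · refine (h5 0 3 _ _ (fun _ => ()) (fun _ => 1) id c (fun s => ?_) (fun s => rfl) ψ).trans ?_
      · simp [CD.f, cdOf]
        rfl
      · simp only [DeltaCx.cap0, MonoidAlgebra.intCast_def]
        rfl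
    · rw [e3]
      exact m3.1 x hx
    · obtain ⟨x, hx, e⟩ := m3.2 y hy
      exact ⟨x, hx, (e3 _).2 (sub_eq_zero.2 e)⟩
  · refine kpd h1 h2 h3 h4 (X.cap1 c) (P := fun x => ∃ v, v ᵥ* adj ((cdOf X).B 0) = x)
      (Q := fun y => y ᵥ* (cdOf X).B 1 = 0) (cobd_iff h2 h3 h4) (cyc_iff h1) (fun ψ => ?_) m2.1 m2.2
    exact h5 1 2 _ _ (fun s => X.d2 (X.d3 s 3) 2) (fun s => X.gen (X.d2 (X.d3 s 3) 2))
      (fun s => X.d3 s 0) c (fun s => by simp [CD.f, cdOf, cd])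
      (fun s => by simp [CD.f, cdOf, cd, e01]) ψ
  · refine kpd h1 h2 h3 h4 (X.cap2 c) (P := fun x => ∃ v, v ᵥ* adj ((cdOf X).B 1) = x)
      (Q := fun y => y ᵥ* (cdOf X).B 0 = 0) (cobd_iff h2 h3 h4) (cyc_iff h1) (fun ψ => ?_) m1.1 m1.2
    exact h5 2 1 _ _ (fun s => X.d3 s 3) (fun s => X.gen (X.d2 (X.d3 s 3) 1))
      (fun s => X.d2 (X.d3 s 0) 0) c (fun s => by simp [CD.f, cdOf, cd])
      (fun s => by simp [CD.f, cdOf, cd, e01, g1]) ψ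
  · have e4 : ∀ x, x ᵥ* adj ((cdOf X).B 3) = 0 := fun _ => funext fun s => Empty.elim s
    refine kpd h1 h2 h3 h4 (X.cap3 c) (P := fun x => ∃ v, v ᵥ* adj ((cdOf X).B 2) = x)
      (Q := fun _ => True) (cobd_iff h2 h3 h4) (fun _ => Iff.rfl) (fun ψ => ?_)
      (fun x _ => ⟨trivial, m0.1 x⟩) fun y _ => ?_
    · exact h5 3 0 _ _ id (fun s => X.gen (X.d2 (X.d3 s 1) 1)) (fun _ => ()) c (fun s => rfl)
        (fun s => by simp [CD.f, cdOf, cd, e01, g1, g2]) ψ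
    · obtain ⟨x, hx⟩ := m0.2 y
      exact ⟨x, e4 x, hx⟩

end Pool.Agent.Lib.LT
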