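import Pool.Agent.Lib.LT.Kit

/-! Block ALG2: from simplicial to singular duality. -/

namespace Pool.Agent.Lib.LT

open Set Topology Pool.Agent.Lib.MP_77749b_gt

namespace ALG2

variable {G : Type} [Group G] {C : CD G} {E : Type} [TopologicalSpace E] [MulAction G E]
  [ContinuousConstSMul G E] (R : Real C E)

theorem bdΦ {n : ℕ} (c : G × C.L (n + 1) →₀ ℤ) :
    bdry (c.mapDomain R.Φ) = (kbd C.f c).mapDomain R.Φ := R.ds.bdry_Φ c

theorem cyc {n : ℕ} (c : G × C.L n →₀ ℤ) : IsCycle (c.mapDomain R.Φ) ↔ C.KCyc c := by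
  cases n with
  | zero => rfl
  | succ n =>
    change bdry _ = 0 ↔ kbd C.f c = 0
    rw [bdΦ]
    exact (Finsupp.mapDomain_injective (R.ds.Φ_inj n)).eq_iff' Finsupp.mapDomain_zero

theorem bdy (hQ : R.ds.QI) {n : ℕ} (c : G × C.L n →₀ ℤ) : IsBdry (c.mapDomain R.Φ) ↔ C.KBd c :=
  ⟨hQ.inj n c, fun ⟨c', h⟩ => ⟨_, h ▸ bdΦ R c'⟩⟩

theorem bsub {n : ℕ} {a b : Simplex E n →₀ ℤ} (ha : IsBdry a) (hb : IsBdry b) : IsBdry (a - b) := by
  obtain ⟨x, rfl⟩ := ha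
  obtain ⟨y, rfl⟩ := hb
  exact ⟨x - y, by simp only [bdry_eq, map_sub]⟩

theorem surj (hQ : R.ds.QI) {n : ℕ} {z : Simplex E n →₀ ℤ} (hz : IsCycle z) :
    ∃ c : G × C.L n →₀ ℤ, C.KCyc c ∧ IsBdry (z - c.mapDomain R.Φ) := by
  obtain ⟨c, hc⟩ := hQ.surj n z hz
  refine ⟨c, (cyc R c).1 ?_, hc⟩
  cases n with
  | zero => trivial
  | succ n =>
    obtain ⟨d, hd⟩ := hc
    have h1 := congrArg bdry hd
    have h2 : bd (n + 1) z = 0 := (bdry_eq z).symm.trans hz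
    rw [bdry_eq, bdry_eq, bdry_eq, bd_bd, map_sub, h2, zero_sub, eq_comm, neg_eq_zero] at h1
    exact (bdry_eq _).trans h1

theorem coch {n : ℕ} {φ : Simplex E n → Lam G} (h : IsCochain φ) : KCoch fun σ => φ (R.Φ σ) :=
  fun g σ => (congrArg φ (R.Φ_sh g σ)).trans (h g _)

theorem cobd {n : ℕ} (φ : Simplex E n → Lam G) :
    C.kcobd (fun σ => φ (R.Φ σ)) = fun σ => cobdry φ (R.Φ σ) := by
  funext σ
  simp only [CD.kcobd, cobdry, R.Φ_d]

theorem cocy {n : ℕ} {φ : Simplex E n → Lam G} (h : IsCocycle φ) : C.KCocyc fun σ => φ (R.Φ σ) :=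
  ⟨coch R h.1, by rw [cobd, h.2]; rfl⟩

theorem cob (hC : R.QC) {n : ℕ} {φ : Simplex E n → Lam G} (h : IsCocycle φ) :
    C.KCobd (fun σ => φ (R.Φ σ)) ↔ IsCobdry φ := by
  refine ⟨hC.inj n φ h, fun h' => ?_⟩
  cases n with
  | zero => exact funext fun σ => congrFun h' _
  | succ n =>
    obtain ⟨ψ, h1, rfl⟩ := h'
    exact ⟨_, coch R h1, cobd R ψ⟩

theorem deg (hQ : R.ds.QI) (hC : R.QC) {k l : ℕ} (h : k + l = 3) {F : G × C.L 3 → G × C.L k}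
    {Bk : G × C.L 3 → G × C.L l} {z : G × C.L 3 →₀ ℤ} (hK : C.KPD F Bk z)
    (hF : ∀ σ, R.Φ (F σ) = pull (fun j => ⟨j, by omega⟩) (R.Φ σ))
    (hB : ∀ σ, R.Φ (Bk σ) = pull (fun j => ⟨k + j, by omega⟩) (R.Φ σ)) :
    (∀ φ : Simplex E k → MonoidAlgebra ℤ G, IsCocycle φ → IsCycle (cap h (z.mapDomain R.Φ) φ) ∧
      (IsBdry (cap h (z.mapDomain R.Φ) φ) ↔ IsCobdry φ)) ∧
    ∀ c : Simplex E l →₀ ℤ, IsCycle c → ∃ φ : Simplex E k → MonoidAlgebra ℤ G,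
      IsCocycle φ ∧ IsBdry (cap h (z.mapDomain R.Φ) φ - c) := by
  have e : ∀ φ : Simplex E k → MonoidAlgebra ℤ G, cap h (z.mapDomain R.Φ) φ =
      (kcap F Bk z fun σ => φ (R.Φ σ)).mapDomain R.Φ := fun φ => by
    rw [cap, kcap, Finsupp.sum_mapDomain_index_inj (f := R.Φ) (R.ds.Φ_inj 3)]
    simp only [Finsupp.sum, Finsupp.mapDomain_finsetSum, Finsupp.mapDomain_single, R.Φ_sh, hF, hB]
  refine ⟨fun φ hφ => ?_, fun c hc => ?_⟩
  · rw [e, cyc, bdy R hQ, ← cob R hC hφ]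
    exact hK.1 _ (cocy R hφ)
  · obtain ⟨c', h1, h2⟩ := surj R hQ hc
    obtain ⟨ψ, h3, h4⟩ := hK.2 c' h1
    obtain ⟨φ, h5, h6⟩ := hC.surj k ψ h3
    have h7 := bsub ((bdy R hQ _).2 h4) h2
    rw [Finsupp.mapDomain_sub, sub_sub, add_sub_cancel] at h7
    exact ⟨φ, h5, by rw [e, funext h6]; exact h7⟩

end ALG2

open ALG2 in
theorem st_ALG2 : St_ALG2 := by
  intro G _ C E _ _ _ R ⟨htop, z, hz, k0, k1, k2, k3⟩ hQ hC X _ p hp
  refine ⟨z.mapDomain R.Φ, ?_, fun k l h => ?_, fun n hn => ⟨fun c hc => ?_, fun φ hφ => ?_⟩⟩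
  · have h1 : bdry ((z.mapDomain R.Φ).mapDomain p.comp) =
        (bdry (z.mapDomain R.Φ)).mapDomain p.comp := by
      rw [bdry_eq, bdry_eq]
      exact bd_push p _
    have h2 : (p.comp ∘ R.Φ : G × C.L 2 → _) = (fun s => p.comp (R.Φ (1, s))) ∘ Prod.snd := by
      funext ⟨g, s⟩
      ext t
      rw [← sh_mk g s, Function.comp_apply, R.Φ_sh]
      exact hp g _
    rw [h1, bdΦ, ← Finsupp.mapDomain_comp, h2, Finsupp.mapDomain_comp, hz, Finsupp.mapDomain_zero]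
  · have hid : ∀ (f : Fin 4 → Fin 4) (σ : Simplex E 3), f = id → σ = pull f σ := fun f σ hf => by
      rw [hf, pull_id]
    have hk : k = 0 ∧ l = 3 ∨ k = 1 ∧ l = 2 ∨ k = 2 ∧ l = 1 ∨ k = 3 ∧ l = 0 := by omega
    rcases hk with ⟨rfl, rfl⟩ | ⟨rfl, rfl⟩ | ⟨rfl, rfl⟩ | ⟨rfl, rfl⟩
    · refine deg R hQ hC h k0 (fun σ => ?_) fun σ => hid _ _ (funext fun j => by fin_cases j <;> rfl)
      simp only [R.Φ_d, pull_pull]
      exact congrArg (pull · _) (funext fun j => by fin_cases j <;> rfl)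
    · refine deg R hQ hC h k1 (fun σ => ?_) fun σ => ?_ <;> simp only [R.Φ_d, pull_pull] <;>
        exact congrArg (pull · _) (funext fun j => by fin_cases j <;> rfl)
    · refine deg R hQ hC h k2 (fun σ => ?_) fun σ => ?_ <;> simp only [R.Φ_d, pull_pull] <;>
        exact congrArg (pull · _) (funext fun j => by fin_cases j <;> rfl)
    · refine deg R hQ hC h k3 (fun σ => hid _ _ (funext fun j => by fin_cases j <;> rfl)) fun σ => ?_
      simp only [R.Φ_d, pull_pull]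
      exact congrArg (pull · _) (funext fun j => by fin_cases j <;> rfl)
  · obtain ⟨c', -, h2⟩ := surj R hQ hc
    have := htop n hn
    rwa [Subsingleton.elim c' 0, Finsupp.mapDomain_zero, sub_zero] at h2
  · have := htop n hn
    refine hC.inj n φ hφ ?_
    obtain ⟨m, rfl⟩ : ∃ m, n = m + 1 := ⟨n - 1, by omega⟩
    exact ⟨0, fun _ _ => (mul_zero _).symm, Subsingleton.elim _ _⟩

end Pool.Agent.Lib.LT
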