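import Pool.Agent.Lib.LT.Kit

/-! Balls and simplices. -/

namespace Pool.Agent.Lib.LT

open Set Topology Filter Pool.Agent.Lib.MP_77749b_gt

namespace BALL

/-- barycentric coordinates -/
def co {n : ℕ} (y : Fin n → ℝ) : Fin (n + 1) → ℝ := Fin.cons (1 - ∑ i, y i) y

theorem co_cont (n : ℕ) : Continuous (co (n := n)) :=
  continuous_pi fun i => by
    refine Fin.cases ?_ (fun j => ?_) i
    · exact continuous_const.sub (continuous_finsetSum _ fun j _ => continuous_apply j)
    · exact continuous_apply j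

theorem co_sum {n : ℕ} (y : Fin n → ℝ) : ∑ i, co y i = 1 := by
  simp [co, Fin.sum_univ_succ]

theorem co_aff {n : ℕ} (x y : Fin n → ℝ) {a b : ℝ} (h : a + b = 1) (i : Fin (n + 1)) :
    co (a • x + b • y) i = a * co x i + b * co y i := by
  refine Fin.cases ?_ (fun j => ?_) i
  · simp only [co, Fin.cons_zero, Pi.add_apply, Pi.smul_apply, smul_eq_mul,
      Finset.sum_add_distrib, ← Finset.mul_sum]
    linear_combination -h
  · simp [co]

theorem co_ctr (n : ℕ) (i : Fin (n + 1)) : 0 < co (fun _ : Fin n => ((n : ℝ) + 1)⁻¹) i := by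
  have h : (0 : ℝ) < (n : ℝ) + 1 := by positivity
  refine Fin.cases ?_ (fun j => ?_) i
  · simp only [co, Fin.cons_zero, Finset.sum_const, Finset.card_univ, Fintype.card_fin,
      nsmul_eq_mul, sub_pos]
    rw [← div_eq_mul_inv, div_lt_one h]
    linarith
  · simpa [co] using h

theorem int_eq (n : ℕ) :
    interior {y : Fin n → ℝ | ∀ i, 0 ≤ co y i} = {y | ∀ i, 0 < co y i} := by
  refine Subset.antisymm (fun y hy i => ?_) (interior_maximal (fun y hy i => (hy i).le) ?_)
  · have hc : Continuous fun r : ℝ => (1 + r) • y + (-r) • fun _ : Fin n => ((n : ℝ) + 1)⁻¹ := by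
      fun_prop
    have he := hc.continuousAt (x := 0) |>.eventually_mem
      (s := {y : Fin n → ℝ | ∀ i, 0 ≤ co y i}) (by simpa using mem_interior_iff_mem_nhds.1 hy)
    obtain ⟨r, h1, h2⟩ := ((he.filter_mono (nhdsWithin_le_nhds (s := Ioi 0))).and
      self_mem_nhdsWithin).exists
    have h3 := h1 i
    rw [co_aff _ _ (by ring)] at h3
    have h4 := mul_pos (show (0 : ℝ) < r from h2) (co_ctr n i)
    exact (mul_pos_iff_of_pos_left (show 0 < 1 + r by linarith [show (0 : ℝ) < r from h2])).1
      (by linarith)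
  · rw [ofPred_forall]
    exact isOpen_iInter_of_finite fun i =>
      isOpen_lt continuous_const ((continuous_apply i).comp (co_cont n))

end BALL

open BALL in
theorem st_BALL : St_BALL := by
  intro n
  classical
  set S := {y : Fin n → ℝ | ∀ i, 0 ≤ co y i} with hS
  have hcl : IsClosed S := by
    rw [hS, ofPred_forall]
    exact isClosed_iInter fun i =>
      isClosed_le continuous_const ((continuous_apply i).comp (co_cont n))
  have hcv : Convex ℝ S := fun x hx y hy a b ha hb h i => by
    rw [co_aff _ _ h]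
    exact add_nonneg (mul_nonneg ha (hx i)) (mul_nonneg hb (hy i))
  have hb : Bornology.IsBounded S := (Metric.isBounded_Icc (0 : Fin n → ℝ) 1).subset fun y hy =>
    ⟨fun j => hy j.succ, fun j => stdSimplex.le_one (⟨co y, hy, co_sum y⟩ : Dl (n + 1)) j.succ⟩
  obtain ⟨e, h1, h2, -⟩ := exists_homeomorph_image_interior_closure_frontier_eq_unitBall hcv
    ⟨_, (int_eq n).ge (co_ctr n)⟩ hb
  rw [hcl.closure_eq] at h2
  have hm : ∀ x, x ∈ Metric.closedBall (0 : Fin n → ℝ) 1 ↔ e.symm x ∈ S := fun x => by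
    rw [← h2, e.image_eq_preimage_symm]; rfl
  let h : (Fin n → ℝ) → Dl (n + 1) := fun x =>
    if hx : e.symm x ∈ S then ⟨co (e.symm x), hx, co_sum _⟩ else ctr n
  have hh : ∀ x ∈ Metric.closedBall (0 : Fin n → ℝ) 1, (h x).1 = co (e.symm x) := fun x hx => by
    simp only [h, dif_pos ((hm x).1 hx)]
  refine ⟨h, IsInducing.subtypeVal.continuousOn_iff.2
    (((co_cont n).comp e.symm.continuous).continuousOn.congr hh),
    ⟨mapsTo_univ _ _, fun x hx y hy hxy => e.symm.injective (funext fun j => ?_), fun t _ => ?_⟩,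
    fun x hx => ?_⟩
  · exact congrFun ((hh x hx).symm.trans ((congrArg Subtype.val hxy).trans (hh y hy))) j.succ
  · have ht : co (fun j => t.1 j.succ) = t.1 := funext fun i => by
      refine Fin.cases ?_ (fun j => rfl) i
      have := t.2.2
      rw [Fin.sum_univ_succ] at this
      simp only [co, Fin.cons_zero]
      linarith
    have hx : e (fun j => t.1 j.succ) ∈ Metric.closedBall (0 : Fin n → ℝ) 1 :=
      h2 ▸ mem_image_of_mem _ fun i => ht.symm ▸ t.2.1 i
    exact ⟨_, hx, Subtype.ext (by rw [hh _ hx, e.symm_apply_apply, ht])⟩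
  · rw [← h1, e.image_eq_preimage_symm, int_eq]
    exact forall_congr' fun i => by rw [← hh x hx]; rfl

end Pool.Agent.Lib.LT
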