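import Pool.Agent.Lib.LT.Kit

/-! Cohomology: simplicial cochains of the cover compute singular cohomology. -/

namespace Pool.Agent.Lib.LT

open Finsupp

namespace COH

variable {A B M : Type} [Ring M]

theorem eqv {φ : A → M} {f : A → A} {m : M} (h : ∀ a, φ (f a) = m * φ a) (c : A →₀ ℤ) :
    linearCombination ℤ φ (c.mapDomain f) = m * linearCombination ℤ φ c := by
  induction c using Finsupp.induction_linear with
  | zero => simp
  | add c c' e e' => rw [mapDomain_add, map_add, map_add, e, e', mul_add]
  | single a r => rw [mapDomain_single, linearCombination_single, linearCombination_single, h,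
      mul_smul_comm]

theorem cob {n : ℕ} (d : Fin (n + 2) → A → B) (ψ : B → M) (c : A →₀ ℤ) :
    linearCombination ℤ ψ (kbd d c) =
      linearCombination ℤ (fun σ => ∑ i : Fin (n + 2), (-1 : ℤ) ^ (i : ℕ) • ψ (d i σ)) c := by
  rw [kbd_eq]
  induction c using Finsupp.induction_linear with
  | zero => simp only [map_zero]
  | add c c' e e' => simp only [map_add, e, e']
  | single a r =>
    simp only [kbdL_single, map_sum, map_smul, linearCombination_single, Finset.smul_sum,
      smul_comm r]

end COH

theorem st_COH : St_COH := by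
  intro G _ C E _ _ _ R r h H
  have hb : ∀ {k} {φ : Simplex E k → Lam G}, IsCocycle φ → ∀ c,
      linearCombination ℤ φ (bdry c) = 0 := fun {k φ} hφ c => by
    refine (COH.cob (fun i => pull i.succAbove) φ c).trans ?_
    rw [show (fun σ => ∑ i : Fin (k + 2), (-1 : ℤ) ^ (i : ℕ) • φ (pull i.succAbove σ)) = 0
      from hφ.2, linearCombination_zero_apply]
  have hr : ∀ {k} (ψ : G × C.L k → Lam G) σ,
      cobdry (fun σ => linearCombination ℤ ψ (r k σ)) σ =
        linearCombination ℤ (C.kcobd ψ) (r (k + 1) σ) := fun ψ σ => by
    refine Eq.trans ?_ (COH.cob C.f ψ _)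
    simp only [H.r_bd, cobdry, map_sum, map_smul]
  refine ⟨fun k ψ hψ => ⟨fun σ => linearCombination ℤ ψ (r k σ), ⟨fun g σ => ?_, ?_⟩,
    fun σ => ?_⟩, fun k φ hφ hk => ?_⟩
  · simp only [H.r_sh, COH.eqv (hψ.1 g)]
  · funext σ
    rw [hr, hψ.2, linearCombination_zero_apply, Pi.zero_apply]
  · simp only [H.r_Φ, linearCombination_single, one_smul]
  · cases k with
    | zero =>
      funext σ
      have e := congrArg (linearCombination ℤ φ) (H.zero σ)
      rw [map_add, hb hφ, linearCombination_mapDomain, show φ ∘ R.Φ = 0 from hk,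
        linearCombination_zero_apply, linearCombination_single, one_smul, add_zero] at e
      exact e.symm
    | succ k =>
      obtain ⟨χ, h1, h2⟩ := hk
      refine ⟨fun σ => linearCombination ℤ χ (r k σ) + linearCombination ℤ φ (h k σ),
        fun g σ => ?_, funext fun σ => ?_⟩
      · simp only [H.r_sh, H.h_sh, COH.eqv (h1 g), COH.eqv (hφ.1 g), mul_add]
      · have e := congrArg (linearCombination ℤ φ) (H.succ k σ)
        rw [map_add, map_add, hb hφ, linearCombination_mapDomain, linearCombination_single,
          one_smul, add_zero, show φ ∘ R.Φ = _ from h2.symm, ← hr] at e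
        simpa only [cobdry, smul_add, Finset.sum_add_distrib, map_sum, map_smul] using e

end Pool.Agent.Lib.LT
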