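import Pool.Agent.Lib.LT.Kit

/-! Subdividing paths along an open cover with two members. -/

namespace Pool.Agent.Lib.LT

open Set Topology

namespace COVER

variable {E : Type} [TopologicalSpace E]

theorem of_cast {x₀ : E} (c : ∀ x, PQ x₀ x) {x y x' y' : E} (γ : Path x y) (hx : x' = x)
    (hy : y' = y) (h : (c x').trans (.mk (γ.cast hx hy)) = c y') :
    (c x).trans (.mk γ) = c y := by
  subst hx hy
  exact h

theorem step {x₀ : E} (c : ∀ x, PQ x₀ x) {x y : E} (γ : Path x y) (r s t : unitInterval)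
    (h1 : (c (γ r)).trans (.mk (γ.subpath r s)) = c (γ s))
    (h2 : (c (γ s)).trans (.mk (γ.subpath s t)) = c (γ t)) :
    (c (γ r)).trans (.mk (γ.subpath r t)) = c (γ t) := by
  rw [← h2, ← h1, Path.Homotopic.Quotient.trans_assoc, ← Path.Homotopic.Quotient.mk_trans,
    Path.Homotopic.Quotient.eq.2 ⟨Path.Homotopy.subpathTransSubpath γ r s t⟩]

end COVER

theorem st_COVER : St_COVER := by
  intro E _ x₀ c B U V hU hV hB pU pV x y γ hγ
  obtain ⟨t, t0, hm, ⟨n, hn⟩, hc⟩ := exists_monotone_Icc_subset_open_cover_unitInterval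
    (c := fun b : Bool => γ ⁻¹' (if b then U else V))
    (fun b => IsOpen.preimage γ.continuous (by cases b <;> simpa))
    (fun s _ => by
      rcases hB (hγ ⟨s, rfl⟩) with h | h
      · exact mem_iUnion.2 ⟨true, h⟩
      · exact mem_iUnion.2 ⟨false, h⟩)
  have key : ∀ i, (c (γ 0)).trans (.mk (γ.subpath 0 (t i))) = c (γ (t i)) := by
    intro i
    induction i with
    | zero =>
      rw [t0, Path.subpath_self, Path.Homotopic.Quotient.mk_refl,
        Path.Homotopic.Quotient.trans_refl]
    | succ i ih =>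
      refine COVER.step c γ _ _ _ ih ?_
      obtain ⟨b, hb⟩ := hc i
      have hr : range (γ.subpath (t i) (t (i + 1))) ⊆ B ∩ (if b then U else V) := by
        rw [Path.range_subpath_of_le _ _ _ (hm i.le_succ)]
        rintro _ ⟨s, hs, rfl⟩
        exact ⟨hγ ⟨s, rfl⟩, hb hs⟩
      cases b
      · exact pV _ _ _ hr
      · exact pU _ _ _ hr
  have h1 := key n
  rw [hn n le_rfl, Path.subpath_zero_one] at h1
  exact COVER.of_cast c γ _ _ h1

end Pool.Agent.Lib.LT
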