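import Pool.Agent.Lib.LT.Kit

namespace Pool.Agent.Lib.LT

open Set Topology Metric Pool.Agent.Lib.MP_77749b_gt

theorem CW.symm_cont {Y X : Type} [TopologicalSpace Y] [TopologicalSpace X] [T2Space X]
    (e : PartialEquiv Y X) {K : Set Y} (hK : IsCompact K) (hc : ContinuousOn e K)
    (hs : e.source ⊆ K) (h : ∀ x ∈ e.source, ∀ y ∈ K, e x = e y → x = y) :
    ContinuousOn e.symm e.target := by
  refine continuousOn_iff_isClosed.2 fun Z hZ => ⟨e '' (K ∩ Z),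
    ((hK.inter_right hZ).image_of_continuousOn (hc.mono inter_subset_left)).isClosed, ?_⟩
  ext x
  refine and_congr_left fun hx => ⟨fun hz => ⟨_, ⟨hs (e.map_target hx), hz⟩, e.right_inv hx⟩, ?_⟩
  rintro ⟨y, hy, rfl⟩
  rw [mem_preimage, h _ (e.map_target hx) y hy.1 (e.right_inv hx)]
  exact hy.2

theorem st_CW (hB : St_BALL) : St_CW := by
  intro G _ C E _ _ _ R X _ _ p hp
  choose h hc hb hi using hB
  have k1 : ∀ {n} (σ : G × C.L n) t, p (R.Φ (1, σ.2) t) = p (R.Φ σ t) := fun σ t =>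
    (hp.apply_eq_iff_mem_orbit.2 ⟨σ.1,
      DFunLike.congr_fun ((R.Φ_sh σ.1 (1, σ.2)).symm.trans (congrArg R.Φ (sh_mk _ _))) t⟩).symm
  have k2 : ∀ {m n} (s : C.L m) (s' : C.L n) t t', p (R.Φ (1, s) t) = p (R.Φ (1, s') t') →
      ∃ g, R.Φ (1, s) t = R.Φ (g, s') t' := fun s s' t t' e =>
    let ⟨g, hg⟩ := hp.apply_eq_iff_mem_orbit.1 e
    ⟨g, by rw [← sh_mk g, R.Φ_sh]; exact hg.symm⟩
  have inj : ∀ {n} (s : C.L n), ∀ x ∈ ball 0 1, ∀ y ∈ closedBall 0 1,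
      p (R.Φ (1, s) (h n x)) = p (R.Φ (1, s) (h n y)) → x = y := by
    intro n s x hx y hy e
    have hx' := ball_subset_closedBall hx
    obtain ⟨g, hg⟩ := k2 _ _ _ _ e
    refine (hb n).injOn hx' hy (R.uniq _ _ _ _ ((hi n x hx').2 hx) (by_contra fun hn => ?_) hg).2
    obtain ⟨m, -, τ, u, hu, e', hm⟩ := R.ds.exists_inn (n := n) (g, s) (h n y)
    exact (hm hn).ne (R.dim_eq _ _ _ _ hu ((hi n x hx').2 hx) (e'.trans hg.symm))
  let map : ∀ n, C.L n → PartialEquiv (Fin n → ℝ) X := fun n s =>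
    InjOn.toPartialEquiv (fun x => p (R.Φ (1, s) (h n x))) (ball 0 1)
      fun x hx y hy => inj s x hx y (ball_subset_closedBall hy)
  have cont : ∀ n s, ContinuousOn (map n s) (closedBall 0 1) := fun n s =>
    (p.continuous.comp (R.Φ (1, s)).continuous).comp_continuousOn (hc n)
  have mem : ∀ {n} (σ : G × C.L n) t, p (R.Φ σ t) ∈ map n σ.2 '' closedBall 0 1 := fun σ t =>
    let ⟨x, hx, e⟩ := (hb _).surjOn (mem_univ t)
    ⟨x, hx, e ▸ k1 σ _⟩
  refine ⟨_, CWComplex.finite_mkFinite univ C.L map (Filter.eventually_atTop.2 C.top) C.fin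
    (fun _ _ => rfl) cont
    (fun n s => CW.symm_cont _ (isCompact_closedBall 0 1) (cont n s) ball_subset_closedBall (inj s))
    ?_ (fun n s x hx => ?_) (eq_univ_of_forall fun x => ?_)⟩
  · rintro ⟨m, s⟩ - ⟨n, s'⟩ - hne
    refine disjoint_left.2 ?_
    rintro _ ⟨x, hx, rfl⟩ ⟨y, hy, e⟩
    obtain ⟨g, hg⟩ := k2 _ _ _ _ e
    have a := (hi _ y (ball_subset_closedBall hy)).2 hy
    have b := (hi _ x (ball_subset_closedBall hx)).2 hx
    obtain rfl := R.dim_eq _ _ _ _ a b hg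
    exact hne (congrArg (Sigma.mk _) (congrArg Prod.snd (R.uniq _ _ _ _ a b hg).1).symm)
  · obtain ⟨m, -, τ, u, -, e, hm⟩ := R.ds.exists_inn (n := n) (1, s) (h n x)
    refine mem_iUnion₂.2 ⟨m, hm fun hn => ?_, mem_iUnion.2 ⟨τ.2, ?_⟩⟩
    · exact (mem_ball.1 ((hi n x (sphere_subset_closedBall hx)).1 hn)).ne hx
    · exact mem_of_eq_of_mem (congrArg p e).symm (mem τ u)
  · obtain ⟨y, rfl⟩ := hp.surjective x
    obtain ⟨n, σ, t, -, rfl⟩ := R.cover y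
    exact mem_iUnion₂.2 ⟨n, σ.2, mem σ t⟩

end Pool.Agent.Lib.LT
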