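import Pool.Agent.Lib.LT.Kit

/-! Dictionary between chains of the cover and row vectors over the group ring. -/

namespace Pool.Agent.Lib.LT

open Matrix Pool.Agent.PD3

namespace DICT

variable {G : Type} [Group G]

/-- the involution of the group ring as an additive map -/
noncomputable def cj : Lam G →+ Lam G where
  toFun := MonoidAlgebra.mapDomain fun g => g⁻¹
  map_zero' := MonoidAlgebra.mapDomain_zero _
  map_add' := MonoidAlgebra.mapDomain_add _

theorem cj_single (g : G) (a : ℤ) :
    cj (MonoidAlgebra.single g a) = MonoidAlgebra.single g⁻¹ a := MonoidAlgebra.mapDomain_single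

theorem cj_cj (x : Lam G) : cj (cj x) = x := by
  induction x using MonoidAlgebra.induction_linear with
  | zero => simp
  | add x y hx hy => rw [map_add, map_add, hx, hy]
  | single g a => rw [cj_single, cj_single, inv_inv]

theorem cj_mul (g : G) (x : Lam G) :
    cj (MonoidAlgebra.single g 1 * x) = cj x * MonoidAlgebra.single g⁻¹ 1 := by
  induction x using MonoidAlgebra.induction_linear with
  | zero => simp
  | add x y hx hy => rw [mul_add, map_add, map_add, hx, hy, add_mul]
  | single h a =>
    rw [MonoidAlgebra.single_mul_single, cj_single, cj_single, MonoidAlgebra.single_mul_single,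
      _root_.mul_inv_rev, one_mul, mul_one]

/-- chains of the cover as row vectors -/
noncomputable def tv (A : Type) [Finite A] : (G × A →₀ ℤ) ≃+ (A → Lam G) :=
  ((Finsupp.domCongr (Equiv.prodComm G A)).trans Finsupp.curryAddEquiv).trans
    ((Finsupp.linearEquivFunOnFinite ℤ (G →₀ ℤ) A).toAddEquiv.trans
      (AddEquiv.piCongrRight fun _ => MonoidAlgebra.coeffAddEquiv.symm))

theorem tv_coeff {A : Type} [Finite A] (c : G × A →₀ ℤ) (s : A) (g : G) :
    (tv A c s).coeff g = c (g, s) := by
  change (Finsupp.equivMapDomain (Equiv.prodComm G A) c).curry s g = _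
  simp

theorem tv_single {A : Type} [Finite A] [DecidableEq A] (g : G) (s : A) (a : ℤ) :
    tv A (Finsupp.single (g, s) a) = Pi.single s (MonoidAlgebra.single g a) := by
  classical
  funext t
  ext h
  rw [tv_coeff]
  by_cases e : t = s
  · subst e
    simp [Finsupp.single_apply]
  · simp [e]

theorem tv_cap {A : Type} [Finite A] [DecidableEq A] (x : Lam G) (w : G) (t : A) (c : ℤ) :
    tv A (x.coeff.sum fun g b => Finsupp.single (sh g⁻¹ (w, t)) (c * b)) =
      Pi.single t (cj x * MonoidAlgebra.single w c) := by
  induction x using MonoidAlgebra.induction_linear with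
  | zero => simp
  | add x y hx hy =>
    rw [MonoidAlgebra.coeff_add, Finsupp.sum_add_index' (by simp)
      (fun _ _ _ => by rw [mul_add, Finsupp.single_add]), map_add, hx, hy, map_add, add_mul,
      Pi.single_add]
  | single g a =>
    rw [MonoidAlgebra.coeff_single, Finsupp.sum_single_index (by simp), cj_single,
      MonoidAlgebra.single_mul_single, mul_comm a c]
    exact tv_single _ _ _

theorem coch {A : Type} {ψ : G × A → Lam G} (h : KCoch ψ) (g : G) (s : A) :
    ψ (g, s) = MonoidAlgebra.single g 1 * ψ (1, s) := by rw [← h, sh_mk]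

end DICT

open DICT in
theorem st_DICT : St_DICT := by
  intro G _ C _ _
  refine ⟨fun n => tv (C.L n), fun n c => ?_, fun n ψ h => ⟨fun g σ => ?_, ?_⟩,
    fun n y => ⟨fun σ => MonoidAlgebra.single σ.1 1 * cj (y σ.2), fun g σ => ?_, ?_⟩,
    fun n ψ ψ' h h' e => ?_, fun k l F Bk F' w B' c hF hB ψ => ?_⟩
  · induction c using Finsupp.induction_linear with
    | zero => simp [kbd]
    | add x y hx hy => rw [kbd_eq, map_add, map_add, map_add, add_vecMul, ← hx, ← hy, kbd_eq, kbd_eq]
    | single σ a =>
      obtain ⟨g, s⟩ := σ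
      rw [kbd_eq, kbdL_single, map_sum, tv_single, single_vecMul]
      funext t
      simp only [map_zsmul, CD.f, tv_single, Finset.sum_apply, Pi.smul_apply, CD.B, row,
        Matrix.of_apply, smul_eq_mul, Finset.mul_sum, mul_smul_comm, Pi.single_apply, mul_ite,
        mul_zero, MonoidAlgebra.single_mul_single, mul_one, eq_comm]
  · simp only [CD.kcobd, CD.f_sh, h g, Finset.mul_sum, mul_smul_comm]
  · funext s
    change cj (∑ i : Fin (n + 2), (-1 : ℤ) ^ (i : ℕ) • ψ (C.f i (1, s))) =
      ∑ t, cj (ψ (1, t)) * cj (∑ i : Fin (n + 2), (-1 : ℤ) ^ (i : ℕ) •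
        if C.d i s = t then MonoidAlgebra.single (C.a i s) 1 else 0)
    simp only [map_sum, map_zsmul, Finset.mul_sum, mul_smul_comm, apply_ite cj, cj_single, map_zero,
      mul_ite, mul_zero]
    rw [Finset.sum_comm]
    refine Finset.sum_congr rfl fun i _ => ?_
    rw [← Finset.smul_sum, Finset.sum_ite_eq, if_pos (Finset.mem_univ _), CD.f, coch h, cj_mul,
      one_mul]
  · simp only [sh, ← mul_assoc, MonoidAlgebra.single_mul_single, mul_one]
  · funext s
    change cj (MonoidAlgebra.single 1 1 * cj (y s)) = y s
    rw [← MonoidAlgebra.one_def, one_mul, cj_cj]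
  · funext ⟨g, s⟩
    have e' : cj (ψ (1, s)) = cj (ψ' (1, s)) := congrFun e s
    rw [coch h, coch h', ← cj_cj (ψ (1, s)), e', cj_cj]
  · rw [kcap, ← Finsupp.sum_finsetSum_index (by simp)
      (fun _ _ _ => by simp only [add_mul, Finsupp.single_add, Finsupp.sum_add]), map_sum,
      vecMul_sum]
    refine Finset.sum_congr rfl fun s _ => ?_
    rw [Finsupp.sum_single_index (by simp), hF, hB, tv_cap]
    funext t
    simp [vecMul, dotProduct, Matrix.single, Pi.single_apply, yv, cj, ite_and, eq_comm]

end Pool.Agent.Lib.LT
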