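import Pool.Agent.Lib.LT.Kit

/-! Excision for attachments of cells. -/

namespace Pool.Agent.Lib.LT

open Set Topology Pool.Agent.Lib.MP_77749b_gt

namespace EXC

variable {E : Type} [TopologicalSpace E] {n k : ℕ} {A B : Set E} {J : Type} {Φ : J → Simplex E n}

theorem rel_sum {S : Finset J} {g : J → Ch ℤ E (k + 1)} (h : ∀ j, RelB A B (g j)) :
    RelB A B (∑ j ∈ S, g j) :=
  Finset.sum_induction _ _ (fun _ _ => RelB.add) (RelB.of_mem (zero_mem _)) fun j _ => h j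

theorem rel_SD (N : ℕ) {c : Ch ℤ E (k + 1)} (h : c ∈ In ℤ B (k + 1)) (h' : bd k c ∈ In ℤ A k) :
    RelB A B (c - SD N (k + 1) c) := by
  refine ⟨-TD N (k + 1) c, neg_mem (TD_In N h), ?_⟩
  rw [map_neg, bd_TD, show ∀ a b t : Ch ℤ E (k + 1), a - b - -(b - a - t) = -t from
    fun _ _ _ => by abel]
  exact neg_mem (TD_In N h')

theorem cut [T2Space E] (h : CA n A B Φ) {c : Ch ℤ E (k + 1)} (hc : c ∈ In ℤ B (k + 1)) :
    ∀ᶠ N in Filter.atTop, ∃ c1 ∈ In ℤ (B \ Ctr Φ) (k + 1), ∃ c2 ∈ In ℤ (B \ A) (k + 1),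
      SD N (k + 1) c = c1 + c2 := by
  filter_upwards [eventually_SD c (fun b : Bool => (cond b (Ctr Φ) A)ᶜ)
    (fun b => by cases b; exacts [h.closed.isOpen_compl, h.isClosed_Ctr.isOpen_compl])
    (In_mono (fun x _ => by
      by_cases e : x ∈ A
      exacts [mem_iUnion.2 ⟨true, h.not_mem_Ctr e⟩, mem_iUnion.2 ⟨false, e⟩]) _ (In_univ c))]
    with N hN
  obtain ⟨c1, c2, e, h1, h2, h3⟩ := exists_split (SD N (k + 1) c) (· ⊆ (Ctr Φ)ᶜ)
  refine ⟨c1, In_inter (h3 _ (SD_In N hc)).1 h1, c2, In_inter (h3 _ (SD_In N hc)).2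
    (CS_mono ?_ _ (CS_and h2 (h3 _ hN).2)), e⟩
  rintro S ⟨a, _ | _, b⟩
  exacts [b, (a b).elim]

theorem bdy_sub : Bdy (n + 1) ⊆ {ctr n}ᶜ := fun _ a b => a (b ▸ inn_ctr n)

theorem to_A (h : CA n A B Φ) (j : J) : MapsTo (Φ j) (Bdy (n + 1)) A := fun t => (h.bdy j t).2

theorem to_U (h : CA n A B Φ) (j : J) : MapsTo (Φ j) {ctr n}ᶜ (B \ Ctr Φ) :=
  fun t a => ⟨h.mem j t, fun b => a (h.mem_Ctr.1 b)⟩

theorem sum_bd (f : J →₀ Ch ℤ (Dl (n + 1)) (k + 1)) :
    ((f.mapRange (bd k) (map_zero _)).sum fun j x => push (Φ j) k x) =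
      bd k (f.sum fun j x => push (Φ j) (k + 1) x) := by
  rw [Finsupp.sum_mapRange_index fun _ => map_zero _, map_finsuppSum]
  simp only [bd_push]

theorem main (hRHO : St_RHO) (hRETR : St_RETR) (hH : St_HINV) (hS : St_SPLIT) [T2Space E]
    (h : CA n A B Φ) {c : Ch ℤ E (k + 1)} (hc : c ∈ In ℤ B (k + 1)) (hb : bd k c ∈ In ℤ A k) :
    ∃ (S : Finset J) (z : J → Ch ℤ (Dl (n + 1)) (k + 1)), (∀ j, bd k (z j) ∈ In ℤ (Bdy _) k) ∧
      RelB A B (c - ∑ j ∈ S, push (Φ j) (k + 1) (z j)) := by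
  obtain ⟨N, c1, h1, c2, h2, e⟩ := (cut h hc).exists
  obtain ⟨f, f1, rfl⟩ := (hS n E A B J Φ h).1 k c2 h2
  obtain ⟨ρ, hρ⟩ := hRHO n
  obtain ⟨H, hH', -⟩ := hRETR n E A B J Φ h
  have hA : bd k (SD N (k + 1) c) ∈ In ℤ A k := bd_SD N k c ▸ SD_In N hb
  have f2 := (hS n E A B J Φ h).2 k (f.mapRange (bd k) (map_zero _)) (fun j => bd_In (f1 j)) (by
    rw [sum_bd, ← sub_eq_iff_eq_add'.2 e, map_sub]
    exact sub_mem (In_mono (fun _ => h.not_mem_Ctr) _ hA)
      (In_mono (fun _ a => a.2) _ (bd_In h1)))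
  have : ∀ j, ∃ d ∈ In ℤ {ctr n}ᶜ (k + 1), bd k (f j - d) ∈ In ℤ (Bdy _) k := fun j => by
    cases k with
    | zero => exact ⟨0, zero_mem _, In_zero _ _⟩
    | succ k =>
      rw [funext fun d => map_sub (bd (k + 1)) (f j) d |> congrArg fun x => _ ∧ x ∈ _]
      exact hH _ _ _ ρ bdy_sub hρ k _ (f2 j) (by rw [bd_bd]; exact zero_mem _)
  choose d d1 d2 using this
  refine ⟨f.support, fun j => f j - d j, d2, ?_⟩
  have e' : c1 + ∑ j ∈ f.support, push (Φ j) (k + 1) (d j) =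
      SD N (k + 1) c - ∑ j ∈ f.support, push (Φ j) (k + 1) (f j - d j) := by
    simp only [e, map_sub, Finset.sum_sub_distrib, Finsupp.sum]
    abel
  have := (rel_SD N hc hb).add ((hH _ _ _ H (subset_sdiff.2 ⟨h.sub,
    disjoint_left.2 fun _ => h.not_mem_Ctr⟩) hH' k _
    (add_mem h1 (sum_mem fun j _ => push_In _ (to_U h j) (d1 j))) (by
      rw [e', map_sub, map_sum]
      exact sub_mem hA (sum_mem fun j _ => by
        rw [bd_push]; exact push_In _ (to_A h j) (d2 j)))).mono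
      subset_rfl sdiff_subset)
  rwa [e', sub_add_sub_cancel] at this

/-- the identity simplex -/
noncomputable def io (n : ℕ) : Ch ℤ (Dl (n + 1)) (n + 1) := Finsupp.single (ContinuousMap.id _) 1

theorem bd_io : bd n (io n) ∈ In ℤ (Bdy _) n := by
  cases n with
  | zero => exact In_zero _ _
  | succ n =>
    rw [io, bd_single]
    exact sum_mem fun i _ => Submodule.smul_mem _ _ (single_CS (by
      rintro _ ⟨p, rfl⟩
      exact not_inn_face i p) _)

theorem unit_eq (a : Unit →₀ ℤ) : (a.mapDomain fun _ =>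
    (ContinuousMap.id (Dl (n + 1)) : Simplex (Dl (n + 1)) n)) = a () • io n := by
  rw [Finsupp.unique_single a, Finsupp.mapDomain_single, io, Finsupp.smul_single_one,
    Finsupp.single_eq_same]

theorem dom_eq (a : J →₀ ℤ) :
    a.mapDomain Φ = ∑ j ∈ a.support, a j • push (Φ j) (n + 1) (io n) := by
  simp only [io, push_single, Finsupp.smul_single_one]
  rfl

theorem inj (hRHO : St_RHO) (hH : St_HINV) (hS : St_SPLIT) [T2Space E] (hM : MODEL n)
    (h : CA n A B Φ) (a : J →₀ ℤ) (ha : RelB A B (k := n) (a.mapDomain Φ)) : a = 0 := by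
  obtain ⟨d, hd, hA⟩ := ha
  obtain ⟨N, ⟨c1, h1, c2, h2, e⟩, s1, t1, s2, t2, e'⟩ :=
    ((cut h hd).and (cut (ca_model n) (In_univ (io n)))).exists
  obtain ⟨f, f1, rfl⟩ := (hS n E A B J Φ h).1 _ c2 h2
  obtain ⟨ρ, hρ⟩ := hRHO n
  replace t1 : s1 ∈ In ℤ {ctr n}ᶜ (n + 1) := In_mono (fun _ a b => a.2 ⟨(), b.symm⟩) _ t1
  replace t2 : s2 ∈ In ℤ {t | Inn t} (n + 1) := In_mono (fun _ a => not_not.1 a.2) _ t2
  have f2 := (hS n E A B J Φ h).2 _ (a.mapRange (· • s2) (zero_smul _ _) -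
    f.mapRange (bd (n + 1)) (map_zero _))
    (fun j => sub_mem (Submodule.smul_mem _ _ t2) (bd_In (f1 j))) (by
      have := SD_In N hA
      rw [map_sub, ← bd_SD, e, dom_eq, map_sum, map_add] at this
      simp only [map_smul, SD_push, e', map_add, smul_add, Finset.sum_add_distrib] at this
      rw [Finsupp.sum_sub_index fun _ => map_sub _, sum_bd,
        Finsupp.sum_mapRange_index fun _ => map_zero _, Finsupp.sum]
      simp only [map_smul]
      have k := add_mem (sub_mem (In_mono (fun _ => h.not_mem_Ctr) _ this)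
        (sum_mem (t := a.support) fun j _ => Submodule.smul_mem _ (a j)
          (In_mono (fun _ a => a.2) _ (push_In _ (to_U h j) t1))))
        (In_mono (fun _ a => a.2) _ (bd_In h1))
      rwa [show ∀ p q r s : Ch ℤ E (n + 1), p + q - (r + s) - p + r = q - s from
        fun _ _ _ _ => by abel] at k)
  ext j
  have k1 := (hH _ _ _ ρ bdy_sub hρ n (a j • SD N _ (io n) - bd (n + 1) (f j)) (by
    rw [e', smul_add, add_sub_assoc]
    exact add_mem (Submodule.smul_mem _ _ t1) (f2 j)) (by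
    rw [map_sub, bd_bd, sub_zero, map_smul, bd_SD]
    exact Submodule.smul_mem _ _ (SD_In N bd_io))).mono subset_rfl (subset_univ _)
  have k2 := (((rel_SD N (In_univ _) bd_io).smul (a j)).add k1).add (RelB.of_bd (In_univ (f j)))
  rw [smul_sub, sub_add_sub_cancel, sub_add_cancel] at k2
  exact Finsupp.single_eq_zero.1 (hM.inj (Finsupp.single () (a j))
    (by rwa [unit_eq, Finsupp.single_eq_same]))

end EXC

open EXC

theorem st_EXC (hRHO : St_RHO) (hRETR : St_RETR) (hHINV : St_HINV) (hSPLIT : St_SPLIT) :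
    St_EXC := by
  intro n hM E _ _ A B J Φ h
  refine ⟨fun k hk c hc hb => ?_, fun c hc hb => ?_, inj hRHO hHINV hSPLIT hM h⟩
  · obtain ⟨S, z, z1, z2⟩ := main hRHO hRETR hHINV hSPLIT h hc hb
    have := z2.add (rel_sum (S := S) fun j =>
      (hM.ne k hk _ (In_univ _) (z1 j)).push _ (to_A h j) fun t _ => h.mem j t)
    rwa [sub_add_cancel] at this
  · obtain ⟨S, z, z1, z2⟩ := main hRHO hRETR hHINV hSPLIT h hc hb
    choose a ha using fun j => hM.surj _ (In_univ _) (z1 j)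
    have := z2.add (rel_sum (S := S) fun j => (ha j).push _ (to_A h j) fun t _ => h.mem j t)
    refine ⟨∑ j ∈ S, Finsupp.single j (a j ()), ?_⟩
    simp only [unit_eq, map_sub, Finset.sum_sub_distrib, sub_add_sub_cancel, io, push,
      md_single, Finsupp.smul_single_one] at this
    simp only [Finsupp.mapDomain_finsetSum, Finsupp.mapDomain_single]
    exact this

end Pool.Agent.Lib.LT
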