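import Pool.Agent.Lib.LT.Kit

namespace Pool.Agent.Lib.LT

open Set Topology Finsupp Pool.Agent.Lib.MP_77749b_gt

namespace HINV

variable {α β : Type}

/-- the prism operator on tuples -/
noncomputable def tp : ∀ k, Tp ℤ α k →ₗ[ℤ] Tp ℤ (α × Bool) (k + 1)
  | 0 => 0
  | k + 1 => lx fun v => tc (v 0, false) (k + 1) (tm (·, true) (k + 1) (single v 1) -
      tm (·, false) (k + 1) (single v 1) - tp k (tb k (single v 1)))

theorem rlz : True := by have := @tp.eq_def; trivial

theorem tp_single {k : ℕ} (v : Fin (k + 1) → α) : tp (k + 1) (single v 1) =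
    tc (v 0, false) (k + 1) (tm (·, true) (k + 1) (single v 1) -
      tm (·, false) (k + 1) (single v 1) - tp k (tb k (single v 1))) := by
  rw [tp, lx_single]

theorem tm_zero (f g : α → β) (c : Tp ℤ α 0) : tm f 0 c = tm g 0 c := by
  refine lin_ext _ _ (fun v => ?_) c
  rw [tm_single, tm_single, Subsingleton.elim (f ∘ v) (g ∘ v)]

theorem tb_tp : ∀ (k : ℕ) (c : Tp ℤ α (k + 1)), tb (k + 1) (tp (k + 1) c) =
    tm (·, true) (k + 1) c - tm (·, false) (k + 1) c - tp k (tb k c)
  | 0, c => by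
    refine lin_ext ((tb 1).comp (tp 1))
      (tm (·, true) 1 - tm (·, false) 1 - (tp 0).comp (tb 0)) (fun v => ?_) c
    simp only [LinearMap.comp_apply, LinearMap.sub_apply]
    rw [tp_single, tb_tc]
    simp only [map_sub]
    rw [← tm_tb, ← tm_tb, tm_zero (·, true) (·, false)]
    simp [tp]
  | k + 1, c => by
    refine lin_ext ((tb (k + 2)).comp (tp (k + 2)))
      (tm (·, true) (k + 2) - tm (·, false) (k + 2) - (tp (k + 1)).comp (tb (k + 1)))
      (fun v => ?_) c
    simp only [LinearMap.comp_apply, LinearMap.sub_apply]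
    rw [tp_single, tb_tc]
    simp only [map_sub]
    rw [← tm_tb, ← tm_tb, tb_tp k, tb_tb]
    simp

theorem tm_tp (f : α → β) : ∀ (k : ℕ) (c : Tp ℤ α k),
    tm (Prod.map f id) (k + 1) (tp k c) = tp k (tm f k c)
  | 0, c => by simp [tp]
  | k + 1, c => by
    refine lin_ext ((tm (Prod.map f id) (k + 2)).comp (tp (k + 1)))
      ((tp (k + 1)).comp (tm f (k + 1))) (fun v => ?_) c
    simp only [LinearMap.comp_apply]
    rw [tp_single, tm_single f, tp_single, tm_tc]
    simp only [map_sub]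
    rw [tm_tp f k, tm_tb, tm_single f]
    simp only [tm_single]
    rfl

/-- the height coordinate -/
noncomputable def ht {j : ℕ} (w : Fin j → Bool) (p : Dl j) : unitInterval :=
  ⟨stdSimplex.map w p true, stdSimplex.zero_le _ _, stdSimplex.le_one _ _⟩

theorem ht_cont {j : ℕ} (w : Fin j → Bool) : Continuous (ht w) :=
  (((continuous_apply true).comp continuous_subtype_val).comp
    (stdSimplex.continuous_map w)).subtype_mk _

theorem ht_map {i j : ℕ} (w : Fin j → Bool) (g : Fin i → Fin j) (p : Dl i) :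
    ht w (stdSimplex.map g p) = ht (w ∘ g) p := by
  simp only [ht, stdSimplex.map_comp_apply]

theorem ht_true {j : ℕ} (p : Dl j) : ht (fun _ => true) p = 1 := Subtype.ext (by
  simp [ht, stdSimplex.map_coe, FunOnFinite.linearMap_apply_apply])

theorem ht_false {j : ℕ} (p : Dl j) : ht (fun _ => false) p = 0 := Subtype.ext (by
  simp [ht, stdSimplex.map_coe, FunOnFinite.linearMap_apply_apply])

variable {E : Type} [TopologicalSpace E] {A U : Set E} {H : E → unitInterval → E}
  (hD : Def A U H)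

open Classical in
/-- realisation of a tuple of vertices of the prism -/
noncomputable def rl {j m : ℕ} (σ : Sx E m) (v : Fin j → Fin m × Bool) : Sx E j :=
  if h : range σ ⊆ U then
    ⟨fun p => H (res (Prod.fst ∘ v) σ p) (ht (Prod.snd ∘ v) p),
      hD.cont.comp_continuous ((res (Prod.fst ∘ v) σ).continuous.prodMk (ht_cont _))
        fun _ => ⟨h ⟨_, rfl⟩, trivial⟩⟩
  else res (Prod.fst ∘ v) σ

theorem rl_apply {j m : ℕ} {σ : Sx E m} (h : range σ ⊆ U) (v : Fin j → Fin m × Bool) (p : Dl j) :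
    rl hD σ v p = H (σ (stdSimplex.map (Prod.fst ∘ v) p)) (ht (Prod.snd ∘ v) p) := by
  rw [rl, dif_pos h]
  rfl

/-- the prism operator on chains -/
noncomputable def PR (k : ℕ) : Ch ℤ E k →ₗ[ℤ] Ch ℤ E (k + 1) :=
  lx fun σ => md (rl hD σ) (tp k (single id 1))

theorem bd_PR {k : ℕ} {c : Ch ℤ E (k + 1)} (hc : c ∈ In ℤ U (k + 1)) :
    bd (k + 1) (PR hD (k + 1) c) =
      md (fun σ => rl hD σ fun i => (i, true)) c - c - PR hD k (bd k c) := by
  refine CS_eq ((bd (k + 1)).comp (PR hD (k + 1))) (md (fun σ => rl hD σ fun i => (i, true)) -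
    LinearMap.id - (PR hD k).comp (bd k)) (fun σ hσ => ?_) hc
  have h0 : rl hD σ (fun i => (i, false)) = σ := by
    ext p
    rw [rl_apply hD hσ]
    exact (congrArg _ (ht_false p)).trans
      ((hD.zero _ (hσ ⟨_, rfl⟩)).trans (congrArg σ (stdSimplex.map_id_apply p)))
  simp only [LinearMap.comp_apply, LinearMap.sub_apply, LinearMap.id_apply, bd_single, map_sum,
    map_smul, PR, lx_single]
  rw [bd_md (P := univ) (rl hD σ) (rl hD σ) (fun v _ i => by
    ext p
    rw [res_apply, rl_apply hD hσ, rl_apply hD hσ, ht_map, stdSimplex.map_comp_apply]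
    rfl) (by simp), tb_tp, tb_single]
  simp only [map_sub, map_sum, map_smul, tm_single, md_single, Function.comp_id, h0]
  congr 1
  refine Finset.sum_congr rfl fun i _ => ?_
  have e : single (id ∘ i.succAbove) (1 : ℤ) = tm i.succAbove k (single id 1) := by
    rw [tm_single]
    rfl
  rw [e, ← tm_tp, tm, md_md]
  congr 3
  funext v
  ext p
  rw [Function.comp_apply, rl_apply hD hσ, rl_apply hD ((range_res _ _).trans hσ), res_apply,
    stdSimplex.map_comp_apply]
  rfl

theorem PR_In {B : Set E} (hB : B ⊆ U) (h : ∀ x ∈ B, ∀ s, H x s ∈ B) {k : ℕ} {c : Ch ℤ E k}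
    (hc : c ∈ In ℤ B k) : PR hD k c ∈ In ℤ B (k + 1) :=
  CS_lin _ _ (fun σ hσ => by
    rw [PR, lx_single]
    refine md_mem (P := univ) (Q := {τ : Sx E (k + 1) | range τ ⊆ B}) _ (fun v _ => ?_) (by simp)
    rintro _ ⟨p, rfl⟩
    rw [rl_apply hD (hσ.trans hB)]
    exact h _ (hσ ⟨_, rfl⟩) _) hc

end HINV

open HINV in
theorem st_HINV : St_HINV := by
  intro E _ A U H hAU hD k c hc hb
  refine ⟨-PR hD (k + 1) c, neg_mem (PR_In hD subset_rfl hD.mem hc), ?_⟩
  rw [map_neg, bd_PR hD hc, sub_neg_eq_add, sub_right_comm, add_sub_cancel]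
  refine sub_mem ?_ (PR_In hD hAU (fun x hx s => by rwa [hD.fix x hx]) hb)
  refine md_mem (P := {σ : Sx E (k + 1) | range σ ⊆ U})
    (Q := {τ : Sx E (k + 1) | range τ ⊆ A}) _ (fun σ hσ => ?_) hc
  rintro _ ⟨p, rfl⟩
  rw [rl_apply hD hσ, show ht (Prod.snd ∘ fun i : Fin (k + 1) => (i, true)) p = 1 from ht_true p]
  exact hD.one _ (hσ ⟨_, rfl⟩)

end Pool.Agent.Lib.LT
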