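import Pool.Agent.Lib.LT.Kit

/-! From path classes at the vertices to path classes at all points. -/

namespace Pool.Agent.Lib.LT

open Set Topology Pool.Agent.Lib.MP_77749b_gt

namespace KP

variable {E : Type} [TopologicalSpace E] {x₀ : E}

/-- `w'` is `w` followed by the image of a path from `a` to `b` -/
def Lk {Y : Type} [TopologicalSpace Y] (f : C(Y, E)) (a b : Y) (w w' : Σ x, PQ x₀ x) : Prop :=
  ∃ (q : PQ x₀ (f a)) (δ : Path a b),
    w = ⟨f a, q⟩ ∧ w' = ⟨f b, q.trans (.mk (δ.map f.continuous))⟩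

theorem Lk.uniq {k : ℕ} {f : C(Dl (k + 1), E)} {a b : Dl (k + 1)} {w w₁ w₂ : Σ x, PQ x₀ x}
    (h₁ : Lk f a b w w₁) (h₂ : Lk f a b w w₂) : w₁ = w₂ := by
  obtain ⟨q, δ, rfl, rfl⟩ := h₁
  obtain ⟨q', δ', e, rfl⟩ := h₂
  have := sc_Dl k
  rw [sigma_mk_injective e, Path.Homotopic.Quotient.eq.2
    ((SimplyConnectedSpace.paths_homotopic δ δ').map f)]

theorem Lk.trans {Y : Type} [TopologicalSpace Y] {f : C(Y, E)} {a b c : Y}
    {w w₁ w₂ : Σ x, PQ x₀ x} (h₁ : Lk f a b w w₁) (h₂ : Lk f b c w₁ w₂) : Lk f a c w w₂ := by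
  obtain ⟨q, δ, rfl, rfl⟩ := h₁
  obtain ⟨q', δ', e, rfl⟩ := h₂
  refine ⟨q, δ.trans δ', rfl, ?_⟩
  rw [← sigma_mk_injective e, Path.map_trans, Path.Homotopic.Quotient.mk_trans,
    Path.Homotopic.Quotient.trans_assoc]

theorem Lk.face (D : DS E) {n : ℕ} (k : Fin (n + 2)) (σ : D.K (n + 1)) {a b : Dl (n + 1)}
    {w w' : Σ x, PQ x₀ x} (h : Lk (D.Φ (D.d k σ)) a b w w') :
    Lk (D.Φ σ) (stdSimplex.map k.succAbove a) (stdSimplex.map k.succAbove b) w w' := by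
  rw [D.Φ_d] at h
  obtain ⟨q, δ, rfl, rfl⟩ := h
  exact ⟨q, δ.map (stdSimplex.continuous_map _), rfl, rfl⟩

theorem face_vertex (D : DS E) {n : ℕ} (k : Fin (n + 2)) (σ : D.K (n + 1)) (j : Fin (n + 1)) :
    D.Φ (D.d k σ) (stdSimplex.vertex j) = D.Φ σ (stdSimplex.vertex (k.succAbove j)) := by
  rw [D.Φ_d, pull_apply, stdSimplex.map_vertex]

theorem vertex_mem (D : DS E) : ∀ {n : ℕ} (σ : D.K n) (i : Fin (n + 1)),
    D.Φ σ (stdSimplex.vertex i) ∈ D.Sk 1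
  | 0, σ, _ => D.mem_Sk one_pos σ _
  | n + 1, σ, i => by
    obtain ⟨k, hk⟩ := exists_ne i
    obtain ⟨j, rfl⟩ := Fin.exists_succAbove_eq hk.symm
    rw [← face_vertex]
    exact vertex_mem D _ j

end KP

open KP

theorem st_KP : St_KP := by
  intro E _ D x₀ ⟨c₁, hc₁⟩
  let V : ∀ {n : ℕ}, D.K n → Fin (n + 1) → Σ x, PQ x₀ x := fun σ i =>
    ⟨D.Φ σ (stdSimplex.vertex i), c₁ _ (vertex_mem D σ i)⟩
  have hV : ∀ {n : ℕ} (k : Fin (n + 2)) (σ : D.K (n + 1)) (j : Fin (n + 1)),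
      V (D.d k σ) j = V σ (k.succAbove j) := fun k σ j => by
    have g : ∀ x y (hx : x ∈ D.Sk 1) (hy : y ∈ D.Sk 1), x = y →
        (⟨x, c₁ x hx⟩ : Σ x, PQ x₀ x) = ⟨y, c₁ y hy⟩ := by
      rintro x y hx hy rfl
      rfl
    exact g _ _ _ _ (face_vertex D k σ j)
  have pth : ∀ {k : ℕ} (a b : Dl (k + 1)), Nonempty (Path a b) := fun {k} a b =>
    have := sc_Dl k
    ⟨PathConnectedSpace.somePath a b⟩
  have edge : ∀ (n : ℕ) (σ : D.K (n + 1)),
      Lk (D.Φ σ) (stdSimplex.vertex 0) (stdSimplex.vertex 1) (V σ 0) (V σ 1) := by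
    intro n
    induction n with
    | zero =>
      intro σ
      obtain ⟨δ⟩ := pth (k := 1) (stdSimplex.vertex 0) (stdSimplex.vertex 1)
      exact ⟨_, δ, rfl, by rw [hc₁ σ δ _ (vertex_mem D σ 1)]⟩
    | succ n ih =>
      intro σ
      have h := (ih (D.d (Fin.last _) σ)).face D
      rwa [hV, hV, stdSimplex.map_vertex, stdSimplex.map_vertex, Fin.succAbove_last,
        Fin.castSucc_zero, Fin.castSucc_one] at h
  have ex : ∀ x, ∃ q : PQ x₀ x, ∃ (n : ℕ) (σ : D.K n) (t : Dl (n + 1)), Inn t ∧ D.Φ σ t = x ∧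
      Lk (D.Φ σ) (stdSimplex.vertex 0) t (V σ 0) ⟨x, q⟩ := fun x => by
    obtain ⟨n, σ, t, ht, rfl⟩ := D.cover x
    obtain ⟨δ⟩ := pth (stdSimplex.vertex 0) t
    exact ⟨_, n, σ, t, ht, rfl, _, δ, rfl, rfl⟩
  choose c hc using ex
  have inn : ∀ (n : ℕ) (σ : D.K n) (t : Dl (n + 1)), Inn t →
      Lk (D.Φ σ) (stdSimplex.vertex 0) t (V σ 0) ⟨_, c (D.Φ σ t)⟩ := fun n σ t ht => by
    obtain ⟨m, τ, s, hs, e, h⟩ := hc (D.Φ σ t)
    obtain rfl := D.dim_eq τ σ s t hs ht e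
    obtain ⟨rfl, rfl⟩ := D.uniq τ σ s t hs ht e
    exact h
  have all : ∀ (n : ℕ) (σ : D.K n) (t : Dl (n + 1)),
      Lk (D.Φ σ) (stdSimplex.vertex 0) t (V σ 0) ⟨_, c (D.Φ σ t)⟩ := by
    intro n
    induction n with
    | zero => exact fun σ t => inn 0 σ t (inn_zero t)
    | succ n ih =>
      intro σ t
      by_cases ht : Inn t
      · exact inn _ σ t ht
      obtain ⟨k, s, rfl⟩ := exists_face ht
      have h := (ih (D.d k σ) s).face D
      have e : D.Φ (D.d k σ) s = D.Φ σ (stdSimplex.map k.succAbove s) := by rw [D.Φ_d]; rfl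
      rw [hV, stdSimplex.map_vertex, e] at h
      rcases eq_or_ne k 0 with rfl | hk
      · exact (edge n σ).trans h
      · rwa [Fin.succAbove_ne_zero_zero hk] at h
  exact ⟨c, fun n σ t t' δ => sigma_mk_injective (β := fun x => PQ x₀ x)
    (((all n σ t).trans ⟨_, δ, rfl, rfl⟩).uniq (all n σ t'))⟩

end Pool.Agent.Lib.LT
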