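import Pool.Agent.Lib.LT.Kit

/-! A map from a connected space into the open cells lifts to one cell. -/

namespace Pool.Agent.Lib.LT

open Set Topology Pool.Agent.Lib.MP_77749b_gt

theorem st_LIFT : St_LIFT := by
  intro n E _ _ A B J Φ h Y _ _ f hf
  have hc : ∀ y, ∃ j t, Inn t ∧ Φ j t = f y := fun y =>
    (h.cases (hf (mem_range_self y)).1).resolve_left (hf (mem_range_self y)).2
  choose j t ht e using hc
  have hcl : ∀ i, IsClosed (f ⁻¹' range (Φ i)) := fun i =>
    (isCompact_range (Φ i).continuous).isClosed.preimage f.continuous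
  have hm : ∀ y i, f y ∈ range (Φ i) ↔ j y = i := fun y i =>
    ⟨fun ⟨s, hs⟩ => (h.inj' (ht y) ((e y).trans hs.symm)).1, fun hi => hi ▸ ⟨t y, e y⟩⟩
  obtain ⟨y0⟩ : Nonempty Y := inferInstance
  have hco : (f ⁻¹' range (Φ (j y0)))ᶜ =
      ⋃ i : {i // i ≠ j y0}, f ⁻¹' range (Φ i.1) := by
    ext y
    simp only [mem_compl_iff, mem_preimage, mem_iUnion, hm]
    exact ⟨fun hy => ⟨⟨j y, hy⟩, rfl⟩, fun ⟨i, hi⟩ hy => i.2 (hi.symm.trans hy)⟩
  have hop : IsOpen (f ⁻¹' range (Φ (j y0))) := by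
    rw [← isClosed_compl_iff, hco]
    exact ((h.lf.preimage_continuous f.continuous).comp_injective
      Subtype.val_injective).isClosed_iUnion fun i => hcl i.1
  have hall : ∀ y, j y = j y0 := fun y => by
    have := IsClopen.eq_univ ⟨hcl (j y0), hop⟩ ⟨y0, (hm y0 _).2 rfl⟩
    exact (hm y _).1 (this ▸ mem_univ y : y ∈ f ⁻¹' range (Φ (j y0)))
  have he : ∀ y, f y = Φ (j y0) (t y) := fun y => hall y ▸ (e y).symm
  have hg : Continuous fun y => (⟨t y, ht y⟩ : {s : Dl (n + 1) | Inn s}) :=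
    (h.emb (j y0)).continuous_iff.2 (f.continuous.congr he)
  exact ⟨j y0, ⟨t, continuous_subtype_val.comp hg⟩, ht, he⟩

end Pool.Agent.Lib.LT
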