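import Pool.Agent.Lib.LT.Kit

/-! A chain homotopy equivalence of matrix complexes is bijective on homology. -/

namespace Pool.Agent.Lib.LT

open Matrix Pool.Agent.PD3

namespace T45

variable {R : Type} [Ring R]

theorem key {a b : Type} [Fintype a] [Fintype b] [DecidableEq a] (F : Matrix a b R)
    (G : Matrix b a R) (M : Matrix a a R) (h : F * G - 1 = M) (x : a → R) :
    x ᵥ* F ᵥ* G - x = x ᵥ* M := by
  rw [← h, vecMul_sub, vecMul_one, vecMul_vecMul]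

theorem comm {a b c d : Type} [Fintype a] [Fintype b] [Fintype c] {A : Matrix a b R}
    {F : Matrix b d R} {F' : Matrix a c R} {B : Matrix c d R} (h : A * F = F' * B) (x : a → R) :
    x ᵥ* A ᵥ* F = x ᵥ* F' ᵥ* B := by
  rw [vecMul_vecMul, vecMul_vecMul, h]

theorem mid {a0 a1 a2 b0 b1 b2 : Type} [Fintype a0] [Fintype a1] [Fintype a2] [Fintype b0]
    [Fintype b1] [Fintype b2] [DecidableEq a1] [DecidableEq b1]
    {A : Matrix a1 a0 R} {A' : Matrix a2 a1 R} {B : Matrix b1 b0 R} {B' : Matrix b2 b1 R}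
    {F0 : Matrix a0 b0 R} {F1 : Matrix a1 b1 R} {F2 : Matrix a2 b2 R}
    {G0 : Matrix b0 a0 R} {G1 : Matrix b1 a1 R} {G2 : Matrix b2 a2 R}
    {H0 : Matrix a0 a1 R} {H1 : Matrix a1 a2 R} {K0 : Matrix b0 b1 R} {K1 : Matrix b1 b2 R}
    (f1 : A * F0 = F1 * B) (f2 : A' * F1 = F2 * B') (g1 : B * G0 = G1 * A)
    (g2 : B' * G1 = G2 * A') (hH : F1 * G1 - 1 = A * H0 + H1 * A')
    (hK : G1 * F1 - 1 = B * K0 + K1 * B') :
    (∀ x, x ᵥ* A = 0 → x ᵥ* F1 ᵥ* B = 0 ∧ ((∃ u, u ᵥ* B' = x ᵥ* F1) ↔ ∃ v, v ᵥ* A' = x)) ∧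
      ∀ c, c ᵥ* B = 0 → ∃ x, x ᵥ* A = 0 ∧ ∃ u, u ᵥ* B' = x ᵥ* F1 - c := by
  refine ⟨fun x hx => ⟨?_, ?_, ?_⟩, fun c hc => ⟨c ᵥ* G1, ?_, c ᵥ* K1, ?_⟩⟩
  · rw [← comm f1, hx, zero_vecMul]
  · rintro ⟨u, hu⟩
    have h := key F1 G1 _ hH x
    rw [vecMul_add, ← vecMul_vecMul, ← vecMul_vecMul, hx, zero_vecMul, zero_add, ← hu,
      comm g2] at h
    refine ⟨u ᵥ* G2 - x ᵥ* H1, ?_⟩
    rw [sub_vecMul, ← h]
    abel
  · rintro ⟨v, rfl⟩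
    exact ⟨v ᵥ* F2, (comm f2 v).symm⟩
  · rw [← comm g1, hc, zero_vecMul]
  · have h := key G1 F1 _ hK c
    rw [vecMul_add, ← vecMul_vecMul, ← vecMul_vecMul, hc, zero_vecMul, zero_add] at h
    exact h.symm

end T45

open T45 in
theorem st_MAT : St_MAT := by
  intro R _ a0 a1 a2 a3 b0 b1 b2 b3 _ _ _ _ _ _ _ _ _ _ _ _ _ _ _ _ A1 A2 A3 B1 B2 B3 F0 F1 F2 F3
  rintro ⟨⟨f1, f2, f3⟩, G0, G1, G2, G3, ⟨g1, g2, g3⟩, ⟨H0, H1, H2, h0, h1, h2, h3⟩,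
    ⟨K0, K1, K2, k0, k1, k2, k3⟩⟩
  refine ⟨⟨fun x => ⟨?_, ?_⟩, fun c => ⟨c ᵥ* G0, c ᵥ* K0, ?_⟩⟩, mid f1 f2 g1 g2 h1 k1,
    mid f2 f3 g2 g3 h2 k2, fun x hx => ⟨?_, ?_, ?_⟩, fun c hc => ⟨c ᵥ* G3, ?_, ?_⟩⟩
  · rintro ⟨u, hu⟩
    have h := key F0 G0 _ h0 x
    rw [← vecMul_vecMul, ← hu, comm g1] at h
    refine ⟨u ᵥ* G1 - x ᵥ* H0, ?_⟩
    rw [sub_vecMul, ← h]
    abel
  · rintro ⟨v, rfl⟩
    exact ⟨v ᵥ* F1, (comm f1 v).symm⟩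
  · have h := key G0 F0 _ k0 c
    rw [← vecMul_vecMul] at h
    exact h.symm
  · rw [← comm f3, hx, zero_vecMul]
  · intro h0'
    have h := key F3 G3 _ h3 x
    rw [← vecMul_vecMul, hx, zero_vecMul, h0', zero_vecMul, zero_sub, neg_eq_zero] at h
    exact h
  · rintro rfl
    exact zero_vecMul _
  · rw [← comm g3, hc, zero_vecMul]
  · have h := key G3 F3 _ k3 c
    rw [← vecMul_vecMul, hc, zero_vecMul, sub_eq_zero] at h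
    exact h

end Pool.Agent.Lib.LT
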