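import Pool.Agent.Lib.LT.Kit

/-! The relative homology of the simplex modulo its boundary. -/

namespace Pool.Agent.Lib.LT

open Set Topology Pool.Agent.Lib.MP_77749b_gt

namespace MOD

variable {E : Type} [TopologicalSpace E]

/-- reduced acyclicity -/
def Acy (A : Set E) : Prop :=
  ∀ k, ∀ c ∈ In ℤ A (k + 1), bd k c = 0 → ∃ d ∈ In ℤ A (k + 2), bd (k + 1) d = c

theorem md_unit {S : Type} (a : Unit →₀ ℤ) (x : S) :
    a.mapDomain (fun _ => x) = a () • Finsupp.single x 1 := by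
  conv_lhs => rw [Finsupp.unique_single a]
  rw [Finsupp.mapDomain_single, Finsupp.smul_single, smul_eq_mul, mul_one]

theorem eq_single {S : Type} [Subsingleton S] (c : S →₀ ℤ) (x : S) :
    c = c x • Finsupp.single x 1 := by
  ext y
  rw [Subsingleton.elim y x]
  simp

theorem bd_zero (σ : Sx E 1) :
    bd 0 (Finsupp.single σ (1 : ℤ)) = Finsupp.single (res (0 : Fin 1).succAbove σ) 1 := by
  rw [bd_single]
  simp

theorem lift {L B : Set E} (hLB : L ⊆ B) (hL : Acy L) (hU : Acy (univ : Set E)) {k : ℕ}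
    {c : Ch ℤ E (k + 2)} (h : RelB L B (bd (k + 1) c)) : RelB B univ c := by
  obtain ⟨e, he, hl⟩ := h
  obtain ⟨μ, hμ, e1⟩ := hL k _ hl (by rw [map_sub, bd_bd, bd_bd, sub_zero])
  obtain ⟨d, hd, e2⟩ := hU (k + 1) (c - e - μ) (In_univ _) (by rw [map_sub, map_sub, e1, sub_self])
  refine ⟨d, hd, ?_⟩
  rw [e2, sub_sub c, sub_sub_cancel]
  exact add_mem he (In_mono hLB _ hμ)

theorem step {n : ℕ} {L B : Set E} (hLB : L ⊆ B) (hL : Acy L) (hU : Acy (univ : Set E)) {a : E}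
    (ha : a ∈ B) {δ : Simplex E n} {ι : Simplex E (n + 1)} (hR : Rel n L B fun _ : Unit => δ)
    (hι : bd (n + 1) (Finsupp.single ι (1 : ℤ)) - Finsupp.single δ 1 ∈ In ℤ L (n + 1)) :
    Rel (n + 1) B univ fun _ : Unit => ι where
  ne k hk c _ hc := by
    rcases k with _ | k
    · obtain ⟨d, hd, e⟩ := hU 0
        (c - (bd 0 c) (res (0 : Fin 1).succAbove (pt a)) • Finsupp.single (pt a) 1) (In_univ _)
        (by rw [map_sub, map_smul, bd_zero, ← eq_single, sub_self])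
      refine ⟨d, hd, ?_⟩
      rw [e, sub_sub_cancel]
      refine Submodule.smul_mem _ _ (single_CS ?_ _)
      rw [range_pt]
      exact singleton_subset_iff.2 ha
    · exact lift hLB hL hU (hR.ne k (by omega) _ hc (by rw [bd_bd]; exact zero_mem _))
  surj c _ hc := by
    obtain ⟨r, hr⟩ := hR.surj _ hc (by rw [bd_bd]; exact zero_mem _)
    refine ⟨r, lift hLB hL hU ?_⟩
    have := hr.add (RelB.of_mem (B := B) (Submodule.smul_mem _ (-r ()) hι))
    rw [md_unit] at this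
    rw [md_unit, map_sub, map_smul]
    refine (congrArg _ ?_).mp this
    rw [smul_sub, neg_smul, neg_smul]
    abel
  inj r := by
    rintro ⟨d, -, hd⟩
    refine hR.inj r ⟨_, hd, ?_⟩
    rw [map_sub, bd_bd, sub_zero, md_unit, md_unit, LinearMap.map_smul, ← smul_sub, ← neg_sub]
    exact Submodule.smul_mem _ _ (neg_mem hι)

theorem acy_univ (hS : St_STAR) (n : ℕ) : Acy (univ : Set (Dl (n + 1))) :=
  hS _ univ (ctr n) trivial fun _ _ _ _ _ _ _ => trivial

theorem model_zero (hS : St_STAR) : MODEL 0 := by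
  have hB : Bdy (0 + 1) = ∅ := eq_empty_of_forall_notMem fun t ht => ht (inn_zero t)
  have hs : Subsingleton (Sx (Dl 1) 1) := ⟨fun a b => ContinuousMap.ext fun _ =>
    Subsingleton.elim _ _⟩
  unfold MODEL
  rw [hB]
  refine ⟨fun k hk c _ hc => ?_, fun c _ _ => ?_, fun r => ?_⟩
  · obtain ⟨k, rfl⟩ := Nat.exists_eq_succ_of_ne_zero hk
    obtain ⟨d, hd, e⟩ := acy_univ hS 0 _ c (In_univ _) (In_empty hc)
    exact ⟨d, hd, by rw [e, sub_self]; exact zero_mem _⟩
  · refine ⟨Finsupp.single () (c (ContinuousMap.id _)), RelB.of_mem ?_⟩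
    rw [md_unit, Finsupp.single_eq_same, ← eq_single, sub_self]
    exact zero_mem _
  · rintro ⟨d, -, hd⟩
    have h := congrArg (bd 0) (In_empty hd)
    rw [map_sub, bd_bd, sub_zero, md_unit, LinearMap.map_smul, bd_zero, LinearMap.map_zero,
      Finsupp.smul_single, smul_eq_mul, mul_one, Finsupp.single_eq_zero] at h
    ext
    exact h

/-- the horn opposite to the face number zero -/
def Horn (n : ℕ) : Set (Dl (n + 2)) := {t | ∃ i, i ≠ 0 ∧ t i = 0}

theorem horn_sub (n : ℕ) : Horn n ⊆ Bdy (n + 2) := fun _ ⟨i, _, h⟩ => not_inn_iff.2 ⟨i, h⟩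

theorem vertex_mem (n : ℕ) : (stdSimplex.vertex 0 : Dl (n + 2)) ∈ Horn n :=
  ⟨1, by simp, by simp⟩

theorem acy_horn (hS : St_STAR) (n : ℕ) : Acy (Horn n) := by
  refine hS _ _ _ (vertex_mem n) ?_
  rintro x ⟨i, hi, hx⟩ s y - - hy
  refine ⟨i, hi, ?_⟩
  have h1 : x.1 i = 0 := hx
  have h2 : (stdSimplex.vertex 0 : Dl (n + 2)).1 i = 0 := Pi.single_eq_of_ne hi _
  have h3 : y.1 i = 0 := by
    rw [hy, Pi.add_apply, Pi.smul_apply, Pi.smul_apply, h1, h2, smul_zero, smul_zero, add_zero]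
  exact h3

theorem ca_horn (n : ℕ) : CA n (Horn n) (Bdy (n + 2)) fun _ : Unit =>
    (res (0 : Fin (n + 2)).succAbove (ContinuousMap.id (Dl (n + 2))) : Simplex _ n) where
  closed := by
    simp only [Horn, ofPred_exists]
    refine isClosed_iUnion_of_finite fun i => ?_
    by_cases hi : i = 0
    · simp [hi]
    · simpa [hi] using isClosed_eq (cont_coord i) continuous_const
  union := by
    refine Subset.antisymm (fun t ht => ?_) (union_subset (horn_sub n) (iUnion_subset fun _ => ?_))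
    · obtain ⟨i, hi⟩ := not_inn_iff.1 ht
      rcases eq_or_ne i 0 with rfl | h0
      · exact Or.inr (mem_iUnion.2 ⟨(), exists_face_at hi⟩)
      · exact Or.inl ⟨i, h0, hi⟩
    · rintro _ ⟨s, rfl⟩
      exact not_inn_face 0 s
  bdy _ t := by
    rw [not_inn_iff]
    refine ⟨fun ⟨i, hi, h⟩ => ?_, fun ⟨j, h⟩ =>
      ⟨_, Fin.succAbove_ne 0 j, (map_at 0 t j).trans h⟩⟩
    obtain ⟨j, rfl⟩ := Fin.exists_succAbove_eq hi
    exact ⟨j, (map_at 0 t j).symm.trans h⟩
  inj _ _ _ _ _ _ h := ⟨rfl, face_inj 0 h⟩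
  lf := locallyFinite_of_finite _

theorem bd_id (n : ℕ) : bd (n + 1) (Finsupp.single (ContinuousMap.id (Dl (n + 2))) (1 : ℤ)) -
    Finsupp.single (res (0 : Fin (n + 2)).succAbove (ContinuousMap.id (Dl (n + 2)))) 1 ∈
      In ℤ (Horn n) (n + 1) := by
  rw [bd_single, Fin.sum_univ_succ, Fin.val_zero, pow_zero, one_smul, add_sub_cancel_left]
  refine Submodule.sum_mem _ fun i _ => Submodule.smul_mem _ _ (single_CS ?_ _)
  rintro _ ⟨s, rfl⟩
  exact ⟨i.succ, Fin.succ_ne_zero i, map_self _ s⟩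

end MOD

theorem st_MOD (hSTAR : St_STAR) : St_MOD :=
  ⟨MOD.model_zero hSTAR, fun n h => MOD.step (MOD.horn_sub n) (MOD.acy_horn hSTAR n)
    (MOD.acy_univ hSTAR _) (MOD.horn_sub n (MOD.vertex_mem n)) (h _ _ _ _ _ (MOD.ca_horn n))
    (MOD.bd_id n)⟩

end Pool.Agent.Lib.LT
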