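import Pool.Agent.Lib.LT.Kit

/-! The presentation of the fundamental group gives classes of paths to the vertices. -/

namespace Pool.Agent.Lib.LT

open Set Topology Pool.Agent.Lib.MP_77749b_gt Pool.Agent.PD3

namespace POT

variable {E : Type} [TopologicalSpace E]

/-- the class of the image of any path in a simplex -/
noncomputable def pc {n : ℕ} (σ : Simplex E n) (t t' : Dl (n + 1)) {x y : E} (hx : x = σ t)
    (hy : y = σ t') : PQ x y :=
  have := sc_Dl n
  ((Path.Homotopic.Quotient.mk (PathConnectedSpace.somePath t t')).map σ).cast hx hy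

theorem pc_eq {n : ℕ} (σ : Simplex E n) {t t' : Dl (n + 1)} (q : PQ t t') :
    pc σ t t' rfl rfl = q.map σ := by
  have := sc_Dl n
  rw [pc, Path.Homotopic.Quotient.cast_rfl_rfl]
  exact congrArg (fun r : PQ t t' => r.map σ) (Subsingleton.elim _ _)

theorem pc_trans {n : ℕ} (σ : Simplex E n) (t t' t'' : Dl (n + 1)) {x y z : E} (hx : x = σ t)
    (hy : y = σ t') (hz : z = σ t'') :
    (pc σ t t' hx hy).trans (pc σ t' t'' hy hz) = pc σ t t'' hx hz := by
  subst hx hy hz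
  have := sc_Dl n
  rw [pc_eq σ (.mk (PathConnectedSpace.somePath t t')),
    pc_eq σ (.mk (PathConnectedSpace.somePath t' t'')),
    pc_eq σ (.mk ((PathConnectedSpace.somePath t t').trans (PathConnectedSpace.somePath t' t'')))]
  exact (congrArg Path.Homotopic.Quotient.mk (Path.map_trans _ _ σ.continuous)).symm

theorem pc_face {m n : ℕ} {f : Fin (m + 1) → Fin (n + 1)} {σ : Simplex E n} {τ : Simplex E m}
    (h : τ = pull f σ) {i j : Fin (m + 1)} {i' j' : Fin (n + 1)} (hi : i' = f i) (hj : j' = f j)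
    {x y : E} (hx : x = τ (stdSimplex.vertex i)) (hy : y = τ (stdSimplex.vertex j)) :
    ∃ hx' hy', pc τ _ _ hx hy =
      pc σ (stdSimplex.vertex i') (stdSimplex.vertex j') (x := x) (y := y) hx' hy' := by
  subst h hi hj hx hy
  rw [← stdSimplex.map_vertex f i, ← stdSimplex.map_vertex f j]
  have := sc_Dl m
  refine ⟨rfl, rfl, ?_⟩
  rw [pc_eq _ (.mk (PathConnectedSpace.somePath _ _))]
  exact (pc_eq σ ((Path.Homotopic.Quotient.mk (PathConnectedSpace.somePath _ _)).map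
    ⟨stdSimplex.map f, stdSimplex.continuous_map f⟩)).symm

theorem pc_cast {n : ℕ} (σ : Simplex E n) {t t' : Dl (n + 1)} (δ : Path t t') {x₀ x y : E}
    (hx : x = σ t) (hy : y = σ t') (a : PQ x₀ x) (b : PQ x₀ y)
    (h : a.trans (pc σ t t' hx hy) = b) :
    (a.cast rfl hx.symm).trans (.mk (δ.map σ.continuous)) = b.cast rfl hy.symm := by
  subst hx hy h
  rw [pc_eq σ (.mk δ), Path.Homotopic.Quotient.cast_rfl_rfl, Path.Homotopic.Quotient.cast_rfl_rfl]
  rfl

theorem pot (X : DeltaCx) (P : X.pi1 → E) (ed : ∀ g h e, g * X.gen e = h → PQ (P g) (P h))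
    (tri : ∀ t g g1 g2 h1 h2 h3, (ed g g1 (X.d2 t 2) h1).trans (ed g1 g2 (X.d2 t 0) h2) =
      ed g g2 (X.d2 t 1) h3) :
    ∃ c : ∀ g, PQ (P 1) (P g), ∀ g e, (c g).trans (ed g _ e rfl) = c (g * X.gen e) := by
  let W := Σ g, PQ (P 1) (P g)
  let ρ : Fin X.n1 → W → W := fun e w => ⟨w.1 * X.gen e, w.2.trans (ed _ _ e rfl)⟩
  have hρ : ∀ e g h q H, ρ e ⟨g, q⟩ = ⟨h, q.trans (ed g h e H)⟩ := by
    rintro e g _ q rfl
    rfl
  have hb : ∀ e, Function.Bijective (ρ e) := fun e => by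
    refine ⟨?_, ?_⟩
    · rintro ⟨g, q⟩ ⟨g', q'⟩ h
      obtain rfl : g = g' := mul_right_cancel (congrArg Sigma.fst h)
      have h2 := congrArg (fun r => r.trans (ed g _ e rfl).symm) (eq_of_heq (Sigma.mk.inj h).2)
      simp only [Path.Homotopic.Quotient.trans_assoc, Path.Homotopic.Quotient.trans_symm,
        Path.Homotopic.Quotient.trans_refl] at h2
      rw [h2]
    · rintro ⟨h, q⟩
      have H : h * (X.gen e)⁻¹ * X.gen e = h := inv_mul_cancel_right _ _
      refine ⟨⟨_, q.trans (ed _ h e H).symm⟩, ?_⟩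
      rw [hρ e _ h _ H, Path.Homotopic.Quotient.trans_assoc, Path.Homotopic.Quotient.symm_trans,
        Path.Homotopic.Quotient.trans_refl]
  let f : Fin X.n1 → Equiv.Perm W := fun e => (Equiv.ofBijective _ (hb e))⁻¹
  have hf : ∀ r ∈ X.rels, FreeGroup.lift f r = 1 := by
    rintro _ ⟨t, rfl⟩
    simp only [map_mul, map_inv, FreeGroup.lift_apply_of, f, inv_inv]
    rw [← mul_inv_rev, inv_mul_eq_one]
    refine Equiv.ext fun ⟨g, q⟩ => ?_
    have H : g * X.gen (X.d2 t 1) = g * X.gen (X.d2 t 2) * X.gen (X.d2 t 0) := by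
      rw [mul_assoc, gen_rel]
    change ρ _ (ρ _ ⟨g, q⟩) = ρ _ ⟨g, q⟩
    rw [hρ _ g _ q H, hρ _ g _ q rfl, hρ _ _ _ _ rfl, Path.Homotopic.Quotient.trans_assoc, tri]
  let θ := PresentedGroup.toGroup hf
  have hθ : ∀ e w, θ (X.gen e)⁻¹ w = ρ e w := fun e w => by
    rw [map_inv, DeltaCx.gen, PresentedGroup.toGroup.of, inv_inv]
    rfl
  have inv : ∀ h, (∀ w, (θ h w).1 = w.1 * h⁻¹) → ∀ w, (θ h⁻¹ w).1 = w.1 * h⁻¹⁻¹ := fun h hh w => by
    have := hh (θ h⁻¹ w)
    rw [← Equiv.Perm.mul_apply, ← map_mul, mul_inv_cancel, map_one, Equiv.Perm.one_apply] at this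
    rw [this, mul_inv_cancel_right]
  have h1 : ∀ h w, (θ h w).1 = w.1 * h⁻¹ := fun h => by
    refine PresentedGroup.generated_by X.rels
      { carrier := {h | ∀ w, (θ h w).1 = w.1 * h⁻¹}
        mul_mem' := fun {a b} ha hb w => ?_
        one_mem' := fun w => by simp
        inv_mem' := fun {a} ha => inv a ha } (fun e w => ?_) h
    · rw [map_mul, Equiv.Perm.mul_apply, ha, hb, mul_inv_rev, mul_assoc]
    · have := inv (X.gen e)⁻¹ (fun w => by rw [hθ, inv_inv]) w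
      rwa [inv_inv] at this
  have h2 : ∀ (w : W) g, w.1 = g → ∃ q, w = ⟨g, q⟩ := by
    rintro ⟨g, q⟩ _ rfl
    exact ⟨q, rfl⟩
  choose c hc using fun g => h2 (θ g⁻¹ ⟨1, .refl _⟩) g (by rw [h1, inv_inv, one_mul])
  refine ⟨c, fun g e => ?_⟩
  have := hc (g * X.gen e)
  rw [mul_inv_rev, map_mul, Equiv.Perm.mul_apply, hc, hθ] at this
  exact eq_of_heq (Sigma.mk.inj this).2

end POT

open POT in
theorem st_POT : St_POT := by
  intro X E _ _ _ R
  let P : X.pi1 → E := fun g => R.Φ (n := 0) (g, ()) (ctr 0)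
  have hP : Function.Injective P := fun g h e =>
    congrArg Prod.fst (R.uniq _ _ _ _ (inn_ctr 0) (inn_ctr 0) e).1
  have hv : ∀ (i : Fin 2) (σ : X.pi1 × (cdOf X).L 1),
      P ((cdOf X).f i σ).1 = R.Φ σ (stdSimplex.vertex (i.succAbove 0)) := fun i σ => by
    rw [← stdSimplex.map_vertex, ← pull_apply, ← R.Φ_d,
      Subsingleton.elim (stdSimplex.vertex 0) (ctr 0)]
    rfl
  have h0 : ∀ g e, P g = R.Φ (n := 1) (g, e) (stdSimplex.vertex 0) := fun g e =>
    (congrArg P (mul_one g).symm).trans (hv 1 (g, e))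
  have h1 : ∀ g h e, g * X.gen e = h → P h = R.Φ (n := 1) (g, e) (stdSimplex.vertex 1) :=
    fun g _ e H => H ▸ hv 0 (g, e)
  obtain ⟨c, hc⟩ := pot X P (fun g h e H => pc _ _ _ (h0 g e) (h1 g h e H)) (by
    rintro t g _ g2 rfl H2 H3
    have e1 : ∀ i : Fin 3, i ≠ 0 →
        R.Φ (n := 1) (g, X.d2 t i) = pull i.succAbove (R.Φ (n := 2) (g, t)) := fun i hi => by
      rw [← R.Φ_d]
      exact congrArg R.Φ (Prod.ext (by simp [CD.f, cdOf, hi]) rfl)
    obtain ⟨_, _, a2⟩ := pc_face (e1 2 (by decide)) (i' := 0) (j' := 1) rfl rfl (h0 _ _)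
      (h1 _ _ _ rfl)
    obtain ⟨_, _, a1⟩ := pc_face (e1 1 (by decide)) (i' := 0) (j' := 2) rfl rfl (h0 _ _)
      (h1 _ _ _ H3)
    obtain ⟨_, _, a0⟩ := pc_face (R.Φ_d (n := 1) 0 (g, t)) (i' := 1) (j' := 2) rfl rfl (h0 _ _)
      (h1 _ _ _ H2)
    exact (congrArg₂ Path.Homotopic.Quotient.trans a2 a0).trans ((pc_trans ..).trans a1.symm))
  have hγ : ∀ x, x ∈ R.ds.Sk 1 → ∃ g, x = P g := by
    rintro _ ⟨n, hn, σ, t, rfl⟩
    obtain rfl : n = 0 := by omega
    exact ⟨σ.1, by rw [Subsingleton.elim t (ctr 0)]; rfl⟩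
  choose γ hγ using hγ
  have key : ∀ x hx g (h : x = P g), (c (γ x hx)).cast rfl (hγ x hx) = (c g).cast rfl h := by
    intro x hx g h
    obtain rfl : γ x hx = g := hP ((hγ x hx).symm.trans h)
    rfl
  refine ⟨P 1, fun x hx => (c (γ x hx)).cast rfl (hγ x hx), fun ⟨g, e⟩ δ a b => ?_⟩
  exact (congrArg (fun r => Path.Homotopic.Quotient.trans r _) (key _ a g (h0 g e).symm)).trans
    ((pc_cast _ δ _ _ _ _ (hc g e)).trans (key _ b _ (h1 g _ e rfl).symm).symm)

end Pool.Agent.Lib.LT
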