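import Pool.Agent.Lib.LT.Kit

/-! The orbit space of a realisation. -/

namespace Pool.Agent.Lib.LT

open Set Topology Pool.Agent.Lib.MP_77749b_gt

theorem st_QUOT : St_QUOT := by
  intro G _ C E _ _ _ _ R
  have hP : ProperlyDiscontinuousSMul G E := ⟨fun {K L} hK hL => by
    have h := ((R.lf.finite_nonempty_inter_compact hK).prod
      (R.lf.finite_nonempty_inter_compact hL)).image fun q => q.2.2.1 * q.1.2.1⁻¹
    refine h.subset ?_
    rintro g ⟨_, ⟨x, hx, rfl⟩, hy⟩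
    obtain ⟨n, σ, t, -, rfl⟩ := R.cover x
    refine ⟨(⟨n, σ⟩, ⟨n, sh g σ⟩), ⟨⟨_, ⟨t, rfl⟩, hx⟩, ⟨_, ⟨t, ?_⟩, hy⟩⟩, by simp [sh]⟩
    show R.Φ (sh g σ) t = _
    rw [R.Φ_sh]
    rfl⟩
  have hW : WeaklyLocallyCompactSpace E := ⟨fun x => by
    obtain ⟨U, hU, hf⟩ := R.lf x
    refine ⟨_, hf.isCompact_biUnion fun c _ => isCompact_range (R.Φ c.2).continuous,
      Filter.mem_of_superset hU fun y hy => ?_⟩
    obtain ⟨n, σ, t, -, rfl⟩ := R.cover y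
    exact mem_biUnion (x := ⟨n, σ⟩) ⟨_, ⟨t, rfl⟩, hy⟩ ⟨t, rfl⟩⟩
  have hC : IsCancelSMul G E := isCancelSMul_iff_eq_one_of_smul_eq.2 fun _ _ h => R.free h
  exact ⟨isQuotientCoveringMap_quotientMk_of_properlyDiscontinuousSMul, inferInstance⟩

end Pool.Agent.Lib.LT
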