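import Pool.Agent.Lib.LT.Kit

/-! Existence of the geometric realisation of the cover. -/

namespace Pool.Agent.Lib.LT

open Set Topology Pool.Agent.Lib.MP_77749b_gt

namespace REAL

/-- order embeddings between finite ordinals -/
abbrev OE (m n : ℕ) : Type := Fin (m + 1) ↪o Fin (n + 1)

theorem fin_OE (m n : ℕ) : Finite (OE m n) :=
  Finite.of_injective (fun u : OE m n => (u : Fin (m + 1) → Fin (n + 1))) DFunLike.coe_injective

/-- all order embeddings -/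
noncomputable def allE (m n : ℕ) : Finset (OE m n) :=
  (@Set.finite_univ _ (fin_OE m n)).toFinset

theorem mem_allE {m n : ℕ} (u : OE m n) : u ∈ allE m n := by simp [allE]

theorem OE_le {m n : ℕ} (u : OE m n) : m ≤ n := by
  simpa using Fintype.card_le_of_injective u u.injective

theorem OE_fac {m n : ℕ} (u : OE m (n + 1)) (k : Fin (n + 2)) (h : ∀ l, u l ≠ k) :
    ∃ v : OE m n, v.trans (Fin.succAboveOrderEmb k) = u := by
  choose v hv using fun l => Fin.exists_succAbove_eq (h l)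
  refine ⟨OrderEmbedding.ofStrictMono v fun a b hab => ?_, DFunLike.ext _ _ hv⟩
  rw [← Fin.succAbove_lt_succAbove_iff (p := k), hv, hv]
  exact u.strictMono hab

variable {G : Type} [Group G]

/-- iterated faces -/
structure FD (C : CD G) where
  face : ∀ {m n : ℕ}, OE m n → G × C.L n → G × C.L m
  self : ∀ (n : ℕ) (u : OE n n) σ, face u σ = σ
  step : ∀ (m n : ℕ) (u : OE m n) (k : Fin (n + 2)) σ,
    face u (C.f k σ) = face (u.trans (Fin.succAboveOrderEmb k)) σ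
  equi : ∀ (m n : ℕ) (u : OE m n) (g : G) σ, face u (sh g σ) = sh g (face u σ)

/-- coordinates -/
abbrev Ix (C : CD G) : Type := Σ m, (G × C.L m) × Fin (m + 1)

variable {C : CD G} (F : FD C)

open Classical in
/-- the coordinates of a point of a cell -/
noncomputable def FD.Ψ {n : ℕ} (σ : G × C.L n) (t : Dl (n + 1)) (i : Ix C) : ℝ :=
  ∑ u ∈ allE i.1 n, if F.face u σ = i.2.1 then (∏ l, t (u l)) * t (u i.2.2) else 0

theorem FD.cont {n : ℕ} (σ : G × C.L n) : Continuous (F.Ψ σ) := by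
  refine continuous_pi fun i => continuous_finsetSum _ fun u _ => ?_
  split_ifs
  · exact (continuous_finsetProd _ fun l _ => cont_coord _).mul (cont_coord _)
  · exact continuous_const

theorem FD.Ψ_d {n : ℕ} (k : Fin (n + 2)) (σ : G × C.L (n + 1)) (t : Dl (n + 1)) :
    F.Ψ (C.f k σ) t = F.Ψ σ (stdSimplex.map k.succAbove t) := by
  funext i
  refine Finset.sum_of_injOn (fun v => v.trans (Fin.succAboveOrderEmb k))
    (fun v _ w _ e => DFunLike.ext _ _ fun l =>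
      Fin.succAbove_right_injective (p := k) (DFunLike.congr_fun e l))
    (fun v _ => mem_allE _) (fun u _ hu => ?_) (fun v _ => ?_)
  · have : ∃ l, u l = k := by
      by_contra h
      obtain ⟨v, hv⟩ := OE_fac u k (not_exists.1 h)
      exact hu ⟨v, mem_allE _, hv⟩
    obtain ⟨l, hl⟩ := this
    rw [Finset.prod_eq_zero (Finset.mem_univ l) (by rw [hl]; exact map_self k t), zero_mul,
      ite_self]
  · have e : ∀ l, (stdSimplex.map k.succAbove t : Dl (n + 2))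
        ((v.trans (Fin.succAboveOrderEmb k) : OE i.1 (n + 1)) l) = t (v l) :=
      fun l => map_at k t (v l)
    simp only [e]
    rw [F.step]

theorem FD.supp {n : ℕ} {σ : G × C.L n} {t : Dl (n + 1)} {i : Ix C} (h : F.Ψ σ t i ≠ 0) :
    ∃ u : OE i.1 n, F.face u σ = i.2.1 := by
  obtain ⟨u, -, hu⟩ := Finset.exists_ne_zero_of_sum_ne_zero h
  exact ⟨u, by_contra fun e => hu (if_neg e)⟩

theorem FD.diag {n : ℕ} (σ : G × C.L n) (t : Dl (n + 1)) (j : Fin (n + 1)) :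
    F.Ψ σ t ⟨n, σ, j⟩ = (∏ l, t l) * t j := by
  refine (Finset.sum_eq_single (RelEmbedding.refl _) (fun (u : OE n n) _ hu => absurd
    (DFunLike.ext _ _ fun l => (OrderEmbedding.strictMono u).apply_eq) hu) fun h => absurd (mem_allE _) h).trans ?_
  exact if_pos (F.self n _ σ)

theorem FD.diag_ne {n : ℕ} (σ : G × C.L n) {t : Dl (n + 1)} (ht : Inn t) (j : Fin (n + 1)) :
    F.Ψ σ t ⟨n, σ, j⟩ ≠ 0 := by
  rw [F.diag]
  exact (mul_pos (Finset.prod_pos fun l _ => ht l) (ht j)).ne'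

theorem FD.Ψ_sh {n : ℕ} (g : G) (σ : G × C.L n) (t : Dl (n + 1)) :
    F.Ψ (sh g σ) t = fun i => F.Ψ σ t ⟨i.1, sh g⁻¹ i.2.1, i.2.2⟩ := by
  funext i
  have e : ∀ u : OE i.1 n, F.face u (sh g σ) = i.2.1 ↔ F.face u σ = sh g⁻¹ i.2.1 := fun u => by
    rw [F.equi]
    exact ⟨fun h => by rw [← h, sh_sh, inv_mul_cancel, sh_one],
      fun h => by rw [h, sh_sh, mul_inv_cancel, sh_one]⟩
  refine Finset.sum_congr rfl fun u _ => ?_
  by_cases h : F.face u (sh g σ) = i.2.1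
  · exact (if_pos h).trans (if_pos ((e u).1 h)).symm
  · exact (if_neg h).trans (if_neg fun h' => h ((e u).2 h')).symm

theorem FD.inn : ∀ {n : ℕ} (σ : G × C.L n) (t : Dl (n + 1)),
    ∃ (m : ℕ) (τ : G × C.L m) (s : Dl (m + 1)), Inn s ∧ F.Ψ τ s = F.Ψ σ t
  | 0, σ, t => ⟨0, σ, t, inn_zero t, rfl⟩
  | n + 1, σ, t => by
    by_cases ht : Inn t
    · exact ⟨_, σ, t, ht, rfl⟩
    obtain ⟨k, s, rfl⟩ := exists_face ht
    rw [← F.Ψ_d]
    exact FD.inn _ s

theorem FD.le {m n : ℕ} {σ : G × C.L m} {τ : G × C.L n} {s : Dl (m + 1)} {t : Dl (n + 1)}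
    (hs : Inn s) (e : F.Ψ σ s = F.Ψ τ t) : m ≤ n :=
  let ⟨u, _⟩ := F.supp (e ▸ F.diag_ne σ hs 0)
  OE_le u

theorem FD.uniq {n : ℕ} {σ τ : G × C.L n} {s t : Dl (n + 1)} (hs : Inn s)
    (e : F.Ψ σ s = F.Ψ τ t) : σ = τ ∧ s = t := by
  obtain ⟨u, hu⟩ := F.supp (e ▸ F.diag_ne σ hs 0)
  obtain rfl : τ = σ := (F.self n u τ).symm.trans hu
  have h : ∀ j, (∏ l, s l) * s j = (∏ l, t l) * t j := fun j => by
    rw [← F.diag τ, ← F.diag τ, e]
  have h1 : ∏ l, s l = ∏ l, t l := by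
    have := Finset.sum_congr (rfl : Finset.univ = Finset.univ) fun j _ => h j
    rwa [← Finset.mul_sum, ← Finset.mul_sum, stdSimplex.sum_eq_one, stdSimplex.sum_eq_one,
      mul_one, mul_one] at this
  refine ⟨rfl, DFunLike.ext _ _ fun j => mul_left_cancel₀
    (Finset.prod_pos fun l (_ : l ∈ Finset.univ) => hs l).ne' ?_⟩
  rw [h j, h1]

/-- the realisation -/
abbrev FD.Sp : Type := {y : Ix C → ℝ // ∃ (n : ℕ) (σ : G × C.L n) (t : Dl (n + 1)), F.Ψ σ t = y}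

/-- the action -/
@[reducible] def FD.act : MulAction G F.Sp where
  smul g y := ⟨fun i => y.1 ⟨i.1, sh g⁻¹ i.2.1, i.2.2⟩, by
    obtain ⟨n, σ, t, e⟩ := y.2
    exact ⟨n, sh g σ, t, by rw [F.Ψ_sh, e]⟩⟩
  one_smul y := Subtype.ext (funext fun i => by
    change y.1 ⟨i.1, sh 1⁻¹ i.2.1, i.2.2⟩ = y.1 i
    rw [inv_one, sh_one])
  mul_smul g h y := Subtype.ext (funext fun i => by
    change y.1 ⟨i.1, sh (g * h)⁻¹ i.2.1, i.2.2⟩ = y.1 ⟨i.1, sh h⁻¹ (sh g⁻¹ i.2.1), i.2.2⟩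
    rw [sh_sh, mul_inv_rev])

/-- the cells -/
noncomputable def FD.Φ {n : ℕ} (σ : G × C.L n) : Simplex F.Sp n :=
  ⟨fun t => ⟨F.Ψ σ t, n, σ, t, rfl⟩, (F.cont σ).subtype_mk _⟩

theorem FD.lf : LocallyFinite fun c : Σ n, G × C.L n => range (F.Φ c.2) := by
  rintro ⟨y, n₀, σ₀, t₀, rfl⟩
  obtain ⟨n, σ, t, ht, e⟩ := F.inn σ₀ t₀
  obtain ⟨N, hN⟩ := C.top
  have h0 : F.Ψ σ₀ t₀ ⟨n, σ, 0⟩ ≠ 0 := e ▸ F.diag_ne σ ht 0
  refine ⟨{y | y.1 ⟨n, σ, 0⟩ ≠ 0}, (isOpen_ne_fun ((continuous_apply _).comp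
    continuous_subtype_val) continuous_const).mem_nhds h0, ?_⟩
  refine ((finite_Iio N).biUnion fun m _ => ?_ : (⋃ m ∈ Iio N, range
    fun p : C.L m × OE n m => (⟨m, σ.1 * (F.face p.2 (1, p.1)).1⁻¹, p.1⟩ :
      Σ n, G × C.L n)).Finite).subset ?_
  · have := C.fin m
    have := fin_OE n m
    exact finite_range _
  · rintro ⟨m, g, s⟩ ⟨_, ⟨r, rfl⟩, hr⟩
    obtain ⟨u, hu⟩ := F.supp (σ := (g, s)) (t := r) (i := ⟨n, σ, 0⟩) hr
    refine mem_iUnion₂.2 ⟨m, by_contra fun hm => (hN m (not_lt.1 hm)).false s, (s, u), ?_⟩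
    rw [← sh_mk g s, F.equi] at hu
    have h1 : g * (F.face u (1, s)).1 = σ.1 := congrArg Prod.fst hu
    simp only [← h1, mul_inv_cancel_right]

end REAL

theorem st_REAL (hFACE : St_FACE) : St_REAL := by
  intro G _ C
  obtain ⟨face, h1, h2, h3⟩ := hFACE G C
  let F : REAL.FD C := ⟨face, h1, h2, h3⟩
  let := F.act
  have : ContinuousConstSMul G F.Sp := ⟨fun g => continuous_induced_rng.2 (continuous_pi fun i =>
    (continuous_apply (⟨i.1, sh g⁻¹ i.2.1, i.2.2⟩ : REAL.Ix C)).comp continuous_subtype_val)⟩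
  refine ⟨F.Sp, inferInstance, inferInstance, F.act, this, ⟨⟨F.Φ, fun i σ => ?_, ?_,
    fun σ τ s t hs ht e => ?_, fun σ τ s t hs _ e => F.uniq hs (congrArg Subtype.val e),
    F.lf, fun g σ => ?_⟩⟩⟩
  · exact ContinuousMap.ext fun t => Subtype.ext (F.Ψ_d i σ t)
  · rintro ⟨y, n₀, σ₀, t₀, rfl⟩
    obtain ⟨n, σ, t, ht, e⟩ := F.inn σ₀ t₀
    exact ⟨n, σ, t, ht, Subtype.ext e⟩
  · exact le_antisymm (F.le hs (congrArg Subtype.val e)) (F.le ht (congrArg Subtype.val e).symm)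
  · exact ContinuousMap.ext fun t => Subtype.ext (F.Ψ_sh g σ t)

end Pool.Agent.Lib.LT
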