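import Pool.Agent.Lib.LT.Kit

namespace Pool.Agent.Lib.LT

open Set Topology Pool.Agent.Lib.MP_77749b_gt

theorem st_RETR (hRHO : St_RHO) : St_RETR := by
  classical
  intro n E _ _ A B J Φ h
  obtain ⟨ρ, hρ⟩ := hRHO n
  let H : E → unitInterval → E := fun x s =>
    if e : ∃ p : J × Dl (n + 1), Inn p.2 ∧ Φ p.1 p.2 = x then Φ e.choose.1 (ρ e.choose.2 s) else x
  have hA : ∀ x ∈ A, ∀ s, H x s = x := fun x hx s => dif_neg <| by
    rintro ⟨p, hp, rfl⟩
    exact (h.bdy _ _).1 hx hp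
  have key : ∀ j t s, H (Φ j t) s = Φ j (ρ t s) := fun j t s => by
    by_cases ht : Inn t
    · have e : ∃ p : J × Dl (n + 1), Inn p.2 ∧ Φ p.1 p.2 = Φ j t := ⟨(j, t), ht, rfl⟩
      obtain ⟨e1, e2⟩ := h.inj _ _ _ _ e.choose_spec.1 ht e.choose_spec.2
      simp only [H, dif_pos e, e1, e2]
    · rw [hA _ ((h.bdy _ _).2 ht), hρ.fix t ht]
  have cases : ∀ x ∈ B \ Ctr Φ, x ∈ A ∨ ∃ j t, t ≠ ctr n ∧ Φ j t = x := fun x hx => by
    have h1 := hx.1
    rw [h.union] at h1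
    rcases h1 with h1 | h1
    · exact Or.inl h1
    · obtain ⟨j, t, rfl⟩ := mem_iUnion.1 h1
      exact Or.inr ⟨j, t, fun e => hx.2 ⟨j, by rw [e]⟩, rfl⟩
  have nc : ∀ j t, t ≠ ctr n → Φ j t ∈ B \ Ctr Φ := fun j t ht =>
    ⟨h.union ▸ Or.inr (mem_iUnion.2 ⟨j, t, rfl⟩), by
      rintro ⟨j', e⟩
      exact ht (h.inj' (inn_ctr n) e).2.symm⟩
  refine ⟨H, ⟨?_, fun x hx => ?_, fun x hx => ?_, fun x hx s => ?_, hA⟩, fun j t ht =>
    ⟨⟨fun s => ρ t s, hρ.cont.comp_continuous (f := fun s => (t, s)) (by fun_prop)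
      fun s => ⟨ht, trivial⟩⟩, hρ.zero t ht, key j t⟩⟩
  · refine continuousOn_iff_isClosed.2 fun F hF => ?_
    let T : J → Set (Dl (n + 1) × unitInterval) := fun j =>
      closure {q | q.1 ≠ ctr n ∧ Φ j (ρ q.1 q.2) ∈ F}
    refine ⟨(A ∩ F) ×ˢ univ ∪ ⋃ j, Prod.map (Φ j) id '' T j,
      ((h.closed.inter hF).prod isClosed_univ).union
        (LocallyFinite.isClosed_iUnion ((h.lf.preimage_continuous continuous_fst).subset ?_)
          fun j => (isClosed_closure.isCompact.image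
            ((Φ j).continuous.prodMap continuous_id)).isClosed), ?_⟩
    · rintro j _ ⟨q, -, rfl⟩
      exact ⟨q.1, rfl⟩
    ext ⟨x, s⟩
    refine and_congr_left fun hx => ?_
    change H x s ∈ F ↔ _
    refine ⟨fun hq => ?_, ?_⟩
    · rcases cases x hx.1 with h1 | ⟨j, t, ht, rfl⟩
      · rw [hA x h1] at hq
        exact Or.inl ⟨⟨h1, hq⟩, trivial⟩
      · rw [key] at hq
        exact Or.inr (mem_iUnion.2 ⟨j, (t, s), subset_closure ⟨ht, hq⟩, rfl⟩)
    · rintro (h1 | h1)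
      · rw [hA x h1.1.1]
        exact h1.1.2
      · obtain ⟨j, ⟨t, s'⟩, hq, e⟩ := mem_iUnion.1 h1
        obtain ⟨rfl, rfl⟩ : Φ j t = x ∧ s' = s := Prod.ext_iff.1 e
        have ht : t ≠ ctr n := fun e => hx.1.2 ⟨j, by rw [e]⟩
        have hc : ContinuousWithinAt (fun q : Dl (n + 1) × unitInterval => Φ j (ρ q.1 q.2))
            {q | q.1 ≠ ctr n ∧ Φ j (ρ q.1 q.2) ∈ F} (t, s') :=
          ((Φ j).continuous.comp_continuousOn hρ.cont (t, s') ⟨ht, trivial⟩).mono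
            fun q hq => ⟨hq.1, trivial⟩
        have := hc.mem_closure hq (t := F) fun q hq => hq.2
        rw [hF.closure_eq] at this
        rw [key]
        exact this
  · rcases cases x hx with h1 | ⟨j, t, ht, rfl⟩
    · exact hA x h1 0
    · rw [key, hρ.zero t ht]
  · rcases cases x hx with h1 | ⟨j, t, ht, rfl⟩
    · exact (hA x h1 1).symm ▸ h1
    · rw [key]; exact (h.bdy _ _).2 (hρ.one t ht)
  · rcases cases x hx with h1 | ⟨j, t, ht, rfl⟩
    · exact (hA x h1 s).symm ▸ hx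
    · rw [key]; exact nc j _ (hρ.mem t ht s)

end Pool.Agent.Lib.LT
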