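import Pool.Agent.Lib.LT.Kit

/-! Radial deformation of the punctured simplex onto its boundary. -/

namespace Pool.Agent.Lib.LT

open Set Topology Pool.Agent.Lib.MP_77749b_gt

namespace RHO

variable {n : ℕ}

/-- the least coordinate -/
noncomputable def mn (t : Dl (n + 1)) : ℝ := Finset.univ.inf' Finset.univ_nonempty fun i => t i

theorem mn_le (t : Dl (n + 1)) (i : Fin (n + 1)) : mn t ≤ t i :=
  Finset.inf'_le (fun i => t i) (Finset.mem_univ i)

theorem mn_eq (t : Dl (n + 1)) : ∃ i, mn t = t i := by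
  obtain ⟨i, -, h⟩ := Finset.exists_mem_eq_inf' (Finset.univ_nonempty (α := Fin (n + 1)))
    (fun i => t i)
  exact ⟨i, h⟩

theorem mn_nonneg (t : Dl (n + 1)) : 0 ≤ mn t := by
  obtain ⟨i, h⟩ := mn_eq t
  rw [h]; exact t.2.1 i

theorem cont_mn : Continuous (mn : Dl (n + 1) → ℝ) :=
  Continuous.finset_inf'_apply Finset.univ_nonempty fun i _ => cont_coord i

theorem ctr_ap (i : Fin (n + 1)) : (ctr n) i = ((n : ℝ) + 1)⁻¹ := by
  have : (ctr n) i = ((Fintype.card (Fin (n + 1)) : ℝ))⁻¹ := rfl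
  rw [this, Fintype.card_fin]
  push_cast
  rfl

theorem sum_eq (t : Dl (n + 1)) : ∑ i, t i = 1 := t.2.2

theorem eq_ctr {t : Dl (n + 1)} {c : ℝ} (h : ∀ i, t i = c) : t = ctr n := by
  have h1 := sum_eq t
  simp only [h, Finset.sum_const, Finset.card_univ, Fintype.card_fin, nsmul_eq_mul] at h1
  push_cast at h1
  have hp : (0 : ℝ) < n + 1 := by positivity
  ext i
  show t i = (ctr n) i
  rw [h i, ctr_ap]
  field_simp
  linarith

theorem mn_lt {t : Dl (n + 1)} (h : t ≠ ctr n) : ((n : ℝ) + 1) * mn t < 1 := by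
  by_contra hc
  rw [not_lt] at hc
  apply h
  have h0 : ∑ i, (t i - mn t) = 1 - ((n : ℝ) + 1) * mn t := by
    rw [Finset.sum_sub_distrib, sum_eq]
    simp only [Finset.sum_const, Finset.card_univ, Fintype.card_fin, nsmul_eq_mul]
    push_cast
    ring
  have h1 : ∑ i, (t i - mn t) = 0 :=
    le_antisymm (by linarith) (Finset.sum_nonneg fun i _ => sub_nonneg.2 (mn_le t i))
  have h2 := (Finset.sum_eq_zero_iff_of_nonneg fun i _ => sub_nonneg.2 (mn_le t i)).1 h1
  exact eq_ctr fun i => sub_eq_zero.1 (h2 i (Finset.mem_univ i))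

theorem den_pos {t : Dl (n + 1)} (h : t ≠ ctr n) (s : unitInterval) :
    0 < 1 - ((n : ℝ) + 1) * ((s : ℝ) * mn t) := by
  have h1 := mn_lt h
  have h2 : (s : ℝ) * mn t ≤ mn t := mul_le_of_le_one_left (mn_nonneg t) s.2.2
  have hp : (0 : ℝ) < n + 1 := by positivity
  have := mul_le_mul_of_nonneg_left h2 hp.le
  linarith

/-- the coordinates of the deformation -/
noncomputable def co (t : Dl (n + 1)) (s : unitInterval) (i : Fin (n + 1)) : ℝ :=
  (t i - s * mn t) / (1 - ((n : ℝ) + 1) * ((s : ℝ) * mn t))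

theorem co_mem {t : Dl (n + 1)} (h : t ≠ ctr n) (s : unitInterval) :
    co t s ∈ stdSimplex ℝ (Fin (n + 1)) := by
  have hd := den_pos h s
  refine ⟨fun i => div_nonneg ?_ hd.le, ?_⟩
  · have h2 : (s : ℝ) * mn t ≤ mn t := mul_le_of_le_one_left (mn_nonneg t) s.2.2
    have := mn_le t i
    linarith
  · simp only [co]
    rw [← Finset.sum_div, Finset.sum_sub_distrib, sum_eq]
    simp only [Finset.sum_const, Finset.card_univ, Fintype.card_fin, nsmul_eq_mul]
    push_cast
    exact div_self hd.ne'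

open Classical in
/-- the deformation -/
noncomputable def rho (t : Dl (n + 1)) (s : unitInterval) : Dl (n + 1) :=
  if h : t = ctr n then t else ⟨co t s, co_mem h s⟩

theorem rho_ap {t : Dl (n + 1)} (h : t ≠ ctr n) (s : unitInterval) (i : Fin (n + 1)) :
    rho t s i = co t s i := by
  rw [rho, dif_neg h]
  rfl

theorem rho_val {t : Dl (n + 1)} (h : t ≠ ctr n) (s : unitInterval) :
    (rho t s).1 = co t s := funext fun i => rho_ap h s i

theorem rho_fix {t : Dl (n + 1)} {s : unitInterval} (h0 : (s : ℝ) * mn t = 0) : rho t s = t := by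
  by_cases h : t = ctr n
  · rw [rho, dif_pos h]
  · ext i
    show rho t s i = t i
    rw [rho_ap h, co, h0]
    simp

theorem rho_cont : ContinuousOn (fun q : Dl (n + 1) × unitInterval => rho q.1 q.2)
    (({ctr n}ᶜ : Set (Dl (n + 1))) ×ˢ univ) := by
  rw [IsInducing.subtypeVal.continuousOn_iff]
  have hs : Continuous fun q : Dl (n + 1) × unitInterval => (q.2 : ℝ) * mn q.1 :=
    (continuous_subtype_val.comp continuous_snd).mul (cont_mn.comp continuous_fst)
  have : ContinuousOn (fun q : Dl (n + 1) × unitInterval => co q.1 q.2)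
      (({ctr n}ᶜ : Set (Dl (n + 1))) ×ˢ univ) := by
    refine continuousOn_pi.2 fun i => ?_
    refine ContinuousOn.div (((cont_coord i).comp continuous_fst).sub hs).continuousOn
      (continuous_const.sub (continuous_const.mul hs)).continuousOn fun q hq => ?_
    exact (den_pos hq.1 q.2).ne'
  exact this.congr fun q hq => rho_val hq.1 q.2

theorem rho_one {t : Dl (n + 1)} (h : t ≠ ctr n) : rho t 1 ∈ Bdy (n + 1) := by
  obtain ⟨i, hi⟩ := mn_eq t
  refine not_inn_iff.2 ⟨i, ?_⟩
  rw [rho_ap h, co, hi]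
  simp

theorem rho_ne {t : Dl (n + 1)} (h : t ≠ ctr n) (s : unitInterval) : rho t s ≠ ctr n := by
  intro e
  apply h
  have hd := den_pos h s
  refine eq_ctr (c := (s : ℝ) * mn t +
    ((n : ℝ) + 1)⁻¹ * (1 - ((n : ℝ) + 1) * ((s : ℝ) * mn t))) fun i => ?_
  have h1 := rho_ap h s i
  rw [e, ctr_ap, co, eq_div_iff hd.ne'] at h1
  linarith

theorem mn_bdy {t : Dl (n + 1)} (h : t ∈ Bdy (n + 1)) : mn t = 0 := by
  obtain ⟨i, hi⟩ := not_inn_iff.1 h
  exact le_antisymm (hi ▸ mn_le t i) (mn_nonneg t)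

end RHO

theorem st_RHO : St_RHO := fun n =>
  ⟨RHO.rho,
    { cont := RHO.rho_cont
      zero := fun t _ => RHO.rho_fix (by simp)
      one := fun t h => RHO.rho_one h
      mem := fun t h s => RHO.rho_ne h s
      fix := fun t h s => RHO.rho_fix (by rw [RHO.mn_bdy h, mul_zero]) }⟩

end Pool.Agent.Lib.LT
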