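import Pool.Agent.Lib.LT.Kit

/-! Simple connectivity from a potential compatible with the cells. -/

namespace Pool.Agent.Lib.LT

open Set Topology Pool.Agent.Lib.MP_77749b_gt

namespace SC

variable {E : Type} [TopologicalSpace E] {x₀ : E} {c : ∀ x, PQ x₀ x}

theorem congr {x y x' y' : E} {p : Path x y} {q : Path x' y'} (e : ∀ s, p s = q s)
    (h : (c x).trans (.mk p) = c y) : (c x').trans (.mk q) = c y' := by
  obtain rfl : x = x' := by rw [← p.source, e, q.source]
  obtain rfl : y = y' := by rw [← p.target, e, q.target]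
  rwa [← (Path.ext (funext e) : p = q)]

theorem cancel {x y z : E} {a b : PQ x y} {r : PQ y z} (h : a.trans r = b.trans r) : a = b := by
  have := congrArg (·.trans r.symm) h
  simpa only [Path.Homotopic.Quotient.trans_assoc, Path.Homotopic.Quotient.trans_symm,
    Path.Homotopic.Quotient.trans_refl] using this

theorem step [T2Space E] (hR : St_RETR) (hL : St_LIFT) (hC : St_COVER) {n : ℕ} {A B : Set E}
    {J : Type} {Φ : J → Simplex E n} (h : CA n A B Φ) (hA : Pot c A)
    (hc : ∀ j (g : C(unitInterval, Dl (n + 1))) x y (p : Path x y), (∀ s, p s = Φ j (g s)) →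
      (c x).trans (.mk p) = c y) : Pot c B := by
  refine hC E x₀ c B (Ctr Φ)ᶜ Aᶜ h.isClosed_Ctr.isOpen_compl h.closed.isOpen_compl
    (fun x _ => by_contra fun hx => ?_) (fun x y γ hγ => ?_) fun x y γ hγ => ?_
  · simp only [mem_union, mem_compl_iff, not_or, not_not] at hx
    exact h.not_mem_Ctr hx.2 hx.1
  · obtain ⟨H, hH, hj⟩ := hR n E A B J Φ h
    have hm : ∀ t, γ t ∈ B \ Ctr Φ := fun t => hγ ⟨t, rfl⟩
    have hF : Continuous fun q : unitInterval × unitInterval => H (γ q.2) q.1 :=
      hH.cont.comp_continuous (f := fun q : unitInterval × unitInterval => (γ q.2, q.1))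
        (by fun_prop) fun q => ⟨hm _, trivial⟩
    let F : (γ : C(unitInterval, E)).Homotopy ⟨fun t => H (γ t) 1, hF.comp (.prodMk_right 1)⟩ :=
      ⟨⟨_, hF⟩, fun t => hH.zero _ (hm t), fun _ => rfl⟩
    have tr : ∀ t, (c _).trans (.mk (F.evalAt t)) = c _ := fun t => by
      rcases h.cases (hm t).1 with ht | ⟨j, u, -, e⟩
      · refine hA _ _ _ ?_
        rintro _ ⟨s, rfl⟩
        exact mem_of_eq_of_mem (hH.fix _ ht s) ht
      · obtain ⟨g, -, hg⟩ := hj j u fun e' => (hm t).2 (e ▸ h.mem_Ctr.2 e')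
        exact hc j g _ _ _ fun s => by rw [← hg, e]; rfl
    have sq := Path.Homotopic.Quotient.eq.2 (Path.Homotopic.map_trans_evalAt F Path.id)
    rw [Path.Homotopic.Quotient.mk_trans, Path.Homotopic.Quotient.mk_trans] at sq
    refine congr (p := Path.id.map (γ : C(unitInterval, E)).continuous) (fun _ => rfl)
      (cancel (r := .mk (F.evalAt 1)) ?_)
    rw [Path.Homotopic.Quotient.trans_assoc, sq, ← Path.Homotopic.Quotient.trans_assoc, tr, tr]
    refine hA _ _ _ ?_
    rintro _ ⟨s, rfl⟩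
    exact hH.one _ (hm _)
  · obtain ⟨j, g, -, hg⟩ := hL n E A B J Φ h unitInterval γ hγ
    exact hc j g x y γ hg

end SC

theorem st_SC (hSK : St_SK) (hR : St_RETR) (hL : St_LIFT) (hC : St_COVER) : St_SC := by
  intro E _ _ D x₀ c hc
  have key : ∀ N, Pot c (D.Sk N) := fun N => by
    induction N with
    | zero => exact fun x y γ hγ => absurd (D.Sk_zero ▸ hγ ⟨0, rfl⟩) (notMem_empty _)
    | succ N ih =>
      exact SC.step hR hL hC (hSK E D N) ih fun j g x y p hp =>
        SC.congr (fun s => (hp s).symm) (hc N j (g 0) (g 1) ⟨g, rfl, rfl⟩)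
  obtain ⟨N, hN⟩ := D.Sk_top
  have hu := key N
  rw [hN N le_rfl] at hu
  have jn : ∀ x, Joined x₀ x := fun x =>
    let ⟨p, _⟩ := Path.Homotopic.Quotient.mk_surjective (c x)
    ⟨p⟩
  refine simply_connected_iff_paths_homotopic'.2
    ⟨⟨⟨x₀⟩, fun x y => (jn x).symm.trans (jn y)⟩, fun {x y} p q => ?_⟩
  have := congrArg ((c x).symm.trans ·)
    ((hu x y p (subset_univ _)).trans (hu x y q (subset_univ _)).symm)
  simpa only [← Path.Homotopic.Quotient.trans_assoc, Path.Homotopic.Quotient.symm_trans,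
    Path.Homotopic.Quotient.refl_trans, Path.Homotopic.Quotient.eq] using this

end Pool.Agent.Lib.LT
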