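import Pool.Agent.Lib.LT.Kit

/-! The equivariant retraction of singular chains onto simplicial chains. -/

namespace Pool.Agent.Lib.LT

open Set Topology Pool.Agent.Lib.MP_77749b_gt Finsupp

namespace SDR

variable {G : Type} [Group G] {C : CD G} {E : Type} [TopologicalSpace E] [MulAction G E]
  [ContinuousConstSMul G E]

/-- alternating sum over the faces -/
noncomputable def alt {n : ℕ} {N : Type} [AddCommGroup N] (u : Simplex E n → N)
    (σ : Simplex E (n + 1)) : N := ∑ i : Fin (n + 2), (-1 : ℤ) ^ (i : ℕ) • u (pull i.succAbove σ)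

theorem bdry_single {n : ℕ} (σ : Simplex E (n + 1)) :
    bdry (single σ (1 : ℤ)) = alt (fun τ => single τ (1 : ℤ)) σ := by
  simp only [bdry, alt, mapDomain_single]

theorem alt_map {n : ℕ} {N N' : Type} [AddCommGroup N] [AddCommGroup N'] (f : N →ₗ[ℤ] N')
    (u : Simplex E n → N) (σ : Simplex E (n + 1)) : f (alt u σ) = alt (fun τ => f (u τ)) σ := by
  simp only [alt, map_sum, map_smul]

theorem bdry_bdry {n : ℕ} (c : Simplex E (n + 2) →₀ ℤ) : bdry (bdry c) = 0 := by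
  rw [bdry_eq, bdry_eq]
  exact bd_bd _ c

theorem alt_alt {n : ℕ} {N : Type} [AddCommGroup N] (u : Simplex E n → N)
    (σ : Simplex E (n + 2)) : alt (alt u) σ = 0 := by
  have h1 : ∀ τ : Simplex E (n + 1), alt u τ = lx (R := ℤ) u (bd (n + 1) (single τ 1)) := by
    intro τ
    rw [← bdry_eq, bdry_single, alt_map]
    simp only [lx_single]
  have h2 := alt_map ((lx (R := ℤ) u).comp (bd (n + 1))) (fun τ => single τ (1 : ℤ)) σ
  rw [← bdry_single, LinearMap.comp_apply, ← bdry_eq, bdry_bdry, map_zero] at h2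
  rw [h2]
  exact congrArg (fun v => alt v σ) (funext h1)

theorem bdry_smul {n : ℕ} (g : G) (d : Simplex E (n + 1) →₀ ℤ) :
    bdry (d.mapDomain (g • ·)) = (bdry d).mapDomain (g • ·) := by
  have := map_sum (md (R := ℤ) fun σ : Simplex E n => g • σ)
    (fun i : Fin (n + 2) => (-1 : ℤ) ^ (i : ℕ) • d.mapDomain (pull i.succAbove)) Finset.univ
  simp only [map_smul, lmapDomain_apply, ← mapDomain_comp] at this
  rw [bdry, bdry, this]
  simp only [← mapDomain_comp]
  rfl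

/-- the invariant of the recursion -/
structure Inv (R : Real C E) (n : ℕ) (W : Simplex E n → (Simplex E n →₀ ℤ))
    (r : Simplex E n → (G × C.L n →₀ ℤ)) (h : Simplex E n → (Simplex E (n + 1) →₀ ℤ)) : Prop where
  r_sh : ∀ (g : G) σ, r (g • σ) = (r σ).mapDomain (sh g)
  h_sh : ∀ (g : G) σ, h (g • σ) = (h σ).mapDomain (g • ·)
  eq : ∀ σ, (r σ).mapDomain R.Φ + bdry (h σ) + W σ = single σ 1
  hΦ : ∀ τ, h (R.Φ τ) = 0
  WΦ : ∀ τ, W (R.Φ τ) = 0
  WW : ∀ σ, alt W σ = 0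

theorem level (R : Real C E) (n : ℕ) (W : Simplex E n → (Simplex E n →₀ ℤ))
    (W_sh : ∀ (g : G) σ, W (g • σ) = (W σ).mapDomain (g • ·)) (WΦ : ∀ τ, W (R.Φ τ) = 0)
    (WW : ∀ σ, alt W σ = 0)
    (ex : ∀ σ, ∃ c : G × C.L n →₀ ℤ, IsBdry (single σ 1 - W σ - c.mapDomain R.Φ)) :
    ∃ r h, Inv R n W r h := by
  obtain ⟨f, hf, hg⟩ := equiv_choice (G := G) (S := Simplex E n)
    (T := (G × C.L n →₀ ℤ) × (Simplex E (n + 1) →₀ ℤ))
    (fun g σ e => R.free (x := σ (ctr n)) (congrArg (fun τ : Simplex E n => τ (ctr n)) e))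
    (fun g p => (p.1.mapDomain (sh g), p.2.mapDomain (g • ·)))
    (fun g h p => by
      simp only [← mapDomain_comp, Function.comp_def, sh_sh, mul_smul])
    (fun σ p => p.1.mapDomain R.Φ + bdry p.2 + W σ = single σ 1 ∧ ∀ τ, σ = R.Φ τ → p.2 = 0)
    (fun g σ p hp => by
      refine ⟨?_, fun τ e => ?_⟩
      · have e : (p.1.mapDomain (sh g)).mapDomain R.Φ = (p.1.mapDomain R.Φ).mapDomain (g • ·) := by
          simp only [← mapDomain_comp, Function.comp_def, R.Φ_sh]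
        rw [e, bdry_smul, W_sh, ← mapDomain_add, ← mapDomain_add, hp.1, mapDomain_single]
      · rw [hp.2 (sh g⁻¹ τ) (by rw [R.Φ_sh, ← e, inv_smul_smul]), mapDomain_zero])
    (fun σ => by
      by_cases hσ : ∃ τ, σ = R.Φ τ
      · obtain ⟨τ, rfl⟩ := hσ
        refine ⟨(single τ 1, 0), ?_, fun _ _ => rfl⟩
        rw [WΦ, mapDomain_single, bdry_eq, map_zero, add_zero, add_zero]
      · obtain ⟨c, d, hd⟩ := ex σ
        exact ⟨(c, d), by rw [hd]; abel, fun τ e => absurd ⟨τ, e⟩ hσ⟩)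
  exact ⟨fun σ => (f σ).1, fun σ => (f σ).2, fun g σ => by rw [hg], fun g σ => by rw [hg],
    fun σ => (hf σ).1, fun τ => (hf _).2 τ rfl, WΦ, WW⟩

theorem Inv.bdry_w {R : Real C E} {n : ℕ} {W r h} (I : Inv R n W r h) (σ : Simplex E (n + 1)) :
    bdry (single σ 1 - alt h σ) = (alt r σ).mapDomain R.Φ := by
  have h1 := alt_map (md (R := ℤ) (R.Φ (n := n))) r σ
  have h2 := alt_map (bd (R := ℤ) (X := E) (n + 1)) h σ
  have h3 : alt (fun τ => single τ (1 : ℤ)) σ =
      alt (fun τ => md R.Φ (r τ)) σ + alt (fun τ => bd (n + 1) (h τ)) σ + alt W σ := by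
    simp only [alt, ← Finset.sum_add_distrib, ← smul_add, ← bdry_eq, lmapDomain_apply, I.eq]
  rw [bdry_eq, map_sub, h2, ← bdry_eq, bdry_single, h3, I.WW, ← h1, lmapDomain_apply]
  abel

theorem Inv.step {R : Real C E} (hQ : R.ds.QI) {n : ℕ} {W r h} (I : Inv R n W r h) :
    ∃ r' h', Inv R (n + 1) (alt h) r' h' := by
  refine level R (n + 1) (alt h) (fun g σ => ?_) (fun τ => ?_) (alt_alt h) fun σ => ?_
  · refine Eq.trans ?_ (alt_map (md (R := ℤ) fun σ : Simplex E (n + 1) => g • σ) h σ).symm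
    simp only [alt, pull_smul, I.h_sh, lmapDomain_apply]
  · simp only [alt, ← R.Φ_d, I.hΦ, smul_zero, Finset.sum_const_zero]
  · obtain ⟨c', hc'⟩ := hQ.inj n (alt r σ) ⟨_, I.bdry_w σ⟩
    obtain ⟨c'', hc''⟩ := hQ.surj (n + 1) (single σ 1 - alt h σ - c'.mapDomain R.ds.Φ) (by
      change bdry _ = 0
      rw [bdry_eq, map_sub, ← bdry_eq, ← bdry_eq, I.bdry_w, R.ds.bdry_Φ, hc']
      exact sub_self _)
    refine ⟨c' + c'', ?_⟩
    rw [sub_sub _ (c'.mapDomain R.ds.Φ), ← mapDomain_add] at hc''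
    exact hc''

end SDR

open SDR in
theorem st_SDR : St_SDR := by
  intro G _ C E _ _ _ R hQ
  let T : ℕ → Type := fun n => {p : (Simplex E n → (Simplex E n →₀ ℤ)) ×
    (Simplex E n → (G × C.L n →₀ ℤ)) × (Simplex E n → (Simplex E (n + 1) →₀ ℤ)) //
      Inv R n p.1 p.2.1 p.2.2}
  obtain ⟨r0, h0, I0⟩ := level R 0 (fun _ => 0) (fun _ _ => by rw [mapDomain_zero])
    (fun _ => rfl) (fun _ => by simp [alt]) fun σ => by
      rw [sub_zero]
      exact hQ.surj 0 _ trivial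
  have step : ∀ n (p : T n), ∃ q : T (n + 1), q.1.1 = alt p.1.2.2 := fun n p =>
    let ⟨r', h', I⟩ := p.2.step hQ
    ⟨⟨(_, r', h'), I⟩, rfl⟩
  choose F hF using step
  let s : ∀ n, T n := fun n => Nat.rec ⟨(fun _ => 0, r0, h0), I0⟩ F n
  have hs : ∀ n, (s (n + 1)).1.1 = alt (s n).1.2.2 := fun n => hF n (s n)
  have inj : ∀ n, Function.Injective (mapDomain (M := ℤ) (R.Φ (n := n))) := fun n =>
    mapDomain_injective (R.ds.Φ_inj n)
  refine ⟨fun n => (s n).1.2.1, fun n => (s n).1.2.2, fun n => (s n).2.r_sh,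
    fun n => (s n).2.h_sh, fun n τ => inj n ?_, fun σ => ?_, fun n σ => ?_, fun n σ => inj n ?_⟩
  · have := (s n).2.eq (R.Φ τ)
    rw [(s n).2.hΦ, (s n).2.WΦ, bdry_eq, map_zero, add_zero, add_zero] at this
    rw [this, mapDomain_single]
  · exact (add_zero _).symm.trans (I0.eq σ)
  · have := (s (n + 1)).2.eq σ
    rwa [hs] at this
  · have h1 := (s (n + 1)).2.eq σ
    rw [hs] at h1
    have h2 := (s n).2.bdry_w σ
    rw [← h1, add_sub_cancel_right, bdry_eq, map_add, ← bdry_eq, ← bdry_eq, bdry_bdry,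
      add_zero] at h2
    exact (R.ds.bdry_Φ _).symm.trans h2

end Pool.Agent.Lib.LT
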