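import Pool.Agent.Lib.LT.Kit

namespace Pool.Agent.Lib.LT

open Set Topology Pool.Agent.Lib.MP_77749b_gt

theorem st_SK : St_SK := by
  intro E _ _ D n
  refine ⟨?_, ?_, fun σ t => ⟨?_, fun ht => ?_⟩, D.uniq, ?_⟩
  · have e : D.Sk n = ⋃ c : {c : Σ m, D.K m // c.1 < n}, range (D.Φ c.1.2) := by
      ext x
      simp only [mem_iUnion]
      exact ⟨fun ⟨m, hm, σ, hx⟩ => ⟨⟨⟨m, σ⟩, hm⟩, hx⟩, fun ⟨c, hx⟩ => ⟨_, c.2, c.1.2, hx⟩⟩
    rw [e]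
    exact (D.lf.comp_injective Subtype.val_injective).isClosed_iUnion fun c =>
      (isCompact_range (D.Φ c.1.2).continuous).isClosed
  · ext x
    simp only [mem_union, mem_iUnion]
    refine ⟨fun ⟨m, hm, σ, hx⟩ => ?_, ?_⟩
    · rcases Nat.lt_succ_iff_lt_or_eq.1 hm with h | rfl
      · exact Or.inl ⟨m, h, σ, hx⟩
      · exact Or.inr ⟨σ, hx⟩
    · rintro (h | ⟨σ, hx⟩)
      · exact D.Sk_mono n.le_succ h
      · exact ⟨n, n.lt_succ_self, σ, hx⟩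
  · rintro ⟨m, hm, τ, s, e⟩ ht
    obtain ⟨k, hk, ρ, u, hu, e', -⟩ := D.exists_inn τ s
    have := D.dim_eq ρ σ u t hu ht (e'.trans e)
    omega
  · obtain ⟨m, -, τ, s, -, e, h⟩ := D.exists_inn σ t
    exact e ▸ D.mem_Sk (h ht) τ s
  · exact D.lf.comp_injective (g := fun σ : D.K n => (⟨n, σ⟩ : Σ m, D.K m)) sigma_mk_injective

end Pool.Agent.Lib.LT
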