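import Pool.Agent.Lib.LT.Kit

/-! Chains in the open cells split cell by cell. -/

namespace Pool.Agent.Lib.LT

open Set Topology Pool.Agent.Lib.MP_77749b_gt

namespace SPLIT

variable {n : ℕ} {E : Type} [TopologicalSpace E] {A B : Set E} {J : Type} {Φ : J → Simplex E n}

/-- the coefficient of an interior simplex of a cell -/
theorem coeff (h : CA n A B Φ) {k : ℕ} (f : J →₀ Ch ℤ (Dl (n + 1)) (k + 1))
    (hf : ∀ j, f j ∈ In ℤ {t | Inn t} (k + 1)) (j : J) {τ : Sx (Dl (n + 1)) (k + 1)}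
    (hτ : τ ∈ (f j).support) :
    (f.sum fun j x => push (Φ j) (k + 1) x) ((Φ j).comp τ) = f j τ := by
  have hi : ∀ y, Inn (τ y) := fun y => mem_CS.1 (hf j) τ hτ ⟨y, rfl⟩
  rw [Finsupp.sum_apply, Finsupp.sum, Finset.sum_eq_single j]
  · refine Finsupp.mapDomain_apply' {σ : Sx (Dl (n + 1)) (k + 1) | range σ ⊆ {t | Inn t}} (f j)
      (fun σ hσ => mem_CS.1 (hf j) σ hσ) (fun σ hσ σ' _ e => ?_) (mem_CS.1 (hf j) τ hτ)
    exact ContinuousMap.ext fun y => (h.inj' (hσ ⟨y, rfl⟩) (DFunLike.congr_fun e y)).2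
  · refine fun i _ hij => Finsupp.mapDomain_of_notMem_range _ _ ?_
    rintro ⟨σ, e⟩
    exact hij (h.inj' (hi (ctr k)) (DFunLike.congr_fun e (ctr k)).symm).1.symm
  · intro hj
    rw [Finsupp.notMem_support_iff.1 hj, map_zero, Finsupp.zero_apply]

end SPLIT

theorem st_SPLIT (hLIFT : St_LIFT) : St_SPLIT := by
  intro n E _ _ A B J Φ h
  refine ⟨fun k c hc => ?_, fun k f hf hs j => ?_⟩
  · have := sc_Dl k
    obtain ⟨f, hf, e⟩ := CS_lin LinearMap.id
      ((⨅ j, (In ℤ {t | Inn t} (k + 1)).comap (Finsupp.lapply j)).map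
        (Finsupp.lsum ℤ fun j => push (R := ℤ) (Φ j) (k + 1))) (fun σ hσ => by
        obtain ⟨j, g, hg, e⟩ := hLIFT n E A B J Φ h _ σ hσ
        refine ⟨Finsupp.single j (Finsupp.single g 1), (Submodule.mem_iInf _).2 fun i => ?_, ?_⟩
        · rw [Submodule.mem_comap, Finsupp.lapply_apply]
          rcases eq_or_ne j i with rfl | hi
          · rw [Finsupp.single_eq_same]
            exact single_CS (P := (· ⊆ {t | Inn t})) (range_subset_iff.2 hg) _
          · rw [Finsupp.single_eq_of_ne' hi]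
            exact zero_mem _
        · rw [Finsupp.lsum_single, push_single, LinearMap.id_apply]
          exact congrArg (Finsupp.single · 1) (ContinuousMap.ext fun y => (e y).symm)) hc
    exact ⟨f, fun j => (Submodule.mem_iInf _).1 hf j, e.symm⟩
  · rcases k with _ | k
    · exact In_zero _ _
    refine mem_CS.2 fun τ hτ => ?_
    have h1 := mem_CS.1 hs ((Φ j).comp τ) (by
      rw [Finsupp.mem_support_iff, SPLIT.coeff h f hf j hτ]
      exact Finsupp.mem_support_iff.1 hτ)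
    rintro _ ⟨y, rfl⟩ e
    exact h1 ⟨y, rfl⟩ (h.mem_Ctr.2 e)

end Pool.Agent.Lib.LT
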