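import Pool.Agent.Lib.LT.Kit

/-! Star shaped subsets of a simplex are acyclic. -/

namespace Pool.Agent.Lib.LT

open Set Topology Pool.Agent.Lib.MP_77749b_gt

namespace STAR

/-- the straight line equiconnecting function of a simplex -/
noncomputable def line (m : ℕ) : LEC (Dl m) where
  lam a y t := ⟨(1 - (t : ℝ)) • y.1 + (t : ℝ) • a.1,
    convex_stdSimplex ℝ (Fin m) y.2 a.2 (sub_nonneg.2 t.2.2) t.2.1 (sub_add_cancel _ _)⟩
  N := univ
  isOpen := isOpen_univ
  diag _ := mem_univ _
  cont := Continuous.continuousOn (Continuous.subtype_mk (by fun_prop) _)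
  zero a y _ := Subtype.ext (by simp)
  one a y _ := Subtype.ext (by simp)
  self a t := Subtype.ext (by simp [← add_smul])

end STAR

theorem st_STAR : St_STAR := by
  intro m A a ha h k c hc h0
  have hk : (STAR.line m).Ok a A A :=
    ⟨ha, fun _ _ => mem_univ _, fun y hy t => h y hy t _ t.2.1 t.2.2 rfl⟩
  exact hk.fill hc h0

end Pool.Agent.Lib.LT
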