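import Pool.Agent.Lib.LT.B_FACE
import Pool.Agent.Lib.LT.B_REAL
import Pool.Agent.Lib.LT.B_QUOT
import Pool.Agent.Lib.LT.B_BALL
import Pool.Agent.Lib.LT.B_CW
import Pool.Agent.Lib.LT.B_SK
import Pool.Agent.Lib.LT.B_RHO
import Pool.Agent.Lib.LT.B_RETR
import Pool.Agent.Lib.LT.B_HINV
import Pool.Agent.Lib.LT.B_STAR
import Pool.Agent.Lib.LT.B_LIFT
import Pool.Agent.Lib.LT.B_SPLIT
import Pool.Agent.Lib.LT.B_EXC
import Pool.Agent.Lib.LT.B_MOD
import Pool.Agent.Lib.LT.B_CMP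
import Pool.Agent.Lib.LT.B_SDR
import Pool.Agent.Lib.LT.B_COH
import Pool.Agent.Lib.LT.B_COVER
import Pool.Agent.Lib.LT.B_KP
import Pool.Agent.Lib.LT.B_SC
import Pool.Agent.Lib.LT.B_POT
import Pool.Agent.Lib.LT.B_MAT
import Pool.Agent.Lib.LT.B_DICT
import Pool.Agent.Lib.LT.B_ALG1
import Pool.Agent.Lib.LT.B_ALG2

/-! The bridge from combinatorial duality complexes to spaces. -/

namespace Pool.Agent.Lib.LT

theorem bridge : St_BRIDGE :=
  bridge_of (st_EXC st_RHO (st_RETR st_RHO) st_HINV (st_SPLIT st_LIFT)) (st_MOD st_STAR)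
    (st_CMP st_SK) st_KP (st_SC st_SK (st_RETR st_RHO) st_LIFT st_COVER) st_POT (st_REAL st_FACE)
    st_QUOT (st_CW st_BALL) st_SDR st_COH (st_ALG1 st_MAT st_DICT) st_ALG2

end Pool.Agent.Lib.LT
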