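import Pool.Agent.Lib.LT.Kit

/-! Simplicial chains of a Delta-complex compute its singular homology. -/

namespace Pool.Agent.Lib.LT

open Set Topology Pool.Agent.Lib.MP_77749b_gt

namespace CMP

variable {E : Type} [TopologicalSpace E] (D : DS E)

/-- the realisation of simplicial chains -/
noncomputable abbrev F (k : ℕ) : (D.K k →₀ ℤ) →ₗ[ℤ] Ch ℤ E (k + 1) := md D.Φ

theorem F_In {k N : ℕ} (h : k < N) (c : D.K k →₀ ℤ) : F D k c ∈ In ℤ (D.Sk N) (k + 1) :=
  md_mem (P := univ) _ (fun σ _ => range_subset_iff.2 (D.mem_Sk h σ)) (by simp)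

theorem F_inj (k : ℕ) : Function.Injective (F D k) :=
  Finsupp.mapDomain_injective (D.Φ_inj k)

theorem bd_F {k : ℕ} (c : D.K (k + 1) →₀ ℤ) :
    bd (k + 1) (F D (k + 1) c) = F D k (kbdL D.d c) := by
  rw [← kbd_eq]
  exact D.bd_Φ c

theorem eq_zero {k : ℕ} (h : ∀ σ : D.K k, D.Φ σ (ctr k) ∉ D.Sk k) {c : D.K k →₀ ℤ}
    (hc : F D k c ∈ In ℤ (D.Sk k) (k + 1)) : c = 0 := by
  ext σ
  by_contra hσ
  refine h σ (mem_CS.1 hc (D.Φ σ) (Finsupp.mem_support_iff.2 ?_) ⟨_, rfl⟩)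
  rwa [F, Finsupp.lmapDomain_apply, Finsupp.mapDomain_apply (D.Φ_inj k)]

variable (hc : ∀ k (σ : D.K k), D.Φ σ (ctr k) ∉ D.Sk k)
  (hr : ∀ n, Rel n (D.Sk n) (D.Sk (n + 1)) (D.Φ : D.K n → Simplex E n))
include hc hr

theorem inj (N : ℕ) : ∀ k (c : D.K k →₀ ℤ), ∀ d ∈ In ℤ (D.Sk N) (k + 2),
    F D k c = bd (k + 1) d → (∃ c', kbdL D.d c' = c) ∧ (N ≤ k + 1 → c = 0) := by
  have z : ∀ {k} {c : D.K k →₀ ℤ} {p : Prop}, c = 0 → (∃ c', kbdL D.d c' = c) ∧ (p → c = 0) :=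
    fun h => ⟨⟨0, by rw [map_zero, h]⟩, fun _ => h⟩
  induction N with
  | zero =>
    intro k c d hd e
    rw [D.Sk_zero] at hd
    rw [In_empty hd, map_zero] at e
    exact z (F_inj D k (e.trans (map_zero _).symm))
  | succ N ih =>
    intro k c d hd e
    rcases lt_trichotomy k N with h | rfl | h
    · have hb : bd (k + 1) d ∈ In ℤ (D.Sk N) (k + 1) := e ▸ F_In D h c
      refine ⟨?_, fun h' => absurd h' (by omega)⟩
      by_cases h1 : k + 1 = N
      · subst h1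
        obtain ⟨a, u, -, hu⟩ := (hr (k + 1)).surj d hd hb
        refine ⟨a, (sub_eq_zero.1 ((ih k (c - kbdL D.d a) _ hu ?_).2 le_rfl)).symm⟩
        rw [map_sub, map_sub, map_sub, bd_bd, sub_zero, e, ← bd_F]
        rfl
      · obtain ⟨u, -, hu⟩ := (hr N).ne (k + 1) h1 d hd hb
        exact (ih k c _ hu (by rw [map_sub, bd_bd, sub_zero, e])).1
    · exact z ((hr k).inj c (by
        have := RelB.of_bd (A := D.Sk k) hd
        rwa [← e] at this))
    · exact z (eq_zero D (hc k) (e ▸ In_mono (D.Sk_mono h) _ (bd_In hd)))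

theorem surj (N : ℕ) : ∀ k, ∀ z ∈ In ℤ (D.Sk N) (k + 1), bd k z ∈ In ℤ ∅ k →
    ∃ c : D.K k →₀ ℤ, ∃ d, bd (k + 1) d = z - F D k c := by
  induction N with
  | zero =>
    intro k z hz _
    rw [D.Sk_zero] at hz
    exact ⟨0, 0, by rw [In_empty hz, map_zero, map_zero, sub_zero]⟩
  | succ N ih =>
    intro k z hz hb
    have hb' : bd k z ∈ In ℤ (D.Sk N) k := In_mono (empty_subset _) _ hb
    by_cases h : k = N
    · subst h
      obtain ⟨a, u, -, hu⟩ := (hr k).surj z hz hb'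
      have hu' : z - F D k a - bd (k + 1) u ∈ In ℤ (D.Sk k) (k + 1) := hu
      obtain ⟨c, d, e⟩ := ih k _ hu' (by
        cases k with
        | zero => exact In_zero _ _
        | succ k =>
          have e : bd (k + 1) (z - F D (k + 1) a - bd (k + 2) u) = F D k (-kbdL D.d a) := by
            rw [map_sub, map_sub, bd_bd, In_empty hb, bd_F, map_neg, sub_zero, zero_sub]
          rw [e, (inj D hc hr (k + 1) k _ _ hu' e.symm).2 le_rfl, map_zero]
          exact zero_mem _)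
      exact ⟨a + c, d + u, by rw [map_add, map_add, e]; abel⟩
    · obtain ⟨u, -, hu⟩ := (hr N).ne k h z hz hb'
      obtain ⟨c, d, e⟩ := ih k _ hu (by rwa [map_sub, bd_bd, sub_zero])
      exact ⟨c, d + u, by rw [map_add, e]; abel⟩

end CMP

theorem st_CMP (hSK : St_SK) : St_CMP := by
  intro hR E _ _ D
  have hc : ∀ k (σ : D.K k), D.Φ σ (ctr k) ∉ D.Sk k := fun k σ h =>
    ((hSK E D k).bdy σ _).1 h (inn_ctr k)
  have hr := fun n => hR n E _ _ _ _ (hSK E D n)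
  obtain ⟨N, hN⟩ := D.Sk_top
  have hU : ∀ k (z : Ch ℤ E k), z ∈ In ℤ (D.Sk N) k := fun k z => hN N le_rfl ▸ In_univ z
  refine ⟨fun k z hz => ?_, fun k c ⟨d, e⟩ => ?_⟩
  · obtain ⟨c, d, e⟩ := CMP.surj D hc hr N k z (hU _ _) (by
      cases k with
      | zero => exact In_zero _ _
      | succ k =>
        rw [← bdry_eq, show bdry z = 0 from hz]
        exact zero_mem _)
    exact ⟨c, d, (bdry_eq d).trans e⟩
  · obtain ⟨c', h⟩ := (CMP.inj D hc hr N k c d (hU _ _) (e.symm.trans (bdry_eq d))).1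
    exact ⟨c', (kbd_eq _ _).trans h⟩

end Pool.Agent.Lib.LT
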