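import Pool.Agent.Lib.LT.Kit

namespace Pool.Agent.Lib.LT

namespace FACE

theorem le_of {m n : ℕ} (u : Fin (m + 1) ↪o Fin (n + 1)) : m ≤ n := by
  simpa using Fintype.card_le_of_injective u u.injective

theorem fac {m n : ℕ} (u : Fin (m + 1) ↪o Fin (n + 2)) (k : Fin (n + 2)) (h : ∀ i, u i ≠ k) :
    ∃ w : Fin (m + 1) ↪o Fin (n + 1), u = w.trans (Fin.succAboveOrderEmb k) := by
  choose z hz using fun i => Fin.exists_succAbove_eq (h i)
  refine ⟨OrderEmbedding.ofStrictMono z fun a b hab => ?_, RelEmbedding.ext fun i => (hz i).symm⟩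
  rw [← (Fin.succAboveOrderEmb k).lt_iff_lt]
  simpa [hz] using hab

theorem fac' {m n : ℕ} (u : Fin (m + 1) ↪o Fin (n + 2)) (h : m ≠ n + 1) :
    ∃ p : Fin (n + 2) × (Fin (m + 1) ↪o Fin (n + 1)),
      u = p.2.trans (Fin.succAboveOrderEmb p.1) := by
  have : ¬ Function.Surjective u := fun hs => h (by
    simpa using Fintype.card_of_bijective ⟨u.injective, hs⟩)
  obtain ⟨k, hk⟩ := not_forall.1 this
  obtain ⟨w, hw⟩ := fac u k fun i e => hk ⟨i, e⟩
  exact ⟨(k, w), hw⟩

theorem dd {n : ℕ} {i j : Fin (n + 2)} (h : i ≤ j) (x : Fin (n + 1)) :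
    i.castSucc.succAbove (j.succAbove x) = j.succ.succAbove (i.succAbove x) := by
  apply Fin.ext
  simp only [Fin.succAbove, Fin.lt_def, Fin.le_def, apply_ite Fin.val, Fin.val_castSucc,
    Fin.val_succ] at *
  split_ifs <;> omega

variable {G : Type} [Group G] (C : CD G)

/-- iterated faces -/
noncomputable def fc (m : ℕ) : ∀ n, (Fin (m + 1) ↪o Fin (n + 1)) → G × C.L n → G × C.L m
  | 0, u, σ => (Nat.le_zero.1 (le_of u)).symm ▸ σ
  | n + 1, u, σ => if h : m = n + 1 then h.symm ▸ σ else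
      fc m n (fac' u h).choose.2 (C.f (fac' u h).choose.1 σ)

theorem fc_self (n : ℕ) (u : Fin (n + 1) ↪o Fin (n + 1)) (σ : G × C.L n) : fc C n n u σ = σ := by
  cases n
  · rfl
  · simp [fc]

theorem fc_sh (m : ℕ) (g : G) : ∀ (n : ℕ) (u : Fin (m + 1) ↪o Fin (n + 1)) (σ : G × C.L n),
    fc C m n u (sh g σ) = sh g (fc C m n u σ)
  | 0, u, σ => by
    obtain rfl := Nat.le_zero.1 (le_of u)
    rfl
  | n + 1, u, σ => by
    by_cases h : m = n + 1
    · subst h
      rw [fc_self, fc_self]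
    · rw [fc, fc, dif_neg h, dif_neg h, C.f_sh, fc_sh m g n]

theorem fc_f (m : ℕ) : ∀ (n : ℕ) (u : Fin (m + 1) ↪o Fin (n + 1)) (k : Fin (n + 2))
    (σ : G × C.L (n + 1)), fc C m n u (C.f k σ) =
      fc C m (n + 1) (u.trans (Fin.succAboveOrderEmb k)) σ := by
  intro n
  induction n using Nat.strong_induction_on with
  | _ n ih =>
  have key : ∀ (u u' : Fin (m + 1) ↪o Fin (n + 1)) (k k' : Fin (n + 2)) (σ : G × C.L (n + 1)),
      k < k' → (∀ x, k.succAbove (u x) = k'.succAbove (u' x)) →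
      fc C m n u (C.f k σ) = fc C m n u' (C.f k' σ) := by
    intro u u' k k' σ hk e
    obtain ⟨i, rfl⟩ := Fin.exists_castSucc_eq.2 (Fin.ne_last_of_lt hk)
    obtain ⟨j, rfl⟩ := Fin.exists_succ_eq.2 (Fin.ne_zero_of_lt hk)
    have hij : i ≤ j := Fin.castSucc_lt_succ_iff.1 hk
    have h1 : ∀ x, u x ≠ j := fun x hx => Fin.succAbove_ne j.succ (u' x) (by
      rw [← e, hx, Fin.succAbove_castSucc_of_le _ _ hij])
    have h2 : ∀ x, u' x ≠ i := fun x hx => Fin.succAbove_ne i.castSucc (u x) (by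
      rw [e, hx, Fin.succAbove_succ_of_le _ _ hij])
    cases n with
    | zero => exact absurd (Subsingleton.elim (α := Fin 1) _ _) (h1 0)
    | succ n =>
      obtain ⟨w, rfl⟩ := fac u j h1
      obtain ⟨w', rfl⟩ := fac u' i h2
      obtain rfl : w = w' := RelEmbedding.ext fun x =>
        Fin.succAbove_right_injective (Fin.succAbove_right_injective ((dd hij _).symm.trans (e x)))
      rw [← ih n (by omega), ← ih n (by omega), C.f_f i j hij]
  intro u k σ
  have h : m ≠ n + 1 := by have := le_of u; omega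
  rw [fc, dif_neg h]
  have e := (fac' (u.trans (Fin.succAboveOrderEmb k)) h).choose_spec
  generalize (fac' (u.trans (Fin.succAboveOrderEmb k)) h).choose = p at e ⊢
  obtain ⟨k', u'⟩ := p
  have e' : ∀ x, k.succAbove (u x) = k'.succAbove (u' x) := fun x => congrArg (fun v => v x) e
  rcases lt_trichotomy k k' with hk | rfl | hk
  · exact key u u' k k' σ hk e'
  · obtain rfl : u = u' := RelEmbedding.ext fun x => Fin.succAbove_right_injective (e' x)
    rfl
  · exact (key u' u k' k σ hk fun x => (e' x).symm).symm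

end FACE

theorem st_FACE : St_FACE := fun _ _ C =>
  ⟨fun {m n} => FACE.fc C m n, FACE.fc_self C, FACE.fc_f C, fun m n u g σ => FACE.fc_sh C m g n u σ⟩

end Pool.Agent.Lib.LT
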