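import Pool.Agent.Lib.LT.Defs

/-! Block statements for the bridge, and the glue. -/

namespace Pool.Agent.Lib.LT

open Set Topology Matrix Pool.Agent.Lib.MP_77749b_gt Pool.Agent.PD3

/-- radial deformation of the punctured simplex -/
def St_RHO : Prop := ∀ n, ∃ ρ, Def (Bdy (n + 1)) {ctr n}ᶜ ρ

/-- deformation of the punctured cells -/
def St_RETR : Prop :=
  ∀ (n : ℕ) (E : Type) [TopologicalSpace E] [T2Space E] (A B : Set E) (J : Type)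
    (Φ : J → Simplex E n), CA n A B Φ → ∃ H, Def A (B \ Ctr Φ) H ∧
      ∀ j t, t ≠ ctr n → ∃ γ : C(unitInterval, Dl (n + 1)), γ 0 = t ∧
        ∀ s, H (Φ j t) s = Φ j (γ s)

/-- homotopy invariance -/
def St_HINV : Prop :=
  ∀ (E : Type) [TopologicalSpace E] (A U : Set E) (H : E → unitInterval → E), A ⊆ U → Def A U H →
    ∀ k, ∀ c ∈ In ℤ U (k + 1), bd k c ∈ In ℤ A k → RelB A U c

/-- star shaped sets are acyclic -/
def St_STAR : Prop :=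
  ∀ (m : ℕ) (A : Set (Dl m)) (a : Dl m), a ∈ A →
    (∀ x ∈ A, ∀ (s : ℝ) (y : Dl m), 0 ≤ s → s ≤ 1 → y.1 = (1 - s) • x.1 + s • a.1 → y ∈ A) →
    ∀ k, ∀ c ∈ In ℤ A (k + 1), bd k c = 0 → ∃ d ∈ In ℤ A (k + 2), bd (k + 1) d = c

/-- connected pieces of `B \ A` lift to one open cell -/
def St_LIFT : Prop :=
  ∀ (n : ℕ) (E : Type) [TopologicalSpace E] [T2Space E] (A B : Set E) (J : Type)
    (Φ : J → Simplex E n), CA n A B Φ →
    ∀ (Y : Type) [TopologicalSpace Y] [ConnectedSpace Y] (f : C(Y, E)), range f ⊆ B \ A →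
      ∃ j, ∃ g : C(Y, Dl (n + 1)), (∀ y, Inn (g y)) ∧ ∀ y, f y = Φ j (g y)

/-- chains in the open cells -/
def St_SPLIT : Prop :=
  ∀ (n : ℕ) (E : Type) [TopologicalSpace E] [T2Space E] (A B : Set E) (J : Type)
    (Φ : J → Simplex E n), CA n A B Φ →
    (∀ k, ∀ c ∈ In ℤ (B \ A) (k + 1), ∃ f : J →₀ Ch ℤ (Dl (n + 1)) (k + 1),
      (∀ j, f j ∈ In ℤ {t | Inn t} (k + 1)) ∧ c = f.sum fun j x => push (Φ j) (k + 1) x) ∧
    ∀ (k : ℕ) (f : J →₀ Ch ℤ (Dl (n + 1)) k), (∀ j, f j ∈ In ℤ {t | Inn t} k) →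
      (f.sum fun j x => push (Φ j) k x) ∈ In ℤ (Ctr Φ)ᶜ k → ∀ j, f j ∈ In ℤ {ctr n}ᶜ k

/-- excision -/
def St_EXC : Prop := ∀ n, MODEL n → REL n

/-- the simplex modulo its boundary -/
def St_MOD : Prop := MODEL 0 ∧ ∀ n, REL n → MODEL (n + 1)

/-- skeleta -/
def St_SK : Prop :=
  ∀ (E : Type) [TopologicalSpace E] [T2Space E] (D : DS E) (n : ℕ),
    CA n (D.Sk n) (D.Sk (n + 1)) (D.Φ : D.K n → Simplex E n)

/-- simplicial against singular homology -/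
def St_CMP : Prop :=
  (∀ n, REL n) → ∀ (E : Type) [TopologicalSpace E] [T2Space E] (D : DS E), D.QI

/-- subdividing paths -/
def St_COVER : Prop :=
  ∀ (E : Type) [TopologicalSpace E] (x₀ : E) (c : ∀ x, PQ x₀ x) (B U V : Set E),
    IsOpen U → IsOpen V → B ⊆ U ∪ V → Pot c (B ∩ U) → Pot c (B ∩ V) → Pot c B

/-- from vertices to cells -/
def St_KP : Prop :=
  ∀ (E : Type) [TopologicalSpace E] (D : DS E) (x₀ : E), D.VP x₀ → ∃ c : ∀ x, PQ x₀ x, D.CP c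

/-- simple connectivity -/
def St_SC : Prop :=
  ∀ (E : Type) [TopologicalSpace E] [T2Space E] (D : DS E) (x₀ : E) (c : ∀ x, PQ x₀ x),
    D.CP c → SimplyConnectedSpace E

/-- the presentation gives classes of paths to the vertices -/
def St_POT : Prop :=
  ∀ (X : DeltaCx) (E : Type) [TopologicalSpace E] [MulAction X.pi1 E]
    [ContinuousConstSMul X.pi1 E] (R : Real (cdOf X) E), ∃ x₀, R.ds.VP x₀

/-- iterated faces -/
def St_FACE : Prop :=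
  ∀ (G : Type) [Group G] (C : CD G),
    ∃ face : ∀ {m n : ℕ}, (Fin (m + 1) ↪o Fin (n + 1)) → G × C.L n → G × C.L m,
      (∀ (n : ℕ) (u : Fin (n + 1) ↪o Fin (n + 1)) σ, face u σ = σ) ∧
      (∀ (m n : ℕ) (u : Fin (m + 1) ↪o Fin (n + 1)) (k : Fin (n + 2)) σ,
        face u (C.f k σ) = face (u.trans (Fin.succAboveOrderEmb k)) σ) ∧
      ∀ (m n : ℕ) (u : Fin (m + 1) ↪o Fin (n + 1)) (g : G) σ, face u (sh g σ) = sh g (face u σ)

/-- existence of the realisation -/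
def St_REAL : Prop :=
  ∀ (G : Type) [Group G] (C : CD G), ∃ (E : Type) (_ : TopologicalSpace E) (_ : T2Space E)
    (_ : MulAction G E) (_ : ContinuousConstSMul G E), Nonempty (Real C E)

/-- the orbit space -/
def St_QUOT : Prop :=
  ∀ (G : Type) [Group G] (C : CD G) (E : Type) [TopologicalSpace E] [T2Space E] [MulAction G E]
    [ContinuousConstSMul G E], Real C E →
    IsQuotientCoveringMap (Quotient.mk (MulAction.orbitRel G E)) G ∧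
      T2Space (Quotient (MulAction.orbitRel G E))

/-- balls and simplices -/
def St_BALL : Prop :=
  ∀ n, ∃ h : (Fin n → ℝ) → Dl (n + 1), ContinuousOn h (Metric.closedBall 0 1) ∧
    BijOn h (Metric.closedBall 0 1) univ ∧
    ∀ x ∈ Metric.closedBall 0 1, Inn (h x) ↔ x ∈ Metric.ball 0 1

/-- the cell structure of the orbit space -/
def St_CW : Prop :=
  ∀ (G : Type) [Group G] (C : CD G) (E : Type) [TopologicalSpace E] [MulAction G E]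
    [ContinuousConstSMul G E], Real C E →
    ∀ (X : Type) [TopologicalSpace X] [T2Space X] (p : C(E, X)), IsQuotientCoveringMap p G →
      ∃ _ : CWComplex (univ : Set X), CWComplex.Finite (univ : Set X)

/-- the equivariant retraction -/
def St_SDR : Prop :=
  ∀ (G : Type) [Group G] (C : CD G) (E : Type) [TopologicalSpace E] [MulAction G E]
    [ContinuousConstSMul G E] (R : Real C E), R.ds.QI → ∃ r h, R.SDR r h

/-- cohomology -/
def St_COH : Prop :=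
  ∀ (G : Type) [Group G] (C : CD G) (E : Type) [TopologicalSpace E] [MulAction G E]
    [ContinuousConstSMul G E] (R : Real C E) r h, R.SDR r h → R.QC

/-- chain equivalences on homology -/
def St_MAT : Prop :=
  ∀ (R : Type) [Ring R] (a0 a1 a2 a3 b0 b1 b2 b3 : Type) [Fintype a0] [Fintype a1] [Fintype a2]
    [Fintype a3] [Fintype b0] [Fintype b1] [Fintype b2] [Fintype b3] [DecidableEq a0]
    [DecidableEq a1] [DecidableEq a2] [DecidableEq a3] [DecidableEq b0] [DecidableEq b1]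
    [DecidableEq b2] [DecidableEq b3]
    (A1 : Matrix a1 a0 R) (A2 : Matrix a2 a1 R) (A3 : Matrix a3 a2 R)
    (B1 : Matrix b1 b0 R) (B2 : Matrix b2 b1 R) (B3 : Matrix b3 b2 R)
    (F0 : Matrix a0 b0 R) (F1 : Matrix a1 b1 R) (F2 : Matrix a2 b2 R) (F3 : Matrix a3 b3 R),
    IsChainEquiv A1 A2 A3 B1 B2 B3 F0 F1 F2 F3 →
    ((∀ x, (∃ u, u ᵥ* B1 = x ᵥ* F0) ↔ ∃ v, v ᵥ* A1 = x) ∧ ∀ c, ∃ x u, u ᵥ* B1 = x ᵥ* F0 - c) ∧
    ((∀ x, x ᵥ* A1 = 0 → x ᵥ* F1 ᵥ* B1 = 0 ∧ ((∃ u, u ᵥ* B2 = x ᵥ* F1) ↔ ∃ v, v ᵥ* A2 = x)) ∧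
      ∀ c, c ᵥ* B1 = 0 → ∃ x, x ᵥ* A1 = 0 ∧ ∃ u, u ᵥ* B2 = x ᵥ* F1 - c) ∧
    ((∀ x, x ᵥ* A2 = 0 → x ᵥ* F2 ᵥ* B2 = 0 ∧ ((∃ u, u ᵥ* B3 = x ᵥ* F2) ↔ ∃ v, v ᵥ* A3 = x)) ∧
      ∀ c, c ᵥ* B2 = 0 → ∃ x, x ᵥ* A2 = 0 ∧ ∃ u, u ᵥ* B3 = x ᵥ* F2 - c) ∧
    ((∀ x, x ᵥ* A3 = 0 → x ᵥ* F3 ᵥ* B3 = 0 ∧ (x ᵥ* F3 = 0 ↔ x = 0)) ∧
      ∀ c, c ᵥ* B3 = 0 → ∃ x, x ᵥ* A3 = 0 ∧ x ᵥ* F3 = c)

/-- chains and cochains of the cover as row vectors -/
def St_DICT : Prop :=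
  ∀ (G : Type) [Group G] (C : CD G) [∀ n, Fintype (C.L n)] [∀ n, DecidableEq (C.L n)],
    ∃ T : ∀ n, (G × C.L n →₀ ℤ) ≃+ (C.L n → Lam G),
      (∀ n (c : G × C.L (n + 1) →₀ ℤ), T n (kbd C.f c) = T (n + 1) c ᵥ* C.B n) ∧
      (∀ n (ψ : G × C.L n → Lam G), KCoch ψ →
        KCoch (C.kcobd ψ) ∧ yv (C.kcobd ψ) = yv ψ ᵥ* adj (C.B n)) ∧
      (∀ n (y : C.L n → Lam G), ∃ ψ : G × C.L n → Lam G, KCoch ψ ∧ yv ψ = y) ∧
      (∀ n (ψ ψ' : G × C.L n → Lam G), KCoch ψ → KCoch ψ' → yv ψ = yv ψ' → ψ = ψ') ∧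
      ∀ (k l : ℕ) (F : G × C.L 3 → G × C.L k) (Bk : G × C.L 3 → G × C.L l) (F' : C.L 3 → C.L k)
        (w : C.L 3 → G) (B' : C.L 3 → C.L l) (c : C.L 3 → ℤ), (∀ s, F (1, s) = (1, F' s)) →
        (∀ s, Bk (1, s) = (w s, B' s)) → ∀ ψ : G × C.L k → Lam G,
        T l (kcap F Bk (∑ s, Finsupp.single (1, s) (c s)) ψ) =
          yv ψ ᵥ* ∑ s, Matrix.single (F' s) (B' s) (MonoidAlgebra.single (w s) (c s))

/-- duality for the cover from the matrices -/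
def St_ALG1 : Prop := ∀ X : DeltaCx, X.IsPD3 → (cdOf X).PDK

/-- singular duality -/
def St_ALG2 : Prop :=
  ∀ (G : Type) [Group G] (C : CD G) (E : Type) [TopologicalSpace E] [MulAction G E]
    [ContinuousConstSMul G E] (R : Real C E), C.PDK → R.ds.QI → R.QC →
    ∀ (X : Type) [TopologicalSpace X] (p : C(E, X)), (∀ (g : G) e, p (g • e) = p e) → IsPD3 G p

/-- the bridge -/
def St_BRIDGE : Prop :=
  ∀ Y : DeltaCx, Y.IsPD3 →
    ∃ (X : Type) (_ : TopologicalSpace X) (_ : T2Space X) (_ : CWComplex (univ : Set X))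
      (_ : CWComplex.Finite (univ : Set X)) (_ : PathConnectedSpace X) (x₀ : X)
      (E : Type) (_ : TopologicalSpace E) (_ : SimplyConnectedSpace E) (p : C(E, X))
      (G : Type) (_ : Group G) (_ : MulAction G E) (_ : ContinuousConstSMul G E),
      IsQuotientCoveringMap p G ∧ IsPD3 G p ∧ Nonempty (FundamentalGroup X x₀ ≃* Y.pi1)

theorem rel_all (hE : St_EXC) (hM : St_MOD) : ∀ n, REL n
  | 0 => hE 0 hM.1
  | n + 1 => hE _ (hM.2 n (rel_all hE hM n))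

theorem bridge_of (hEXC : St_EXC) (hMOD : St_MOD) (hCMP : St_CMP) (hKP : St_KP) (hSC : St_SC)
    (hPOT : St_POT) (hREAL : St_REAL) (hQUOT : St_QUOT) (hCW : St_CW) (hSDR : St_SDR)
    (hCOH : St_COH) (hALG1 : St_ALG1) (hALG2 : St_ALG2) : St_BRIDGE := by
  intro Y hY
  obtain ⟨E, _, _, _, _, ⟨R⟩⟩ := hREAL Y.pi1 (cdOf Y)
  obtain ⟨hq, hT⟩ := hQUOT _ _ E R
  obtain ⟨e₀, hv⟩ := hPOT Y E R
  obtain ⟨c, hc⟩ := hKP E R.ds e₀ hv
  have hs := hSC E R.ds e₀ c hc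
  have hQ := hCMP (rel_all hEXC hMOD) E R.ds
  obtain ⟨r, h, hr⟩ := hSDR _ _ E R hQ
  let p : C(E, Quotient (MulAction.orbitRel Y.pi1 E)) := ⟨_, hq.continuous⟩
  obtain ⟨i1, i2⟩ := hCW _ _ E R _ p hq
  exact ⟨_, inferInstance, hT, i1, i2, hq.surjective.pathConnectedSpace hq.continuous, p e₀, E,
    inferInstance, hs, p, Y.pi1, inferInstance, inferInstance, inferInstance, hq,
    hALG2 _ _ E R (hALG1 Y hY) hQ (hCOH _ _ E R r h hr) _ p fun g _ => hq.map_smul g,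
    ⟨(hq.fundamentalGroupEquiv ⟨e₀, rfl⟩).trans (MulEquiv.inv' Y.pi1).symm⟩⟩

end Pool.Agent.Lib.LT
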