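import Pool.Agent.Lib.LT.SDefs
import Pool.Agent.Lib.MP_77749b_gt.Cone
import Pool.Agent.Lib.MP_f61c0f_gt.Defs

/-! Definitions for the bridge from combinatorial Delta-complexes to spaces. -/

namespace Pool.Agent.Lib.LT

open Set Topology Pool.Agent.Lib.MP_77749b_gt

noncomputable section

/-- interior points of a simplex -/
def Inn {k : ℕ} (t : Dl k) : Prop := ∀ i, 0 < t i

/-- the boundary of a simplex -/
def Bdy (k : ℕ) : Set (Dl k) := {t | ¬ Inn t}

/-- the barycentre -/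
def ctr (n : ℕ) : Dl (n + 1) := stdSimplex.barycenter

section top

variable {E : Type} [TopologicalSpace E]

/-- `B` is obtained from `A` by attaching the `n`-cells `Φ j` -/
structure CA (n : ℕ) (A B : Set E) {J : Type} (Φ : J → Simplex E n) : Prop where
  closed : IsClosed A
  union : B = A ∪ ⋃ j, range (Φ j)
  bdy : ∀ j t, Φ j t ∈ A ↔ ¬ Inn t
  inj : ∀ j j' t t', Inn t → Inn t' → Φ j t = Φ j' t' → j = j' ∧ t = t'
  lf : LocallyFinite fun j => range (Φ j)

/-- the centres of the cells -/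
def Ctr {n : ℕ} {J : Type} (Φ : J → Simplex E n) : Set E := range fun j => Φ j (ctr n)

/-- a deformation of `U` into `A` -/
structure Def (A U : Set E) (H : E → unitInterval → E) : Prop where
  cont : ContinuousOn (fun q : E × unitInterval => H q.1 q.2) (U ×ˢ univ)
  zero : ∀ x ∈ U, H x 0 = x
  one : ∀ x ∈ U, H x 1 ∈ A
  mem : ∀ x ∈ U, ∀ s, H x s ∈ U
  fix : ∀ x ∈ A, ∀ s, H x s = x

/-- relative boundaries of the pair `(B, A)` -/
def RelB (A B : Set E) {k : ℕ} (c : Ch ℤ E (k + 1)) : Prop :=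
  ∃ d ∈ In ℤ B (k + 2), c - bd (k + 1) d ∈ In ℤ A (k + 1)

/-- the relative homology of `(B, A)` is free on the cells `Φ j`, in degree `n` -/
structure Rel (n : ℕ) (A B : Set E) {J : Type} (Φ : J → Simplex E n) : Prop where
  ne : ∀ k, k ≠ n → ∀ c ∈ In ℤ B (k + 1), bd k c ∈ In ℤ A k → RelB A B c
  surj : ∀ c ∈ In ℤ B (n + 1), bd n c ∈ In ℤ A n →
    ∃ a : J →₀ ℤ, RelB A B (c - a.mapDomain Φ)
  inj : ∀ a : J →₀ ℤ, RelB A B (k := n) (a.mapDomain Φ) → a = 0

/-- the statement for the simplex modulo its boundary -/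
def MODEL (n : ℕ) : Prop :=
  Rel n (Bdy (n + 1)) univ fun _ : Unit => (ContinuousMap.id (Dl (n + 1)) : Simplex (Dl (n + 1)) n)

/-- the statement for all attachments of `n`-cells -/
def REL (n : ℕ) : Prop :=
  ∀ (E : Type) [TopologicalSpace E] [T2Space E] (A B : Set E) (J : Type) (Φ : J → Simplex E n),
    CA n A B Φ → Rel n A B Φ

variable (E) in
/-- a locally finite, finite dimensional Delta-complex structure on a space -/
structure DS where
  K : ℕ → Type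
  d : ∀ {n}, Fin (n + 2) → K (n + 1) → K n
  Φ : ∀ {n}, K n → Simplex E n
  Φ_d : ∀ {n} (i : Fin (n + 2)) (σ : K (n + 1)), Φ (d i σ) = pull i.succAbove (Φ σ)
  cover : ∀ x, ∃ (n : ℕ) (σ : K n) (t : Dl (n + 1)), Inn t ∧ Φ σ t = x
  dim_eq : ∀ {m n} (σ : K m) (τ : K n) s t, Inn s → Inn t → Φ σ s = Φ τ t → m = n
  uniq : ∀ {n} (σ τ : K n) s t, Inn s → Inn t → Φ σ s = Φ τ t → σ = τ ∧ s = t
  lf : LocallyFinite fun c : Σ n, K n => range (Φ c.2)
  top : ∃ N, ∀ n, N ≤ n → IsEmpty (K n)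

/-- the union of the cells of dimension less than `N` -/
def DS.Sk (D : DS E) (N : ℕ) : Set E := {x | ∃ n < N, ∃ σ : D.K n, x ∈ range (D.Φ σ)}

/-- the simplicial boundary for given face maps -/
def kbd {A B : Type} {n : ℕ} (d : Fin (n + 2) → A → B) (c : A →₀ ℤ) : B →₀ ℤ :=
  ∑ i : Fin (n + 2), (-1 : ℤ) ^ (i : ℕ) • c.mapDomain (d i)

/-- simplicial chains compute singular homology -/
structure DS.QI (D : DS E) : Prop where
  surj : ∀ k (z : Simplex E k →₀ ℤ), IsCycle z → ∃ c : D.K k →₀ ℤ, IsBdry (z - c.mapDomain D.Φ)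
  inj : ∀ k (c : D.K k →₀ ℤ), IsBdry (c.mapDomain D.Φ) → ∃ c' : D.K (k + 1) →₀ ℤ, kbd D.d c' = c

/-- homotopy classes of paths -/
abbrev PQ (x y : E) : Type := Path.Homotopic.Quotient x y

/-- `c` is compatible with all paths inside `S` -/
def Pot {x₀ : E} (c : ∀ x, PQ x₀ x) (S : Set E) : Prop :=
  ∀ (x y : E) (γ : Path x y), range γ ⊆ S → (c x).trans (.mk γ) = c y

/-- `c` is compatible with all paths inside closed cells -/
def DS.CP (D : DS E) {x₀ : E} (c : ∀ x, PQ x₀ x) : Prop :=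
  ∀ (n : ℕ) (σ : D.K n) (t t' : Dl (n + 1)) (δ : Path t t'),
    (c (D.Φ σ t)).trans (.mk (δ.map (D.Φ σ).continuous)) = c (D.Φ σ t')

/-- classes of paths to the vertices, compatible with the edges -/
def DS.VP (D : DS E) (x₀ : E) : Prop :=
  ∃ c : ∀ x, x ∈ D.Sk 1 → PQ x₀ x, ∀ (e : D.K 1)
    (δ : Path (stdSimplex.vertex 0 : Dl 2) (stdSimplex.vertex 1)) h0 h1,
    (c (D.Φ e (stdSimplex.vertex 0)) h0).trans (.mk (δ.map (D.Φ e).continuous)) =
      c (D.Φ e (stdSimplex.vertex 1)) h1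

end top

/-- a finite Delta-set with group labels: the cells of the cover are the pairs `(g, s)` -/
structure CD (G : Type) [Group G] where
  L : ℕ → Type
  fin : ∀ n, Finite (L n)
  top : ∃ N, ∀ n, N ≤ n → IsEmpty (L n)
  d : ∀ {n}, Fin (n + 2) → L (n + 1) → L n
  a : ∀ {n}, Fin (n + 2) → L (n + 1) → G
  dd : ∀ {n} (i j : Fin (n + 2)) (s : L (n + 2)), i ≤ j →
    d i (d j.succ s) = d j (d i.castSucc s) ∧
      a j.succ s * a i (d j.succ s) = a i.castSucc s * a j (d i.castSucc s)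

variable {G : Type} [Group G]

/-- translation of a cell of the cover -/
def sh {A : Type} (g : G) (σ : G × A) : G × A := (g * σ.1, σ.2)

/-- faces in the cover -/
def CD.f (C : CD G) {n : ℕ} (i : Fin (n + 2)) (σ : G × C.L (n + 1)) : G × C.L n :=
  (σ.1 * C.a i σ.2, C.d i σ.2)

/-- a realisation of the cover -/
structure Real (C : CD G) (E : Type) [TopologicalSpace E] [MulAction G E]
    [ContinuousConstSMul G E] where
  Φ : ∀ {n}, G × C.L n → Simplex E n
  Φ_d : ∀ {n} (i : Fin (n + 2)) (σ : G × C.L (n + 1)), Φ (C.f i σ) = pull i.succAbove (Φ σ)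
  cover : ∀ x, ∃ (n : ℕ) (σ : G × C.L n) (t : Dl (n + 1)), Inn t ∧ Φ σ t = x
  dim_eq : ∀ {m n} (σ : G × C.L m) (τ : G × C.L n) s t, Inn s → Inn t → Φ σ s = Φ τ t → m = n
  uniq : ∀ {n} (σ τ : G × C.L n) s t, Inn s → Inn t → Φ σ s = Φ τ t → σ = τ ∧ s = t
  lf : LocallyFinite fun c : Σ n, G × C.L n => range (Φ c.2)
  Φ_sh : ∀ {n} (g : G) (σ : G × C.L n), Φ (sh g σ) = g • Φ σ

/-- the underlying Delta-complex structure -/
def Real.ds {C : CD G} {E : Type} [TopologicalSpace E] [MulAction G E] [ContinuousConstSMul G E]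
    (R : Real C E) : DS E where
  K n := G × C.L n
  d := C.f
  Φ := R.Φ
  Φ_d := R.Φ_d
  cover := R.cover
  dim_eq := R.dim_eq
  uniq := R.uniq
  lf := R.lf
  top := C.top.imp fun _ h n hn => ⟨fun σ => (h n hn).false σ.2⟩

/-- the group ring -/
abbrev Lam (G : Type) [Group G] : Type := MonoidAlgebra ℤ G

/-- equivariant cochains of the cover -/
def KCoch {A : Type} (ψ : G × A → Lam G) : Prop :=
  ∀ g σ, ψ (sh g σ) = MonoidAlgebra.single g 1 * ψ σ

namespace CD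

variable (C : CD G)

def kcobd {n : ℕ} (ψ : G × C.L n → Lam G) (σ : G × C.L (n + 1)) : Lam G :=
  ∑ i : Fin (n + 2), (-1 : ℤ) ^ (i : ℕ) • ψ (C.f i σ)

def KCocyc {n : ℕ} (ψ : G × C.L n → Lam G) : Prop := KCoch ψ ∧ C.kcobd ψ = 0

def KCobd : ∀ {n : ℕ}, (G × C.L n → Lam G) → Prop
  | 0, ψ => ψ = 0
  | _ + 1, ψ => ∃ χ, KCoch χ ∧ C.kcobd χ = ψ

def KCyc : ∀ {n : ℕ}, (G × C.L n →₀ ℤ) → Prop
  | 0, _ => True
  | _ + 1, c => kbd C.f c = 0

def KBd {n : ℕ} (c : G × C.L n →₀ ℤ) : Prop := ∃ c' : G × C.L (n + 1) →₀ ℤ, kbd C.f c' = c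

/-- boundary matrix -/
def B (n : ℕ) [DecidableEq (C.L n)] : Matrix (C.L (n + 1)) (C.L n) (Lam G) :=
  Matrix.of fun s t => ∑ i : Fin (n + 2), (-1 : ℤ) ^ (i : ℕ) •
    if C.d i s = t then MonoidAlgebra.single (C.a i s) 1 else 0

end CD

/-- cap product on the cover, for a front face map `F` and a back face map `Bk` -/
def kcap {S A A' : Type} (F : S → G × A) (Bk : S → G × A') (z : S →₀ ℤ) (ψ : G × A → Lam G) :
    G × A' →₀ ℤ :=
  z.sum fun σ a => (ψ (F σ)).coeff.sum fun g b => Finsupp.single (sh g⁻¹ (Bk σ)) (a * b)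

/-- duality in one degree -/
def CD.KPD (C : CD G) {k l : ℕ} (F : G × C.L 3 → G × C.L k) (Bk : G × C.L 3 → G × C.L l)
    (z : G × C.L 3 →₀ ℤ) : Prop :=
  (∀ ψ, C.KCocyc ψ → C.KCyc (kcap F Bk z ψ) ∧ (C.KBd (kcap F Bk z ψ) ↔ C.KCobd ψ)) ∧
    ∀ c, C.KCyc c → ∃ ψ, C.KCocyc ψ ∧ C.KBd (kcap F Bk z ψ - c)

/-- Poincare duality for the cover -/
def CD.PDK (C : CD G) : Prop :=
  (∀ n, 3 < n → IsEmpty (C.L n)) ∧ ∃ z : G × C.L 3 →₀ ℤ,
    (kbd C.f z).mapDomain Prod.snd = 0 ∧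
    C.KPD (fun σ => C.f 1 (C.f 2 (C.f 3 σ))) id z ∧
    C.KPD (fun σ => C.f 2 (C.f 3 σ)) (fun σ => C.f 0 σ) z ∧
    C.KPD (fun σ => C.f 3 σ) (fun σ => C.f 0 (C.f 0 σ)) z ∧
    C.KPD id (fun σ => C.f 0 (C.f 0 (C.f 0 σ))) z

/-- conjugated values on the chosen lifts -/
def yv {A : Type} (ψ : G × A → Lam G) (s : A) : Lam G :=
  MonoidAlgebra.mapDomain (fun g => g⁻¹) (ψ (1, s))

section realis

variable {C : CD G} {E : Type} [TopologicalSpace E] [MulAction G E] [ContinuousConstSMul G E]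

/-- equivariant retraction of singular chains onto simplicial chains -/
structure Real.SDR (R : Real C E) (r : ∀ n, Simplex E n → (G × C.L n →₀ ℤ))
    (h : ∀ n, Simplex E n → (Simplex E (n + 1) →₀ ℤ)) : Prop where
  r_sh : ∀ n (g : G) σ, r n (g • σ) = (r n σ).mapDomain (sh g)
  h_sh : ∀ n (g : G) σ, h n (g • σ) = (h n σ).mapDomain (g • ·)
  r_Φ : ∀ n τ, r n (R.Φ τ) = Finsupp.single τ 1
  zero : ∀ σ, (r 0 σ).mapDomain R.Φ + bdry (h 0 σ) = Finsupp.single σ 1
  succ : ∀ n σ, (r (n + 1) σ).mapDomain R.Φ + bdry (h (n + 1) σ) +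
    ∑ i : Fin (n + 2), (-1 : ℤ) ^ (i : ℕ) • h n (pull i.succAbove σ) = Finsupp.single σ 1
  r_bd : ∀ n σ, kbd C.f (r (n + 1) σ) =
    ∑ i : Fin (n + 2), (-1 : ℤ) ^ (i : ℕ) • r n (pull i.succAbove σ)

/-- simplicial cochains compute singular cohomology -/
structure Real.QC (R : Real C E) : Prop where
  surj : ∀ k (ψ : G × C.L k → Lam G), C.KCocyc ψ →
    ∃ φ : Simplex E k → Lam G, IsCocycle φ ∧ ∀ σ, φ (R.Φ σ) = ψ σ
  inj : ∀ k (φ : Simplex E k → Lam G), IsCocycle φ → C.KCobd (fun σ => φ (R.Φ σ)) → IsCobdry φ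

end realis

section cdOf

open Pool.Agent.PD3

variable (X : DeltaCx)

/-- cells of a combinatorial complex -/
def cL : ℕ → Type
  | 0 => Unit
  | 1 => Fin X.n1
  | 2 => Fin X.n2
  | 3 => Fin X.n3
  | _ + 4 => Empty

def cd : ∀ {n}, Fin (n + 2) → cL X (n + 1) → cL X n
  | 0, _, _ => ()
  | 1, i, t => X.d2 t i
  | 2, i, s => X.d3 s i
  | _ + 3, _, s => Empty.elim s

/-- class of the first edge -/
def e01 : ∀ {n}, cL X (n + 1) → X.pi1
  | 0, e => X.gen e
  | 1, t => X.gen (X.d2 t 2)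
  | 2, s => X.gen (X.d2 (X.d3 s 3) 2)
  | _ + 3, s => Empty.elim s

theorem gen_rel (t : Fin X.n2) : X.gen (X.d2 t 2) * X.gen (X.d2 t 0) = X.gen (X.d2 t 1) := by
  have h : (PresentedGroup.mk X.rels
      (FreeGroup.of (X.d2 t 2) * FreeGroup.of (X.d2 t 0) * (FreeGroup.of (X.d2 t 1))⁻¹)) = 1 :=
    PresentedGroup.one_of_mem ⟨t, rfl⟩
  rw [map_mul, map_mul, map_inv, mul_inv_eq_one] at h
  exact h

/-- the labelled Delta-set of a combinatorial complex -/
def cdOf : CD X.pi1 where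
  L := cL X
  fin
    | 0 => inferInstanceAs (Finite Unit)
    | 1 => inferInstanceAs (Finite (Fin X.n1))
    | 2 => inferInstanceAs (Finite (Fin X.n2))
    | 3 => inferInstanceAs (Finite (Fin X.n3))
    | _ + 4 => inferInstanceAs (Finite Empty)
  top := ⟨4, fun n hn => by
    obtain ⟨m, rfl⟩ := Nat.exists_eq_add_of_le' hn
    exact inferInstanceAs (IsEmpty Empty)⟩
  d := cd X
  a i s := if i = 0 then e01 X s else 1
  dd {n} i j s hij := by
    match n, i, j, s, hij with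
    | 0, i, j, t, hij =>
      refine ⟨rfl, ?_⟩
      have h := gen_rel X t
      fin_cases i <;> fin_cases j
      · simpa [e01, cd] using h.symm
      · simp [e01, cd]
      · exact absurd hij (by decide)
      · simp
    | 1, i, j, s, hij =>
      refine ⟨X.dd s i j hij, ?_⟩
      have h := gen_rel X (X.d3 s 3)
      have h1 := X.dd s 0 2 (by decide)
      have h2 := X.dd s 1 2 (by decide)
      have h3 := X.dd s 2 2 (by decide)
      fin_cases i <;> fin_cases j <;> first | exact absurd hij (by decide) | simp_all [e01, cd]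
    | _ + 2, _, _, s, _ => exact Empty.elim s

end cdOf

end

end Pool.Agent.Lib.LT
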