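import Pool.Agent.Lib.LT.Blue
import Pool.Agent.Lib.PDC.All

/-! From the bridge and the combinatorial realisation to the topological statement. -/

namespace Pool.Agent.Lib.LT

open Topology Pool.Agent.PDC

/-- every realised tree of groups is realised by a space -/
theorem top_of_realised (hB : St_BRIDGE) {n : ℕ} {V : Fin (n + 1) → Type} [∀ v, Group (V v)]
    [∀ v, Fintype (V v)] {j : Fin n} (D : EdgeData V j) (hD : D.Realised) :
    ∃ (X : Type) (_ : TopologicalSpace X) (_ : T2Space X) (_ : CWComplex (Set.univ : Set X))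
      (_ : CWComplex.Finite (Set.univ : Set X)) (_ : PathConnectedSpace X) (x₀ : X)
      (E : Type) (_ : TopologicalSpace E) (_ : SimplyConnectedSpace E) (p : C(E, X))
      (G : Type) (_ : Group G) (_ : MulAction G E) (_ : ContinuousConstSMul G E),
      IsQuotientCoveringMap p G ∧ IsPD3 G p ∧
      (∀ (A B : Type) [Group A] [Group B], Nonempty (FundamentalGroup X x₀ ≃* Monoid.Coprod A B) →
        Subsingleton A ∨ Subsingleton B) ∧
      Group.FG (FundamentalGroup X x₀) ∧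
      (∃ H : Subgroup (FundamentalGroup X x₀), H.FiniteIndex ∧ IsFreeGroup H) ∧
      Nonempty (FundamentalGroup X x₀ ≃* TreePi D.α D.β) := by
  obtain ⟨-, Y, h1, h2, h3, ⟨S, h4, h5⟩, ⟨t⟩⟩ := hD
  obtain ⟨X, i1, i2, i3, i4, i5, x₀, E, i6, i7, p, G, i8, i9, i10, a, b, ⟨e⟩⟩ := hB Y h1
  refine ⟨X, i1, i2, i3, i4, i5, x₀, E, i6, i7, p, G, i8, i9, i10, a, b,
    fun A B _ _ ⟨f⟩ => h2 A B ⟨e.symm.trans f⟩,
    Group.fg_of_surjective (f := e.symm.toMonoidHom) e.symm.surjective,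
    ⟨S.map e.symm.toMonoidHom, ⟨?_⟩, ?_⟩, ⟨e.trans t⟩⟩
  · rw [Subgroup.index_map_of_bijective e.symm.bijective]
    exact h4.index_ne_zero
  · exact IsFreeGroup.ofMulEquiv (S.equivMapOfInjective e.symm.toMonoidHom e.symm.injective)

theorem exists_realised : ∃ (n : ℕ) (G : Fin (n + 1) → Type) (_ : ∀ v, Group (G v))
    (_ : ∀ v, Fintype (G v)) (j : Fin n) (D : EdgeData G j), D.Realised := by
  let G : Fin 2 → Type := fun v => match v with
    | ⟨0, _⟩ => Matrix.SpecialLinearGroup (Fin 2) (ZMod 3)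
    | ⟨_ + 1, _⟩ => DihedralGroup 5 × Multiplicative (ZMod 3)
  let g0 : Group (Matrix.SpecialLinearGroup (Fin 2) (ZMod 3)) := inferInstance
  let g1 : Group (DihedralGroup 5 × Multiplicative (ZMod 3)) := inferInstance
  let f0 : Fintype (Matrix.SpecialLinearGroup (Fin 2) (ZMod 3)) := inferInstance
  let f1 : Fintype (DihedralGroup 5 × Multiplicative (ZMod 3)) := inferInstance
  let i1 : ∀ v, Group (G v) := fun v => match v with
    | ⟨0, _⟩ => g0
    | ⟨_ + 1, _⟩ => g1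
  let i2 : ∀ v, Fintype (G v) := fun v => match v with
    | ⟨0, _⟩ => f0
    | ⟨_ + 1, _⟩ => f1
  have h1 : ((0 : Fin 2) = (0 : Fin 1).castSucc ∧ (1 : Fin 2) = (0 : Fin 1).succ) ∨
      ((0 : Fin 2) = (0 : Fin 1).succ ∧ (1 : Fin 2) = (0 : Fin 1).castSucc) := .inl ⟨rfl, rfl⟩
  have h2 : IsA (G 0) := ⟨MulEquiv.refl _⟩
  have h3 : IsB (G 1) := ⟨5, by norm_num, by norm_num, ⟨MulEquiv.refl _⟩⟩
  have h4 : ∀ v : Fin 2, v ≠ 0 → v ≠ 1 → IsD (G v) := fun v a b => by omega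
  obtain ⟨D⟩ := edgeData_of (G := G) (j := 0) h1 h2 h3 h4
  exact ⟨1, G, i1, i2, 0, D, (iff_list D).2 ⟨0, 1, h1, h2, h3, h4⟩⟩

theorem fin_of (hB : St_BRIDGE) :
    ∃ (X : Type) (_ : TopologicalSpace X) (_ : T2Space X) (_ : CWComplex (Set.univ : Set X))
      (_ : CWComplex.Finite (Set.univ : Set X)) (_ : PathConnectedSpace X) (x₀ : X)
      (E : Type) (_ : TopologicalSpace E) (_ : SimplyConnectedSpace E) (p : C(E, X))
      (G : Type) (_ : Group G) (_ : MulAction G E) (_ : ContinuousConstSMul G E),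
      IsQuotientCoveringMap p G ∧ IsPD3 G p ∧
      (∀ (A B : Type) [Group A] [Group B], Nonempty (FundamentalGroup X x₀ ≃* Monoid.Coprod A B) →
        Subsingleton A ∨ Subsingleton B) ∧
      Group.FG (FundamentalGroup X x₀) ∧
      (∃ H : Subgroup (FundamentalGroup X x₀), H.FiniteIndex ∧ IsFreeGroup H) ∧
      ∃ (n : ℕ) (V : Fin (n + 1) → Type) (_ : ∀ i, Group (V i)) (_ : ∀ i, Fintype (V i))
        (Ed : Fin n → Type) (_ : ∀ i, Group (Ed i)) (α : ∀ i, Ed i →* V i.castSucc)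
        (ω : ∀ i, Ed i →* V i.succ),
        (∀ i, Function.Injective (α i) ∧ Function.Injective (ω i) ∧
          ¬ Function.Surjective (α i) ∧ ¬ Function.Surjective (ω i)) ∧
        (∀ i (M : Rep.{0} ℤ (V i)) (m : ℤ),
          Nonempty (tateCohomology M m ≅ tateCohomology M (m + 4))) ∧
        (∀ i, Nontrivial (Ed i)) ∧
        (∀ i j, 2 < Nat.card (Ed i) → 2 < Nat.card (Ed j) → i = j) ∧
        (∃ i, Nonempty (Ed i ≃* Multiplicative (ZMod 6))) ∧
        Nonempty (FundamentalGroup X x₀ ≃* (Monoid.CoprodI V ⧸ Subgroup.normalClosure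
          {x | ∃ i e, x = Monoid.CoprodI.of (α i e) * (Monoid.CoprodI.of (ω i e))⁻¹})) := by
  obtain ⟨n, V, i1, i2, j, D, hD⟩ := exists_realised
  obtain ⟨X, a1, a2, a3, a4, a5, x₀, E, a6, a7, p, G, a8, a9, a10, b1, b2, b3, b4, b5, b6⟩ :=
    top_of_realised hB D hD
  have hj : ∀ i, 2 < Nat.card (D.E i) → i = j := fun i hi => by
    by_contra h
    rw [D.two i h] at hi
    exact lt_irrefl _ hi
  refine ⟨X, a1, a2, a3, a4, a5, x₀, E, a6, a7, p, G, a8, a9, a10, b1, b2, b3, b4, b5, n, V, i1, i2,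
    D.E, D.grp, D.α, D.β, fun i => ⟨(D.hα i).1, (D.hβ i).1, (D.hα i).2, (D.hβ i).2⟩, hD.1,
    fun i => ?_, fun i k hi hk => (hj i hi).trans (hj k hk).symm, ⟨j, D.six⟩, b6⟩
  by_cases h : i = j
  · obtain ⟨e⟩ := D.six
    have : Fact (1 < 6) := ⟨by norm_num⟩
    rw [h]
    exact e.toEquiv.nontrivial
  · have h2 := D.two i h
    have : Finite (D.E i) := Nat.finite_of_card_ne_zero (by omega)
    exact Finite.one_lt_card_iff_nontrivial.1 (by omega)

end Pool.Agent.Lib.LT
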