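import Pool.Agent.Lib.LT.Blue

/-! Small shared lemmas for the bridge. -/

namespace Pool.Agent.Lib.LT

open Set Topology Pool.Agent.Lib.MP_77749b_gt

section simplex

theorem inn_ctr (n : ℕ) : Inn (ctr n) := fun i => by
  have : (ctr n) i = ((Fintype.card (Fin (n + 1)) : ℝ))⁻¹ := rfl
  rw [this, Fintype.card_fin]
  positivity

theorem inn_zero (t : Dl 1) : Inn t := by
  rw [Subsingleton.elim t (ctr 0)]
  exact inn_ctr 0

theorem not_inn_iff {k : ℕ} {t : Dl k} : ¬ Inn t ↔ ∃ i, t i = 0 := by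
  simp only [Inn, not_forall, not_lt]
  exact exists_congr fun i => ⟨fun h => le_antisymm h (t.2.1 i), fun h => h.le⟩

theorem not_inn_face {n : ℕ} (k : Fin (n + 2)) (s : Dl (n + 1)) :
    ¬ Inn (stdSimplex.map k.succAbove s : Dl (n + 2)) := not_inn_iff.2 ⟨k, map_self k s⟩

/-- a point with vanishing `k`-th coordinate lies in the `k`-th face -/
theorem exists_face_at {n : ℕ} {t : Dl (n + 2)} {k : Fin (n + 2)} (h : t k = 0) :
    ∃ s : Dl (n + 1), stdSimplex.map k.succAbove s = t := by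
  have h1 : ∑ i, t (k.succAbove i) = 1 := by
    have := t.2.2
    rw [Fin.sum_univ_succAbove _ k] at this
    have h' : t.1 k = 0 := h
    rw [h', zero_add] at this
    exact this
  refine ⟨⟨fun i => t (k.succAbove i), fun i => t.2.1 _, h1⟩, ?_⟩
  ext j
  rcases eq_or_ne j k with rfl | hj
  · rw [h]; exact map_self _ _
  · obtain ⟨i, rfl⟩ := Fin.exists_succAbove_eq hj
    exact map_at _ _ _

theorem exists_face {n : ℕ} {t : Dl (n + 2)} (h : ¬ Inn t) :
    ∃ (k : Fin (n + 2)) (s : Dl (n + 1)), stdSimplex.map k.succAbove s = t :=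
  let ⟨k, hk⟩ := not_inn_iff.1 h
  ⟨k, exists_face_at hk⟩

theorem face_inj {n : ℕ} (k : Fin (n + 2)) :
    Function.Injective (stdSimplex.map k.succAbove : Dl (n + 1) → Dl (n + 2)) := fun s s' h => by
  ext i
  rw [← map_at k s i, ← map_at k s' i, h]

theorem cont_coord {k : ℕ} (i : Fin k) : Continuous fun t : Dl k => t i :=
  (continuous_apply i).comp continuous_subtype_val

theorem isOpen_inn (k : ℕ) : IsOpen {t : Dl k | Inn t} := by
  simp only [Inn, ofPred_forall]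
  exact isOpen_iInter_of_finite fun i => isOpen_lt continuous_const (cont_coord i)

theorem isClosed_bdy (k : ℕ) : IsClosed (Bdy k) := (isOpen_inn k).isClosed_compl

theorem sc_convex {V : Type} [AddCommGroup V] [Module ℝ V] [TopologicalSpace V]
    [IsTopologicalAddGroup V] [ContinuousSMul ℝ V] {S : Set V} (h : Convex ℝ S)
    (hne : S.Nonempty) : SimplyConnectedSpace S :=
  have := h.contractibleSpace hne
  inferInstance

theorem sc_Dl (k : ℕ) : SimplyConnectedSpace (Dl (k + 1)) :=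
  sc_convex (convex_stdSimplex ℝ _) ⟨_, (ctr k).2⟩

end simplex

section chains

variable {E : Type} [TopologicalSpace E]

theorem pull_eq {m n : ℕ} (f : Fin (m + 1) → Fin (n + 1)) (σ : Simplex E n) :
    pull f σ = res f σ := rfl

theorem pull_apply {m n : ℕ} (f : Fin (m + 1) → Fin (n + 1)) (σ : Simplex E n) (t : Dl (m + 1)) :
    pull f σ t = σ (stdSimplex.map f t) := rfl

theorem pull_pull {l m n : ℕ} (g : Fin (l + 1) → Fin (m + 1)) (f : Fin (m + 1) → Fin (n + 1))
    (σ : Simplex E n) : pull g (pull f σ) = pull (f ∘ g) σ := res_res g f σ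

theorem pull_id {n : ℕ} (σ : Simplex E n) : pull id σ = σ := res_id σ

theorem pull_smul {G : Type} [Group G] [MulAction G E] [ContinuousConstSMul G E] {m n : ℕ}
    (f : Fin (m + 1) → Fin (n + 1)) (g : G) (σ : Simplex E n) :
    pull f (g • σ) = g • pull f σ := rfl

theorem bdry_eq {n : ℕ} (c : Simplex E (n + 1) →₀ ℤ) : bdry c = bd (n + 1) c := by
  simp only [bdry, bd, LinearMap.sum_apply, LinearMap.smul_apply, Finsupp.lmapDomain_apply]
  rfl

theorem In_empty {k : ℕ} {c : Ch ℤ E (k + 1)} (h : c ∈ In ℤ ∅ (k + 1)) : c = 0 := by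
  ext σ
  by_contra hσ
  exact mem_CS.1 h σ (Finsupp.mem_support_iff.2 hσ) ⟨ctr k, rfl⟩

theorem SD_push {F : Type} [TopologicalSpace F] (f : C(E, F)) (n k : ℕ) (c : Ch ℤ E k) :
    SD n k (push f k c) = push f k (SD n k c) := by
  refine lin_ext ((SD n k).comp (push f k)) ((push f k).comp (SD n k)) (fun σ => ?_) c
  simp only [LinearMap.comp_apply, push_single, SD, lx_single]
  rw [push, md_md]
  rfl

theorem TD_push {F : Type} [TopologicalSpace F] (f : C(E, F)) (n k : ℕ) (c : Ch ℤ E k) :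
    TD n k (push f k c) = push f (k + 1) (TD n k c) := by
  refine lin_ext ((TD n k).comp (push f k)) ((push f (k + 1)).comp (TD n k)) (fun σ => ?_) c
  simp only [LinearMap.comp_apply, push_single, TD, lx_single]
  rw [push, md_md]
  rfl

/-- the simplicial boundary as a linear map -/
noncomputable def kbdL {A B : Type} {n : ℕ} (d : Fin (n + 2) → A → B) :
    (A →₀ ℤ) →ₗ[ℤ] (B →₀ ℤ) := ∑ i : Fin (n + 2), (-1 : ℤ) ^ (i : ℕ) • md (d i)

theorem kbd_eq {A B : Type} {n : ℕ} (d : Fin (n + 2) → A → B) (c : A →₀ ℤ) :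
    kbd d c = kbdL d c := by
  simp only [kbd, kbdL, LinearMap.sum_apply, LinearMap.smul_apply, Finsupp.lmapDomain_apply]

theorem kbdL_single {A B : Type} {n : ℕ} (d : Fin (n + 2) → A → B) (a : A) (r : ℤ) :
    kbdL d (Finsupp.single a r) =
      ∑ i : Fin (n + 2), (-1 : ℤ) ^ (i : ℕ) • Finsupp.single (d i a) r := by
  simp only [kbdL, LinearMap.sum_apply, LinearMap.smul_apply, md_single]

theorem RelB.add {A B : Set E} {k : ℕ} {c c' : Ch ℤ E (k + 1)} (h : RelB A B c)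
    (h' : RelB A B c') : RelB A B (c + c') := by
  obtain ⟨d, hd, e⟩ := h
  obtain ⟨d', hd', e'⟩ := h'
  refine ⟨d + d', add_mem hd hd', ?_⟩
  rw [map_add, ← sub_add_sub_comm]
  exact add_mem e e'

theorem RelB.smul {A B : Set E} {k : ℕ} {c : Ch ℤ E (k + 1)} (h : RelB A B c) (r : ℤ) :
    RelB A B (r • c) := by
  obtain ⟨d, hd, e⟩ := h
  refine ⟨r • d, Submodule.smul_mem _ _ hd, ?_⟩
  rw [map_smul, ← smul_sub]
  exact Submodule.smul_mem _ _ e

theorem RelB.of_mem {A B : Set E} {k : ℕ} {c : Ch ℤ E (k + 1)} (h : c ∈ In ℤ A (k + 1)) :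
    RelB A B c := ⟨0, zero_mem _, by rwa [map_zero, sub_zero]⟩

theorem RelB.of_bd {A B : Set E} {k : ℕ} {d : Ch ℤ E (k + 2)} (h : d ∈ In ℤ B (k + 2)) :
    RelB A B (bd (k + 1) d) := ⟨d, h, by rw [sub_self]; exact zero_mem _⟩

theorem RelB.mono {A A' B B' : Set E} (hA : A ⊆ A') (hB : B ⊆ B') {k : ℕ} {c : Ch ℤ E (k + 1)}
    (h : RelB A B c) : RelB A' B' c :=
  let ⟨d, hd, e⟩ := h
  ⟨d, In_mono hB _ hd, In_mono hA _ e⟩

theorem RelB.push {F : Type} [TopologicalSpace F] (f : C(E, F)) {A B : Set E} {A' B' : Set F}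
    (hA : MapsTo f A A') (hB : MapsTo f B B') {k : ℕ} {c : Ch ℤ E (k + 1)} (h : RelB A B c) :
    RelB A' B' (push f (k + 1) c) := by
  obtain ⟨d, hd, e⟩ := h
  refine ⟨_, push_In f hB hd, ?_⟩
  rw [bd_push, ← map_sub]
  exact push_In f hA e

end chains

section cells

variable {E : Type} [TopologicalSpace E]

/-- a map from a compact space is an embedding on a set where its fibres are single points -/
theorem emb_of {X : Type} [TopologicalSpace X] [CompactSpace X] [T2Space E] (f : C(X, E))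
    {O : Set X} (h : ∀ x ∈ O, ∀ y, f x = f y → x = y) : IsEmbedding (O.domRestrict f) := by
  refine ⟨isInducing_iff_nhds.2 fun x => le_antisymm ?_ ?_, fun x y e =>
    Subtype.ext (h x x.2 y e)⟩
  · exact (f.continuous.comp continuous_subtype_val).continuousAt.le_comap
  · rw [nhds_subtype_eq_comap]
    have e : O.domRestrict f = f ∘ Subtype.val := rfl
    rw [e, ← Filter.comap_comap]
    refine Filter.comap_mono fun U hU => ?_
    obtain ⟨V, hVU, hV, hx⟩ := mem_nhds_iff.1 hU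
    refine ⟨(f '' Vᶜ)ᶜ, (f.continuous.isClosedMap _ hV.isClosed_compl).isOpen_compl.mem_nhds ?_,
      fun y hy => hVU (by_contra fun hy' => hy ⟨y, hy', rfl⟩)⟩
    rintro ⟨y, hy, e'⟩
    exact hy (h x x.2 y e'.symm ▸ hx)

theorem ca_model (n : ℕ) : CA n (Bdy (n + 1)) univ
    fun _ : Unit => (ContinuousMap.id (Dl (n + 1)) : Simplex (Dl (n + 1)) n) where
  closed := isClosed_bdy _
  union := (eq_univ_of_forall fun t => Or.inr (mem_iUnion.2 ⟨(), mem_range_self t⟩)).symm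
  bdy _ _ := Iff.rfl
  inj _ _ _ _ _ _ h := ⟨rfl, h⟩
  lf := locallyFinite_of_finite _

namespace CA

variable {n : ℕ} {A B : Set E} {J : Type} {Φ : J → Simplex E n} (h : CA n A B Φ)
include h

theorem sub : A ⊆ B := h.union ▸ subset_union_left

theorem mem (j : J) (t : Dl (n + 1)) : Φ j t ∈ B :=
  h.union ▸ Or.inr (mem_iUnion.2 ⟨j, t, rfl⟩)

theorem cases {x : E} (hx : x ∈ B) : x ∈ A ∨ ∃ j t, Inn t ∧ Φ j t = x := by
  by_cases hA : x ∈ A
  · exact Or.inl hA
  rw [h.union] at hx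
  obtain ⟨j, t, rfl⟩ := mem_iUnion.1 (hx.resolve_left hA)
  exact Or.inr ⟨j, t, by_contra fun ht => hA ((h.bdy j t).2 ht), rfl⟩

/-- an interior point is alone in its fibre -/
theorem inj' {j j' : J} {t t' : Dl (n + 1)} (ht : Inn t) (e : Φ j t = Φ j' t') :
    j = j' ∧ t = t' :=
  h.inj j j' t t' ht (by_contra fun ht' => (h.bdy j t).1 (e ▸ (h.bdy j' t').2 ht') ht) e

theorem Φ_inj : Function.Injective Φ := fun j j' e =>
  (h.inj' (inn_ctr n) (by rw [e] : Φ j (ctr n) = Φ j' (ctr n))).1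

theorem mem_Ctr {j : J} {t : Dl (n + 1)} : Φ j t ∈ Ctr Φ ↔ t = ctr n :=
  ⟨fun ⟨_, e⟩ => (h.inj' (inn_ctr n) e).2.symm, fun e => ⟨j, by rw [e]⟩⟩

theorem not_mem_Ctr {x : E} (hx : x ∈ A) : x ∉ Ctr Φ := by
  rintro ⟨j, rfl⟩
  exact (h.bdy j _).1 hx (inn_ctr n)

theorem isClosed_top [T2Space E] : IsClosed B := h.union ▸ h.closed.union
  (h.lf.isClosed_iUnion fun j => (isCompact_range (Φ j).continuous).isClosed)

theorem isClosed_Ctr [T2Space E] : IsClosed (Ctr Φ) := by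
  rw [Ctr, ← iUnion_singleton_eq_range]
  exact (h.lf.subset fun j => singleton_subset_iff.2 ⟨_, rfl⟩).isClosed_iUnion fun _ =>
    isClosed_singleton

theorem emb [T2Space E] (j : J) : IsEmbedding ({t | Inn t}.domRestrict (Φ j)) :=
  emb_of (Φ j) fun _ ht _ e => (h.inj' ht e).2

end CA

namespace DS

variable (D : DS E)

theorem Φ_inj (n : ℕ) : Function.Injective (D.Φ : D.K n → Simplex E n) := fun σ τ e =>
  (D.uniq σ τ _ _ (inn_ctr n) (inn_ctr n) (by rw [e])).1

theorem bd_Φ {n : ℕ} (c : D.K (n + 1) →₀ ℤ) :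
    bd (n + 1) (c.mapDomain D.Φ : Ch ℤ E (n + 2)) = (kbd D.d c).mapDomain D.Φ := by
  rw [kbd_eq]
  refine lin_ext ((bd (n + 1)).comp (md D.Φ)) ((md D.Φ).comp (kbdL D.d)) (fun σ => ?_) c
  simp only [LinearMap.comp_apply, md_single, bd_single, kbdL_single, map_sum, map_smul, D.Φ_d]
  rfl

theorem bdry_Φ {n : ℕ} (c : D.K (n + 1) →₀ ℤ) :
    bdry (c.mapDomain D.Φ) = (kbd D.d c).mapDomain D.Φ := (bdry_eq _).trans (D.bd_Φ c)

theorem Sk_zero : D.Sk 0 = ∅ := eq_empty_of_forall_notMem fun _ ⟨_, h, _⟩ => absurd h (by omega)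

theorem Sk_mono {M N : ℕ} (h : M ≤ N) : D.Sk M ⊆ D.Sk N :=
  fun _ ⟨n, hn, hx⟩ => ⟨n, hn.trans_le h, hx⟩

theorem mem_Sk {n N : ℕ} (h : n < N) (σ : D.K n) (t : Dl (n + 1)) : D.Φ σ t ∈ D.Sk N :=
  ⟨n, h, σ, t, rfl⟩

theorem Sk_top : ∃ N, ∀ M, N ≤ M → D.Sk M = univ := by
  obtain ⟨N, hN⟩ := D.top
  refine ⟨N, fun M hM => eq_univ_of_forall fun x => ?_⟩
  obtain ⟨n, σ, t, -, rfl⟩ := D.cover x
  exact D.mem_Sk (by_contra fun hn => (hN n (by omega)).false σ) σ t

/-- every point of a closed cell is an interior point of a cell of at most that dimension -/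
theorem exists_inn : ∀ {n : ℕ} (σ : D.K n) (t : Dl (n + 1)),
    ∃ m ≤ n, ∃ (τ : D.K m) (s : Dl (m + 1)), Inn s ∧ D.Φ τ s = D.Φ σ t ∧ (¬ Inn t → m < n)
  | 0, σ, t => ⟨0, le_rfl, σ, t, inn_zero t, rfl, fun h => absurd (inn_zero t) h⟩
  | n + 1, σ, t => by
    by_cases ht : Inn t
    · exact ⟨_, le_rfl, σ, t, ht, rfl, fun h => absurd ht h⟩
    obtain ⟨k, s, rfl⟩ := exists_face ht
    obtain ⟨m, hm, τ, u, hu, e, -⟩ := exists_inn (D.d k σ) s
    exact ⟨m, by omega, τ, u, hu, by rw [e, D.Φ_d]; rfl, fun _ => by omega⟩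

end DS

end cells

section group

variable {G : Type} [Group G]

theorem sh_sh {A : Type} (g h : G) (σ : G × A) : sh g (sh h σ) = sh (g * h) σ := by
  simp [sh, mul_assoc]

theorem sh_one {A : Type} (σ : G × A) : sh 1 σ = σ := by simp [sh]

theorem sh_mk {A : Type} (g : G) (s : A) : sh g (1, s) = (g, s) := by simp [sh]

theorem CD.f_sh (C : CD G) {n : ℕ} (i : Fin (n + 2)) (g : G) (σ : G × C.L (n + 1)) :
    C.f i (sh g σ) = sh g (C.f i σ) := by simp [sh, CD.f, mul_assoc]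

theorem CD.f_f (C : CD G) {n : ℕ} (i j : Fin (n + 2)) (h : i ≤ j) (σ : G × C.L (n + 2)) :
    C.f i (C.f j.succ σ) = C.f j (C.f i.castSucc σ) := by
  obtain ⟨h1, h2⟩ := C.dd i j σ.2 h
  simp only [CD.f, mul_assoc, h2]
  rw [h1]

theorem Real.free {C : CD G} {E : Type} [TopologicalSpace E] [MulAction G E]
    [ContinuousConstSMul G E] (R : Real C E) {g : G} {x : E} (h : g • x = x) : g = 1 := by
  obtain ⟨n, σ, t, ht, rfl⟩ := R.cover x
  have e : R.Φ (sh g σ) t = R.Φ σ t := by rw [R.Φ_sh]; exact h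
  have := congrArg Prod.fst (R.uniq _ _ _ _ ht ht e).1
  simpa [sh] using this

/-- equivariant choice over a free action -/
theorem equiv_choice {S T : Type} [MulAction G S] (free : ∀ (g : G) (s : S), g • s = s → g = 1)
    (act : G → T → T) (act_mul : ∀ g h t, act (g * h) t = act g (act h t)) (P : S → T → Prop)
    (hP : ∀ g s t, P s t → P (g • s) (act g t)) (ex : ∀ s, ∃ t, P s t) :
    ∃ f : S → T, (∀ s, P s (f s)) ∧ ∀ g s, f (g • s) = act g (f s) := by
  choose u hu using ex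
  have h1 : ∀ s : S, ∃ g : G, g • (Quotient.mk (MulAction.orbitRel G S) s).out = s := fun s =>
    (MulAction.orbitRel G S).symm (Quotient.exact (Quotient.out_eq (Quotient.mk _ s)))
  choose γ hγ using h1
  refine ⟨fun s => act (γ s) (u (Quotient.mk (MulAction.orbitRel G S) s).out), fun s => ?_,
    fun g s => ?_⟩
  · have := hP (γ s) _ _ (hu (Quotient.mk (MulAction.orbitRel G S) s).out)
    rwa [hγ] at this
  · have e : Quotient.mk (MulAction.orbitRel G S) (g • s) = Quotient.mk _ s :=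
      Quotient.sound ⟨g, rfl⟩
    have h2 := hγ (g • s)
    rw [e] at h2
    have h3 : (g * γ s)⁻¹ * γ (g • s) = 1 := free _ (Quotient.mk (MulAction.orbitRel G S) s).out
      (by rw [mul_smul, h2, inv_smul_eq_iff, mul_smul, hγ])
    rw [inv_mul_eq_one] at h3
    simp only [e, ← h3, act_mul]

end group

end Pool.Agent.Lib.LT
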