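import Mathlib

/-! Singular chains of a covering space, cochains with group ring coefficients, cap product and
Poincare duality in dimension three. -/

namespace Pool.Agent.Lib.LT

noncomputable section

/-- singular `n`-simplices of `E` -/
abbrev Simplex (E : Type) [TopologicalSpace E] (n : ℕ) : Type := C(stdSimplex ℝ (Fin (n + 1)), E)

variable {E X : Type} [TopologicalSpace E] [TopologicalSpace X]

/-- restriction of a simplex along the affine map given by a map `f` of vertex sets -/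
def pull {m n : ℕ} (f : Fin (m + 1) → Fin (n + 1)) (σ : Simplex E n) : Simplex E m :=
  σ.comp ⟨stdSimplex.map f, stdSimplex.continuous_map f⟩

/-- the singular boundary -/
def bdry {n : ℕ} (c : Simplex E (n + 1) →₀ ℤ) : Simplex E n →₀ ℤ :=
  ∑ i : Fin (n + 2), (-1 : ℤ) ^ (i : ℕ) • c.mapDomain (pull i.succAbove)

/-- cycles -/
def IsCycle : ∀ {n : ℕ}, (Simplex E n →₀ ℤ) → Prop
  | 0, _ => True
  | _ + 1, c => bdry c = 0

/-- boundaries -/
def IsBdry {n : ℕ} (c : Simplex E n →₀ ℤ) : Prop := ∃ d, bdry d = c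

variable {G : Type} [Group G] [MulAction G E] [ContinuousConstSMul G E]

/-- cochains with coefficients in the group ring: equivariant functions on simplices -/
def IsCochain {n : ℕ} (φ : Simplex E n → MonoidAlgebra ℤ G) : Prop :=
  ∀ (g : G) (σ : Simplex E n), φ (g • σ) = MonoidAlgebra.single g 1 * φ σ

/-- the coboundary -/
def cobdry {n : ℕ} (φ : Simplex E n → MonoidAlgebra ℤ G) (σ : Simplex E (n + 1)) :
    MonoidAlgebra ℤ G :=
  ∑ i : Fin (n + 2), (-1 : ℤ) ^ (i : ℕ) • φ (pull i.succAbove σ)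

/-- cocycles -/
def IsCocycle {n : ℕ} (φ : Simplex E n → MonoidAlgebra ℤ G) : Prop := IsCochain φ ∧ cobdry φ = 0

/-- coboundaries -/
def IsCobdry : ∀ {n : ℕ}, (Simplex E n → MonoidAlgebra ℤ G) → Prop
  | 0, φ => φ = 0
  | _ + 1, φ => ∃ ψ, IsCochain ψ ∧ cobdry ψ = φ

/-- cap product of a cochain with a three-chain: the conjugate of the value on the front face
acts on the back face -/
def cap {k l : ℕ} (h : k + l = 3) (z : Simplex E 3 →₀ ℤ) (φ : Simplex E k → MonoidAlgebra ℤ G) :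
    Simplex E l →₀ ℤ :=
  z.sum fun σ a => (φ (pull (fun j => ⟨j, by omega⟩) σ)).coeff.sum fun g b =>
    Finsupp.single (g⁻¹ • pull (fun j => ⟨k + j, by omega⟩) σ) (a * b)

variable (G) in
/-- `p : E → X` being the universal cover with deck group `G`: cap product with a class in
`H_3(X; ℤ)` is an isomorphism `H^k(X; ℤG) → H_{3-k}(X; ℤG)` in every degree `k`. -/
def IsPD3 (p : C(E, X)) : Prop :=
  ∃ z : Simplex E 3 →₀ ℤ, bdry (z.mapDomain p.comp) = 0 ∧
    (∀ (k l : ℕ) (h : k + l = 3),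
      (∀ φ : Simplex E k → MonoidAlgebra ℤ G, IsCocycle φ →
        IsCycle (cap h z φ) ∧ (IsBdry (cap h z φ) ↔ IsCobdry φ)) ∧
      ∀ c : Simplex E l →₀ ℤ, IsCycle c →
        ∃ φ : Simplex E k → MonoidAlgebra ℤ G, IsCocycle φ ∧ IsBdry (cap h z φ - c)) ∧
    ∀ n, 3 < n → (∀ c : Simplex E n →₀ ℤ, IsCycle c → IsBdry c) ∧
      ∀ φ : Simplex E n → MonoidAlgebra ℤ G, IsCocycle φ → IsCobdry φ

end

end Pool.Agent.Lib.LT
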