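import Pool.Agent.Lib.LT.SDefs

/-! Poincare duality spaces and linear trees of finite groups. -/

namespace Pool.Agent.Lib.LT

open Topology

/-- `X` has a universal cover `p : E → X`, with deck group `G`, satisfying Poincare duality in
dimension three -/
def IsPD3Space (X : Type) [TopologicalSpace X] : Prop :=
  ∃ (E : Type) (_ : TopologicalSpace E) (_ : SimplyConnectedSpace E) (p : C(E, X))
    (G : Type) (_ : Group G) (_ : MulAction G E) (_ : ContinuousConstSMul G E),
    IsQuotientCoveringMap p G ∧ IsPD3 G p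

/-- the fundamental group of a linear tree of groups -/
abbrev LinPi {n : ℕ} (V : Fin (n + 1) → Type) [∀ i, Group (V i)] (Ed : Fin n → Type)
    [∀ i, Group (Ed i)] (α : ∀ i, Ed i →* V i.castSucc) (ω : ∀ i, Ed i →* V i.succ) : Type :=
  Monoid.CoprodI V ⧸ Subgroup.normalClosure
    {x | ∃ i e, x = Monoid.CoprodI.of (α i e) * (Monoid.CoprodI.of (ω i e))⁻¹}

/-- `P` is the fundamental group of a reduced linear tree of finite groups of cohomological period
dividing four, with nontrivial edge groups, at most one of order greater than two, and one cyclic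
of order six -/
def IsSixTree (P : Type) [Group P] : Prop :=
  ∃ (n : ℕ) (V : Fin (n + 1) → Type) (_ : ∀ i, Group (V i)) (_ : ∀ i, Fintype (V i))
    (Ed : Fin n → Type) (_ : ∀ i, Group (Ed i)) (α : ∀ i, Ed i →* V i.castSucc)
    (ω : ∀ i, Ed i →* V i.succ),
    (∀ i, Function.Injective (α i) ∧ Function.Injective (ω i) ∧
      ¬ Function.Surjective (α i) ∧ ¬ Function.Surjective (ω i)) ∧
    (∀ i (M : Rep.{0} ℤ (V i)) (m : ℤ),
      Nonempty (tateCohomology M m ≅ tateCohomology M (m + 4))) ∧
    (∀ i, Nontrivial (Ed i)) ∧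
    (∀ i j, 2 < Nat.card (Ed i) → 2 < Nat.card (Ed j) → i = j) ∧
    (∃ i, Nonempty (Ed i ≃* Multiplicative (ZMod 6))) ∧
    Nonempty (P ≃* LinPi V Ed α ω)

end Pool.Agent.Lib.LT
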